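import Mathlib

/-!
# The notion of forcing
-/

set_option autoImplicit false
set_option linter.unusedSectionVars false

namespace Pool.Agent.W868.GM

open Cardinal

/-- The types that measure the size of the conditions on the level `β`. -/
noncomputable def Y (β : Ordinal.{0}) : Type :=
  Set ((ℕ × Bool) ⊕ Σ α : Shrink.{0} (Set.Iio β),
    ℕ × ℕ × Set (Y ((equivShrink (Set.Iio β)).symm α).1) × Bool)
termination_by β
decreasing_by exact ((equivShrink (Set.Iio β)).symm α).2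

/-- The positions on the level `α`. -/
abbrev X (α : Ordinal.{0}) : Type := Set (Y α)

/-- The type of the atoms of level smaller than `β`. -/
abbrev B (β : Ordinal.{0}) : Type := (ℕ × Bool) ⊕ Σ α : Shrink.{0} (Set.Iio β),
    ℕ × ℕ × X ((equivShrink (Set.Iio β)).symm α).1 × Bool

theorem Y_eq (β : Ordinal.{0}) : Y β = Set (B β) := by
  rw [Y]

theorem card_Y (β : Ordinal.{0}) : #(Y β) = #(Set (B β)) := congrArg Cardinal.mk (Y_eq β)

theorem card_B_le (β : Ordinal.{0}) : #(B β) ≤ #(Y β) := by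
  rw [card_Y, Cardinal.mk_set]
  exact (Cardinal.cantor _).le

theorem aleph0_le (β : Ordinal.{0}) : ℵ₀ ≤ #(Y β) := by
  refine le_trans ?_ (card_B_le β)
  rw [Cardinal.aleph0_le_mk_iff]
  exact Infinite.of_injective (fun n : ℕ => (Sum.inl (n, true) : B β)) fun m n h => by
    simpa using h

theorem card_mono {α β : Ordinal.{0}} (h : α ≤ β) : #(Y α) ≤ #(Y β) := by
  rcases h.lt_or_eq with h | rfl
  · refine le_trans ?_ (card_B_le β)
    obtain ⟨α', hα⟩ : ∃ α' : Shrink.{0} (Set.Iio β), ((equivShrink (Set.Iio β)).symm α').1 = α :=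
      ⟨equivShrink (Set.Iio β) ⟨α, h⟩, by simp⟩
    subst hα
    refine Cardinal.mk_le_of_injective
      (f := fun y => (Sum.inr ⟨α', 0, 0, {y}, true⟩ : B β)) fun y y' h => ?_
    simpa using h
  · exact le_rfl

theorem card_cof (J : Type) : ∃ β : Ordinal.{0}, ∀ γ ≥ β, #J ≤ #(Y γ) := by
  refine ⟨(#J).ord, fun γ hγ => ?_⟩
  refine le_trans ?_ (card_mono hγ)
  refine le_trans ?_ (card_B_le _)
  have h1 : #J = #(Shrink.{0} (Set.Iio (#J).ord)) := by
    apply Cardinal.lift_injective.{1}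
    rw [Cardinal.lift_mk_shrink'', Cardinal.mk_Iio_ordinal]
    simp
  refine h1.le.trans ?_
  refine Cardinal.mk_le_of_injective
    (f := fun α => (Sum.inr ⟨α, 0, 0, ∅, true⟩ : B (#J).ord)) fun y y' h => ?_
  have h2 := Sum.inr_injective h
  exact congrArg Sigma.fst h2

/-- The atoms. -/
inductive At : Type 1
  | c (n : ℕ) (b : Bool)
  | h (α : Ordinal.{0}) (n i : ℕ) (ξ : X α) (b : Bool)

/-- The conditions. -/
structure Cd : Type 1 where
  s : Set At
  fc : ∀ n b, At.c n b ∈ s → At.c n (!b) ∉ s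
  fh : ∀ α n i ξ b, At.h α n i ξ b ∈ s → At.h α n i ξ (!b) ∉ s
  nc : {n : ℕ | ∃ b, At.c n b ∈ s}.Finite
  nh : {t : Ordinal.{0} × ℕ × ℕ | ∃ ξ b, At.h t.1 t.2.1 t.2.2 ξ b ∈ s}.Finite
  dm : ∀ α n i ξ b, At.h α n i ξ b ∈ s → ∃ b', At.c n b' ∈ s
  sz : ∀ α n i, #{ξ : X α | ∃ b, At.h α n i ξ b ∈ s} ≤ #(Y α)

namespace Cd

@[ext] theorem ext {p q : Cd} (h : p.s = q.s) : p = q := by
  cases p
  cases q
  cases h
  rfl

instance : PartialOrder Cd where
  le p q := q.s ⊆ p.s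
  le_refl p := Set.Subset.refl _
  le_trans p q r h h' := Set.Subset.trans h' h
  le_antisymm p q h h' := Cd.ext (Set.Subset.antisymm h' h)

theorem le_def {p q : Cd} : p ≤ q ↔ q.s ⊆ p.s := Iff.rfl

instance : OrderTop Cd where
  top := ⟨∅, by simp, by simp, by simp, by simp, by simp, by simp⟩
  le_top _ := Set.empty_subset _

/-- The conditions do not contradict each other. -/
def Compat (p q : Cd) : Prop :=
  (∀ n b, At.c n b ∈ p.s → At.c n (!b) ∉ q.s) ∧
    ∀ α n i ξ b, At.h α n i ξ b ∈ p.s → At.h α n i ξ (!b) ∉ q.s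

theorem compat_of_le {p q r : Cd} (hp : r ≤ p) (hq : r ≤ q) : Compat p q :=
  ⟨fun n b h h' => r.fc n b (hp h) (hq h'), fun α n i ξ b h h' => r.fh α n i ξ b (hp h) (hq h')⟩

theorem Compat.symm {p q : Cd} (h : Compat p q) : Compat q p := by
  refine ⟨fun n b h1 h2 => h.1 n (!b) h2 ?_, fun α n i ξ b h1 h2 => h.2 α n i ξ (!b) h2 ?_⟩
  · simpa using h1
  · simpa using h1

/-- The union of two conditions. -/
def cup (p q : Cd) (h : Compat p q) : Cd where
  s := p.s ∪ q.s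
  fc := by
    rintro n b (h1 | h1) (h2 | h2)
    · exact p.fc n b h1 h2
    · exact h.1 n b h1 h2
    · exact h.symm.1 n b h1 h2
    · exact q.fc n b h1 h2
  fh := by
    rintro α n i ξ b (h1 | h1) (h2 | h2)
    · exact p.fh α n i ξ b h1 h2
    · exact h.2 α n i ξ b h1 h2
    · exact h.symm.2 α n i ξ b h1 h2
    · exact q.fh α n i ξ b h1 h2
  nc := (p.nc.union q.nc).subset fun n ⟨b, hb⟩ => hb.elim (fun h => Or.inl ⟨b, h⟩)
    fun h => Or.inr ⟨b, h⟩
  nh := (p.nh.union q.nh).subset fun n ⟨ξ, b, hb⟩ => hb.elim (fun h => Or.inl ⟨ξ, b, h⟩)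
    fun h => Or.inr ⟨ξ, b, h⟩
  dm := by
    rintro α n i ξ b (h1 | h1)
    · exact (p.dm α n i ξ b h1).imp fun b' h => Or.inl h
    · exact (q.dm α n i ξ b h1).imp fun b' h => Or.inr h
  sz := by
    intro α n i
    refine (Cardinal.mk_le_mk_of_subset (t := {ξ : X α | ∃ b, At.h α n i ξ b ∈ p.s} ∪
      {ξ : X α | ∃ b, At.h α n i ξ b ∈ q.s}) ?_).trans ((Cardinal.mk_union_le _ _).trans
        (Cardinal.add_le_of_le (aleph0_le α) (p.sz α n i) (q.sz α n i)))
    rintro ξ ⟨b, h | h⟩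
    · exact Or.inl ⟨b, h⟩
    · exact Or.inr ⟨b, h⟩

theorem cup_le_left {p q : Cd} (h : Compat p q) : cup p q h ≤ p := Set.subset_union_left

theorem cup_le_right {p q : Cd} (h : Compat p q) : cup p q h ≤ q := Set.subset_union_right

theorem le_cup {p q r : Cd} (h : Compat p q) (hp : r ≤ p) (hq : r ≤ q) : r ≤ cup p q h :=
  Set.union_subset hp hq

/-- A condition that is a part of `p`, given by a set of atoms that contains all atoms `c`. -/
def part (p : Cd) (T : Set At) (hT : ∀ n b, At.c n b ∈ T) : Cd where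
  s := p.s ∩ T
  fc n b h h' := p.fc n b h.1 h'.1
  fh α n i ξ b h h' := p.fh α n i ξ b h.1 h'.1
  nc := p.nc.subset fun n ⟨b, hb⟩ => ⟨b, hb.1⟩
  nh := p.nh.subset fun n ⟨ξ, b, hb⟩ => ⟨ξ, b, hb.1⟩
  dm α n i ξ b h := (p.dm α n i ξ b h.1).imp fun b' h' => ⟨h', hT n b'⟩
  sz α n i := by
    refine (Cardinal.mk_le_mk_of_subset (t := {ξ : X α | ∃ b, At.h α n i ξ b ∈ p.s}) ?_).trans
      (p.sz α n i)
    rintro ξ ⟨b, hb⟩
    exact ⟨b, hb.1⟩

/-- The kept atoms. -/
def Kp (β : Ordinal.{0}) (E : Set (Ordinal.{0} × ℕ × ℕ)) : Set At :=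
  {t | ∀ α n i ξ b, t = At.h α n i ξ b → α < β ∨ (α, n, i) ∈ E}

theorem kp_c {β : Ordinal.{0}} {E : Set (Ordinal.{0} × ℕ × ℕ)} (n : ℕ) (b : Bool) :
    At.c n b ∈ Kp β E := by
  intro α n i ξ b h
  cases h

theorem kp_h {β : Ordinal.{0}} {E : Set (Ordinal.{0} × ℕ × ℕ)} {α : Ordinal.{0}} {n i : ℕ}
    {ξ : X α} {b : Bool} : At.h α n i ξ b ∈ Kp β E ↔ α < β ∨ (α, n, i) ∈ E := by
  constructor
  · intro h
    exact h α n i ξ b rfl
  · intro h α' n' i' ξ' b' h'
    cases h'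
    exact h

/-- The restriction to the levels below `β` and the coordinates in `E`. -/
def rs (β : Ordinal.{0}) (E : Set (Ordinal.{0} × ℕ × ℕ)) (p : Cd) : Cd :=
  p.part (Kp β E) kp_c

theorem le_rs (β : Ordinal.{0}) (E : Set (Ordinal.{0} × ℕ × ℕ)) (p : Cd) : p ≤ rs β E p :=
  Set.inter_subset_left

/-- All atoms are of level smaller than `β`. -/
def Low (β : Ordinal.{0}) (p : Cd) : Prop := ∀ α n i ξ b, At.h α n i ξ b ∈ p.s → α < β

theorem low_rs (β : Ordinal.{0}) (p : Cd) : Low β (rs β ∅ p) := by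
  rintro α n i ξ b ⟨-, h⟩
  exact (kp_h.1 h).elim id fun h => h.elim

theorem rs_le {β : Ordinal.{0}} {E : Set (Ordinal.{0} × ℕ × ℕ)} {p q : Cd} (hq : Low β q)
    (h : p ≤ q) : rs β E p ≤ q := by
  intro t ht
  refine ⟨h ht, ?_⟩
  intro α n i ξ b h'
  subst h'
  exact Or.inl (hq α n i ξ b ht)

theorem Low.mono {β γ : Ordinal.{0}} {p : Cd} (h : Low β p) (hβ : β ≤ γ) : Low γ p :=
  fun α n i ξ b h1 => (h α n i ξ b h1).trans_le hβ

theorem exists_low (p : Cd) : ∃ β, Low β p := by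
  obtain ⟨β, hβ⟩ := (p.nh.image Prod.fst).bddAbove
  refine ⟨Order.succ β, fun α n i ξ b h => ?_⟩
  exact Order.lt_succ_of_le (hβ ⟨(α, n, i), ⟨ξ, b, h⟩, rfl⟩)

theorem low_cup {β : Ordinal.{0}} {p q : Cd} (hp : Low β p) (hq : Low β q) (h : Compat p q) :
    Low β (cup p q h) := by
  rintro α n i ξ b (h | h)
  · exact hp _ _ _ _ _ h
  · exact hq _ _ _ _ _ h

/-! ### The size of the set of conditions of low level -/

/-- The atom with the given code. -/
noncomputable def atB (β : Ordinal.{0}) : B β → At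
  | Sum.inl (n, b) => At.c n b
  | Sum.inr ⟨_, n, i, ξ, b⟩ => At.h _ n i ξ b

theorem atB_injective (β : Ordinal.{0}) : Function.Injective (atB β) := by
  rintro (⟨n, b⟩ | ⟨α, n, i, ξ, b⟩) (⟨n', b'⟩ | ⟨α', n', i', ξ', b'⟩) h
  · simp only [atB, At.c.injEq] at h
    rw [h.1, h.2]
  · simp [atB] at h
  · simp [atB] at h
  · simp only [atB, At.h.injEq] at h
    obtain ⟨h1, h2, h3, h4, h5⟩ := h
    have h6 : α = α' := (equivShrink (Set.Iio β)).symm.injective (Subtype.ext h1)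
    subst h6
    obtain rfl := eq_of_heq h4
    subst h2 h3 h5
    rfl

theorem atB_c (β : Ordinal.{0}) (n : ℕ) (b : Bool) : At.c n b ∈ Set.range (atB β) :=
  ⟨Sum.inl (n, b), rfl⟩

theorem atB_h {β α : Ordinal.{0}} (hα : α < β) (n i : ℕ) (ξ : X α) (b : Bool) :
    At.h α n i ξ b ∈ Set.range (atB β) := by
  obtain ⟨α', hα'⟩ : ∃ α' : Shrink.{0} (Set.Iio β), ((equivShrink (Set.Iio β)).symm α').1 = α :=
    ⟨equivShrink (Set.Iio β) ⟨α, hα⟩, by simp⟩
  subst hα'
  exact ⟨Sum.inr ⟨α', n, i, ξ, b⟩, rfl⟩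

/-- The code of a condition. -/
noncomputable def codeB (β : Ordinal.{0}) (p : {p : Cd // Low β p}) : Set (B β) := atB β ⁻¹' p.1.s

theorem codeB_injective (β : Ordinal.{0}) : Function.Injective (codeB β) := by
  rintro ⟨p, hp⟩ ⟨q, hq⟩ h
  have key : ∀ p q : Cd, Low β p → atB β ⁻¹' p.s = atB β ⁻¹' q.s → p.s ⊆ q.s := by
    intro p q hp h t ht
    have h1 : t ∈ Set.range (atB β) := by
      cases t with
      | c n b => exact atB_c β n b
      | h α n i ξ b => exact atB_h (hp _ _ _ _ _ ht) n i ξ b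
    obtain ⟨x, rfl⟩ := h1
    have h2 : x ∈ atB β ⁻¹' p.s := ht
    rw [h] at h2
    exact h2
  have h1 : p = q := Cd.ext (Set.Subset.antisymm (key p q hp h) (key q p hq h.symm))
  subst h1
  rfl

instance (β : Ordinal.{0}) : Small.{0} {p : Cd // Low β p} :=
  small_of_injective (codeB_injective β)

/-- The conditions of level smaller than `β`. -/
abbrev R (β : Ordinal.{0}) : Type := Shrink.{0} {p : Cd // Low β p}

/-- The condition. -/
noncomputable def R.toCd {β : Ordinal.{0}} (r : R β) : Cd := ((equivShrink _).symm r).1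

theorem R.low {β : Ordinal.{0}} (r : R β) : Low β r.toCd := ((equivShrink _).symm r).2

theorem exists_R {β : Ordinal.{0}} {p : Cd} (hp : Low β p) : ∃ r : R β, r.toCd = p :=
  ⟨equivShrink _ ⟨p, hp⟩, by simp [R.toCd]⟩

theorem card_R (β : Ordinal.{0}) : #(R β) ≤ #(Y β) := by
  rw [card_Y]
  exact Cardinal.mk_le_of_injective (f := fun r : R β => codeB β ((equivShrink _).symm r))
    ((codeB_injective β).comp (equivShrink _).symm.injective)

end Cd

end Pool.Agent.W868.GM
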