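import Pool.Agent.W868.GM.Mv

/-!
# Closure of the high levels, and names for subsets
-/

set_option autoImplicit false
set_option linter.unusedSectionVars false

namespace Pool.Agent.W868.GM

open Pool.Agent.W868

/-- A part of a condition that lives on the levels at least `β` and on the coordinates in `E`. -/
structure HP (β : Ordinal.{0}) (E : Set Co) (u : Set At) : Prop where
  hi : ∀ x ∈ u, ∃ α n i ξ b, x = At.h α n i ξ b ∧ β ≤ α ∧ (α, n, i) ∈ E
  fh : ∀ α n i ξ b, At.h α n i ξ b ∈ u → At.h α n i ξ (!b) ∉ u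
  sz : ∀ α n i, Cardinal.mk {ξ : X α | ∃ b, At.h α n i ξ b ∈ u} ≤ Cardinal.mk (Y α)

theorem HP.iUnion {β : Ordinal.{0}} {E : Set Co} {ι : Type}
    (hι : Cardinal.mk ι ≤ Cardinal.mk (Y β)) {f : ι → Set At} (hf : ∀ i, HP β E (f i))
    (hc : ∀ i j, f i ⊆ f j ∨ f j ⊆ f i) : HP β E (⋃ i, f i) := by
  constructor
  · intro x hx
    obtain ⟨i, hi⟩ := Set.mem_iUnion.1 hx
    exact (hf i).hi x hi
  · intro α n i ξ b h h'
    obtain ⟨j, hj⟩ := Set.mem_iUnion.1 h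
    obtain ⟨k, hk⟩ := Set.mem_iUnion.1 h'
    rcases hc j k with h1 | h1
    · exact (hf k).fh _ _ _ _ _ (h1 hj) hk
    · exact (hf j).fh _ _ _ _ _ hj (h1 hk)
  · intro α n i
    by_cases hα : β ≤ α
    · have h1 : {ξ : X α | ∃ b, At.h α n i ξ b ∈ ⋃ i, f i} =
          ⋃ j, {ξ : X α | ∃ b, At.h α n i ξ b ∈ f j} := by
        ext ξ
        simp only [Set.mem_iUnion, Set.mem_ofPred_eq]
        constructor
        · rintro ⟨b, j, h⟩
          exact ⟨j, b, h⟩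
        · rintro ⟨j, b, h⟩
          exact ⟨b, j, h⟩
      rw [h1]
      refine (Cardinal.mk_iUnion_le _).trans ?_
      refine (mul_le_mul' (hι.trans (card_mono hα))
        (ciSup_le' fun j => (hf j).sz α n i)).trans ?_
      exact (Cardinal.mul_eq_self (aleph0_le α)).le
    · have h1 : {ξ : X α | ∃ b, At.h α n i ξ b ∈ ⋃ i, f i} = ∅ := by
        ext ξ
        simp only [Set.mem_iUnion, Set.mem_ofPred_eq, Set.mem_empty_iff_false, iff_false]
        rintro ⟨b, j, h⟩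
        obtain ⟨α', n', i', ξ', b', h2, h3, -⟩ := (hf j).hi _ h
        cases h2
        exact hα h3
      rw [h1]
      simp

open Classical in
/-- Fusion. -/
theorem fuse {β : Ordinal.{0}} {E : Set Co} {J : Type}
    (hJ : Cardinal.mk J ≤ Cardinal.mk (Y β)) (D : J → Set At → Prop)
    (hD : ∀ j u u', D j u → u ⊆ u' → HP β E u' → D j u') {u₀ : Set At} (hu : HP β E u₀) :
    ∃ u, HP β E u ∧ u₀ ⊆ u ∧ ∀ j u', u ⊆ u' → HP β E u' → D j u' → D j u := by
  let G : (j : J) → Set At → Set At := fun j U =>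
    if h : ∃ u', U ⊆ u' ∧ HP β E u' ∧ D j u' then h.choose else U
  have hG1 : ∀ j U, U ⊆ G j U := by
    intro j U
    by_cases h : ∃ u', U ⊆ u' ∧ HP β E u' ∧ D j u'
    · simp only [G, dif_pos h]
      exact h.choose_spec.1
    · simp only [G, dif_neg h]
      exact Set.Subset.refl _
  have hG2 : ∀ j U, HP β E U → HP β E (G j U) := by
    intro j U hU
    by_cases h : ∃ u', U ⊆ u' ∧ HP β E u' ∧ D j u'
    · simp only [G, dif_pos h]
      exact h.choose_spec.2.1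
    · simp only [G, dif_neg h]
      exact hU
  have hG3 : ∀ j U, (∃ u', U ⊆ u' ∧ HP β E u' ∧ D j u') → D j (G j U) := by
    intro j U h
    simp only [G, dif_pos h]
    exact h.choose_spec.2.2
  let F : J → Set At := IsWellFounded.fix (α := J) WellOrderingRel fun j ih =>
    G j (u₀ ∪ ⋃ j' : {j' // WellOrderingRel j' j}, ih j'.1 j'.2)
  have hF : ∀ j, F j = G j (u₀ ∪ ⋃ j' : {j' // WellOrderingRel j' j}, F j'.1) := by
    intro j
    exact IsWellFounded.fix_eq _ _ j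
  have h0 : ∀ j, u₀ ⊆ F j := by
    intro j
    rw [hF]
    exact Set.subset_union_left.trans (hG1 _ _)
  have hlt : ∀ j j', WellOrderingRel j' j → F j' ⊆ F j := by
    intro j j' h
    rw [hF j]
    exact ((Set.subset_iUnion (fun j' : {j' // WellOrderingRel j' j} => F j'.1) ⟨j', h⟩).trans
      Set.subset_union_right).trans (hG1 _ _)
  have hch : ∀ j j', F j ⊆ F j' ∨ F j' ⊆ F j := by
    intro j j'
    rcases trichotomous_of (WellOrderingRel (α := J)) j j' with h | rfl | h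
    · exact Or.inl (hlt _ _ h)
    · exact Or.inl (Set.Subset.refl _)
    · exact Or.inr (hlt _ _ h)
  have hun : ∀ S : Set J, (∀ j ∈ S, HP β E (F j)) → HP β E (u₀ ∪ ⋃ j : S, F j.1) := by
    intro S hS
    rcases S.eq_empty_or_nonempty with rfl | ⟨j, hj⟩
    · simpa using hu
    · have h1 : u₀ ∪ ⋃ j : S, F j.1 = ⋃ j : S, F j.1 :=
        Set.union_eq_right.2 ((h0 j).trans (Set.subset_iUnion (fun j : S => F j.1) ⟨j, hj⟩))
      rw [h1]
      exact HP.iUnion ((Cardinal.mk_set_le S).trans hJ) (fun j => hS j.1 j.2)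
        fun i j => hch i.1 j.1
  have hHP : ∀ j, HP β E (F j) := by
    intro j
    induction j using IsWellFounded.induction (WellOrderingRel (α := J)) with
    | ind j ih =>
      rw [hF]
      exact hG2 _ _ (hun {j' | WellOrderingRel j' j} ih)
  have hU : HP β E (u₀ ∪ ⋃ j, F j) := by
    rcases isEmpty_or_nonempty J with h | h
    · simpa using hu
    · obtain ⟨j⟩ := h
      have h1 : u₀ ∪ ⋃ j, F j = ⋃ j, F j :=
        Set.union_eq_right.2 ((h0 j).trans (Set.subset_iUnion F j))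
      rw [h1]
      exact HP.iUnion hJ hHP hch
  refine ⟨u₀ ∪ ⋃ j, F j, hU, Set.subset_union_left, fun j u' h1 h2 h3 => ?_⟩
  refine hD j (F j) _ ?_ ((Set.subset_iUnion F j).trans Set.subset_union_right) hU
  rw [hF]
  refine hG3 _ _ ⟨u', ?_, h2, h3⟩
  refine Set.Subset.trans ?_ h1
  refine Set.union_subset_union_right _ (Set.iUnion_subset fun j' => Set.subset_iUnion F j'.1)

/-- The bits of the coordinates in `E` are decided. -/
def DomE (E : Set Co) (t : Cd) : Prop := ∀ x ∈ E, ∃ b, At.c x.2.1 b ∈ t.s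

/-- The union of a condition of low level and of a high part. -/
def jn {β : Ordinal.{0}} {E : Set Co} (hE : E.Finite) (t : Cd) (ht : Cd.Low β t)
    (hd : DomE E t) (u : Set At) (hu : HP β E u) : Cd where
  s := t.s ∪ u
  fc := by
    rintro n b (h1 | h1) (h2 | h2)
    · exact t.fc n b h1 h2
    · obtain ⟨_, _, _, _, _, h, -⟩ := hu.hi _ h2
      cases h
    · obtain ⟨_, _, _, _, _, h, -⟩ := hu.hi _ h1
      cases h
    · obtain ⟨_, _, _, _, _, h, -⟩ := hu.hi _ h1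
      cases h
  fh := by
    rintro α n i ξ b (h1 | h1) (h2 | h2)
    · exact t.fh α n i ξ b h1 h2
    · obtain ⟨_, _, _, _, _, h, h3, -⟩ := hu.hi _ h2
      cases h
      exact absurd (ht _ _ _ _ _ h1) (not_lt.2 h3)
    · obtain ⟨_, _, _, _, _, h, h3, -⟩ := hu.hi _ h1
      cases h
      exact absurd (ht _ _ _ _ _ h2) (not_lt.2 h3)
    · exact hu.fh α n i ξ b h1 h2
  nc := t.nc.subset fun n ⟨b, hb⟩ => by
    rcases hb with h | h
    · exact ⟨b, h⟩
    · obtain ⟨_, _, _, _, _, h, -⟩ := hu.hi _ h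
      cases h
  nh := (t.nh.union hE).subset fun n ⟨ξ, b, hb⟩ => by
    rcases hb with h | h
    · exact Or.inl ⟨ξ, b, h⟩
    · obtain ⟨_, _, _, _, _, h, -, h3⟩ := hu.hi _ h
      cases h
      exact Or.inr h3
  dm := by
    rintro α n i ξ b (h1 | h1)
    · exact (t.dm α n i ξ b h1).imp fun b' h => Or.inl h
    · obtain ⟨_, _, _, _, _, h, -, h3⟩ := hu.hi _ h1
      cases h
      exact (hd _ h3).imp fun b' h => Or.inl h
  sz := by
    intro α n i
    refine (Cardinal.mk_le_mk_of_subset (t := {ξ : X α | ∃ b, At.h α n i ξ b ∈ t.s} ∪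
      {ξ : X α | ∃ b, At.h α n i ξ b ∈ u}) ?_).trans ((Cardinal.mk_union_le _ _).trans
        (Cardinal.add_le_of_le (aleph0_le α) (t.sz α n i) (hu.sz α n i)))
    rintro ξ ⟨b, h | h⟩
    · exact Or.inl ⟨b, h⟩
    · exact Or.inr ⟨b, h⟩

/-- The part of a condition on the high levels. -/
def hiP (β : Ordinal.{0}) (E : Set Co) (p : Cd) : Set At :=
  {x ∈ p.s | ∃ α n i ξ b, x = At.h α n i ξ b ∧ β ≤ α ∧ (α, n, i) ∈ E}

theorem hp_hiP (β : Ordinal.{0}) (E : Set Co) (p : Cd) : HP β E (hiP β E p) where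
  hi x hx := hx.2
  fh α n i ξ b h h' := p.fh _ _ _ _ _ h.1 h'.1
  sz α n i := by
    refine (Cardinal.mk_le_mk_of_subset (t := {ξ : X α | ∃ b, At.h α n i ξ b ∈ p.s}) ?_).trans
      (p.sz α n i)
    rintro ξ ⟨b, hb⟩
    exact ⟨b, hb.1⟩

open Classical in
theorem exists_dom {E : Set Co} (hE : E.Finite) (p : Cd) : ∃ q ≤ p, DomE E q ∧
    ∀ α n i ξ b, At.h α n i ξ b ∈ q.s → At.h α n i ξ b ∈ p.s := by
  let T : Set At := {x | ∃ t ∈ E, (¬ ∃ b, At.c t.2.1 b ∈ p.s) ∧ x = At.c t.2.1 true}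
  refine ⟨⟨p.s ∪ T, ?_, ?_, ?_, ?_, ?_, ?_⟩, Set.subset_union_left, ?_, ?_⟩
  · rintro n b (h1 | ⟨t, h1, h2, h3⟩) (h4 | ⟨t', h4, h5, h6⟩)
    · exact p.fc n b h1 h4
    · rw [At.c.injEq] at h6
      exact h5 ⟨b, h6.1 ▸ h1⟩
    · rw [At.c.injEq] at h3
      exact h2 ⟨_, h3.1 ▸ h4⟩
    · rw [At.c.injEq] at h3 h6
      rw [h3.2] at h6
      exact absurd h6.2 (by simp)
  · rintro α n i ξ b (h1 | ⟨t, h1, h2, h3⟩) (h4 | ⟨t', h4, h5, h6⟩)
    · exact p.fh _ _ _ _ _ h1 h4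
    · cases h6
    · cases h3
    · cases h3
  · refine (p.nc.union (hE.image fun t => t.2.1)).subset ?_
    rintro n ⟨b, h1 | ⟨t, h1, h2, h3⟩⟩
    · exact Or.inl ⟨b, h1⟩
    · rw [At.c.injEq] at h3
      exact Or.inr ⟨t, h1, h3.1.symm⟩
  · refine p.nh.subset ?_
    rintro t ⟨ξ, b, h1 | ⟨t', h1, h2, h3⟩⟩
    · exact ⟨ξ, b, h1⟩
    · cases h3
  · rintro α n i ξ b (h1 | ⟨t', h1, h2, h3⟩)
    · exact (p.dm _ _ _ _ _ h1).imp fun b' h => Or.inl h
    · cases h3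
  · intro α n i
    refine (Cardinal.mk_le_mk_of_subset (t := {ξ : X α | ∃ b, At.h α n i ξ b ∈ p.s}) ?_).trans
      (p.sz α n i)
    rintro ξ ⟨b, h1 | ⟨t', h1, h2, h3⟩⟩
    · exact ⟨b, h1⟩
    · cases h3
  · intro t ht
    by_cases h : ∃ b, At.c t.2.1 b ∈ p.s
    · exact h.imp fun b h => Or.inl h
    · exact ⟨true, Or.inr ⟨t, ht, h, rfl⟩⟩
  · rintro α n i ξ b (h1 | ⟨t', h1, h2, h3⟩)
    · exact h1
    · cases h3

/-- A name for a subset of `x` with conditions of level smaller than `β`. -/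
noncomputable def subn (β : Ordinal.{0}) (x : Nm Cd) (S : x.idx → Cd.R β → Prop) : Nm Cd :=
  Nm.mk {k : x.idx × Cd.R β // k.2.toCd ≤ x.cnd k.1 ∧ S k.1 k.2} (fun k => x.chd k.1.1)
    (fun k => k.1.2.toCd)

theorem el_subn {β : Ordinal.{0}} {x z : Nm Cd} {S : x.idx → Cd.R β → Prop} {c : Cd} :
    El (subn β x S) z c ↔ ∃ i r, r.toCd ≤ x.cnd i ∧ S i r ∧ z = x.chd i ∧ c = r.toCd := by
  rw [subn, el_mk]
  constructor
  · rintro ⟨⟨⟨i, r⟩, h1, h2⟩, rfl, rfl⟩
    exact ⟨i, r, h1, h2, rfl, rfl⟩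
  · rintro ⟨i, r, h1, h2, rfl, rfl⟩
    exact ⟨⟨⟨i, r⟩, h1, h2⟩, rfl, rfl⟩

theorem gV_inv_mem {E : Set Co} {h : ℕ → Bool} {a : Ordinal.{0} → ℕ → Equiv.Perm ℕ}
    (ha : Fix E a) : (gV h a)⁻¹ = gV h (fun α n => (a α n)⁻¹) ∧
      Fix E (fun α n => (a α n)⁻¹) := by
  refine ⟨rfl, fun t ht => ?_⟩
  rw [Equiv.Perm.inv_eq_iff_eq]
  exact (ha t ht).symm

/-- A criterion for symmetry. -/
theorem sym_of {w : Bool} {E : Set Co} (hE : E.Finite) {x : Nm Cd}
    (h : ∀ h a, (w = true → h = fun _ => false) → Fix E a → ∀ z c, El x z c →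
      ∃ z', El x z' (mv (gV h a) c) ∧ NEq (act (mv (gV h a)) z) z') : Sym w x := by
  refine ⟨E, hE, fun k a hk ha => neq_iff.2 ⟨fun z c hz => ?_, fun z c hz => ?_⟩⟩
  · obtain ⟨y, d, hy, rfl, rfl⟩ := el_act.1 hz
    exact h k a hk ha y d hy
  · obtain ⟨h1, h2⟩ := gV_inv_mem (h := k) ha
    obtain ⟨z', hz', h3⟩ := h k _ hk h2 z c hz
    rw [← h1] at h3 hz'
    refine ⟨act (mv (gV k a)) z', el_act.2 ⟨z', _, hz', rfl, (mv_mv_inv _ _).symm⟩, ?_⟩
    have h4 := h3.symm.act (mv (gV k a))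
    rw [act_act] at h4
    have h5 : mv (gV k a) ∘ mv (gV k a)⁻¹ = id := funext fun p => mv_mv_inv _ p
    rwa [h5, act_id] at h4

theorem neq_idx {g : Gp} {x : Nm Cd} (h : NEq (act (mv g) x) x) (i : x.idx) :
    ∃ j, NEq (act (mv g) (x.chd i)) (x.chd j) ∧ mv g (x.cnd i) = x.cnd j := by
  obtain ⟨w, ⟨j, rfl, h1⟩, h2⟩ := (neq_iff.1 h).1 (act (mv g) (x.chd i)) (mv g (x.cnd i))
    (el_act.2 ⟨_, _, ⟨i, rfl, rfl⟩, rfl, rfl⟩)
  exact ⟨j, h2, h1.symm⟩

theorem low_mv {β : Ordinal.{0}} {t : Cd} (g : Gp) (h : Cd.Low β t) : Cd.Low β (mv g t) :=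
  fun _ _ _ _ _ h1 => h _ _ _ _ _ (mv_h.1 h1)

theorem domE_mv {E : Set Co} {t : Cd} (g : Gp) (h : DomE E t) : DomE E (mv g t) := by
  intro x hx
  obtain ⟨b, hb⟩ := h x hx
  refine ⟨b ^^ g.h x.2.1, ?_⟩
  rw [mv_c]
  simpa using hb

theorem mv_jn {β : Ordinal.{0}} {E : Set Co} (hE : E.Finite) {t : Cd} (ht : Cd.Low β t)
    (hd : DomE E t) {u : Set At} (hu : HP β E u) {h : ℕ → Bool}
    {a : Ordinal.{0} → ℕ → Equiv.Perm ℕ} (ha : Fix E a) :
    mv (gV h a) (jn hE t ht hd u hu) =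
      jn hE (mv (gV h a) t) (low_mv _ ht) (domE_mv _ hd) u hu := by
  apply Cd.ext
  ext x
  cases x with
  | c n b =>
    constructor
    · rintro (h1 | h1)
      · exact Or.inl h1
      · obtain ⟨_, _, _, _, _, h, -⟩ := hu.hi _ h1
        cases h
    · rintro (h1 | h1)
      · exact Or.inl h1
      · obtain ⟨_, _, _, _, _, h, -⟩ := hu.hi _ h1
        cases h
  | h α n i ξ b =>
    rw [mv_h]
    simp only [gV, Bool.xor_false]
    have key : ∀ j, At.h α n j ξ b ∈ u → (a α n).symm j = j ∧ a α n j = j := by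
      intro j hj
      obtain ⟨_, _, _, _, _, h, -, h3⟩ := hu.hi _ hj
      cases h
      have h4 := ha _ h3
      simp only at h4
      refine ⟨?_, h4⟩
      rw [Equiv.symm_apply_eq]
      exact h4.symm
    constructor
    · rintro (h1 | h1)
      · refine Or.inl ?_
        rw [mv_h]
        simpa using h1
      · have h2 := (key _ h1).2
        rw [Equiv.apply_symm_apply] at h2
        rw [← h2] at h1
        exact Or.inr h1
    · rintro (h1 | h1)
      · rw [mv_h] at h1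
        simp only [Bool.xor_false] at h1
        exact Or.inl h1
      · rw [(key _ h1).1]
        exact Or.inr h1

/-- Subsets of `x` have names with conditions of low level. -/
theorem key_sub {w : Bool} {β : Ordinal.{0}} {x y : Nm Cd} (hx : x ∈ KK w) (hl : Lev β x)
    (hJ : Cardinal.mk x.idx ≤ Cardinal.mk (Y β)) (hy : y ∈ KK w) (p : Cd) :
    ∃ q ≤ p, ∃ S : x.idx → Cd.R β → Prop, subn β x S ∈ KK w ∧
      (∀ s ≤ q, ∀ i, s ≤ x.cnd i → Fmem (x.chd i) y s →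
        ∃ t, El (subn β x S) (x.chd i) t ∧ s ≤ t) ∧
      ∀ z t, El (subn β x S) z t → ∀ s ≤ q, s ≤ t → Fmem z y s := by
  obtain ⟨Ex, hEx, hx1⟩ := (mem_KK.1 hx).2
  obtain ⟨Ey, hEy, hy1⟩ := (mem_KK.1 hy).2
  let E : Set Co := (Ex ∪ Ey) ∪ {t : Co | ∃ ξ b, At.h t.1 t.2.1 t.2.2 ξ b ∈ p.s}
  have hE : E.Finite := (hEx.union hEy).union p.nh
  obtain ⟨p1, hp1, hd1, hh1⟩ := exists_dom hE p
  let D : x.idx × Cd.R β → Set At → Prop := fun j u => ∃ (hd : DomE E j.2.toCd) (hu : HP β E u),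
    Fmem (x.chd j.1) y (jn hE j.2.toCd j.2.low hd u hu)
  have hJ2 : Cardinal.mk (x.idx × Cd.R β) ≤ Cardinal.mk (Y β) := by
    rw [Cardinal.mk_prod, Cardinal.lift_id, Cardinal.lift_id]
    exact (mul_le_mul' hJ (Cd.card_R β)).trans
      (Cardinal.mul_eq_self (aleph0_le β)).le
  obtain ⟨u, hu, hu0, hu1⟩ := fuse (E := E) hJ2 D (by
    rintro j u u' ⟨hd, hu, h1⟩ h2 h3
    exact ⟨hd, h3, h1.mono (Set.union_subset_union_right _ h2)⟩) (hp_hiP β E p1)
  have hdl : DomE E (Cd.rs β ∅ p1) := fun t ht => (hd1 t ht).imp fun b hb => ⟨hb, Cd.kp_c _ _⟩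
  refine ⟨jn hE (Cd.rs β ∅ p1) (Cd.low_rs β p1) hdl u hu, ?_, fun i r => D (i, r) u, ?_, ?_, ?_⟩
  · refine le_trans ?_ hp1
    intro x hx
    cases x with
    | c n b => exact Or.inl ⟨hx, Cd.kp_c _ _⟩
    | h α n i ξ b =>
      by_cases hα : α < β
      · exact Or.inl ⟨hx, Cd.kp_h.2 (Or.inl hα)⟩
      · exact Or.inr (hu0 ⟨hx, α, n, i, ξ, b, rfl, not_lt.1 hα, Or.inr ⟨ξ, b, hh1 _ _ _ _ _ hx⟩⟩)
  · rw [mem_KK]
    constructor
    · intro z c hz
      obtain ⟨i, r, -, -, rfl, rfl⟩ := el_subn.1 hz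
      exact (mem_KK.1 hx).1 _ _ ⟨i, rfl, rfl⟩
    · refine sym_of hE fun h a hw ha z c hz => ?_
      obtain ⟨i, r, h1, ⟨hd, _, h2⟩, rfl, rfl⟩ := el_subn.1 hz
      have ha1 : Fix Ex a := fun t ht => ha t (Or.inl (Or.inl ht))
      have ha2 : Fix Ey a := fun t ht => ha t (Or.inl (Or.inr ht))
      obtain ⟨j, hj1, hj2⟩ := neq_idx (hx1 h a hw ha1) i
      obtain ⟨r', hr'⟩ := Cd.exists_R (low_mv (gV h a) r.low)
      refine ⟨x.chd j, ?_, hj1⟩
      rw [← hr']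
      refine el_subn.2 ⟨j, r', ?_, ?_, rfl, rfl⟩
      · rw [hr', ← hj2]
        exact mv_mono _ h1
      · have h3 := Fmem.act (aut (gV h a)) h2
        rw [aut_apply, mv_jn hE r.low hd hu ha] at h3
        have h4 := h3.congr hj1 (hy1 h a hw ha2)
        refine ⟨?_, hu, ?_⟩
        · simp only [hr']
          exact domE_mv _ hd
        · simp only [hr']
          exact h4
  · intro s hs i hsi hf
    have h1 : Fmem (x.chd i) y (Cd.rs β E s) := by
      have hov : (Fml.mem (Sum.inr (x.chd i)) (Sum.inr y) : Fml (Nm Cd) 0).Over {x.chd i, y} :=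
        ⟨tOver_inr.2 (Or.inl rfl), tOver_inr.2 (Or.inr rfl)⟩
      have h2 := hom (w := w) (A := Nm Cd) (e := id) (S := {x.chd i, y})
        (φ := Fml.mem (Sum.inr (x.chd i)) (Sum.inr y)) hov (v := Fin.elim0) (β := β) hE (by
          rintro a (rfl | rfl)
          · exact (((lev_iff.1 hl) _ _ ⟨i, rfl, rfl⟩).1).inv E
          · intro a _ ha
            exact hy1 _ a (fun _ => rfl) fun t ht => ha t (Or.inl (Or.inr ht)))
        (fun i => i.elim0) (p := s) hf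
      exact h2
    obtain ⟨r, hr⟩ := Cd.exists_R (Cd.low_rs β s)
    have hdr : DomE E r.toCd := by
      rw [hr]
      intro t ht
      obtain ⟨b, hb⟩ := hdl t ht
      exact ⟨b, hs (Or.inl hb), Cd.kp_c _ _⟩
    have h3 : D (i, r) (hiP β E s) := by
      refine ⟨hdr, hp_hiP β E s, ?_⟩
      refine h1.mono ?_
      intro x hx
      cases x with
      | c n b =>
        refine Or.inl ?_
        simp only [hr]
        exact ⟨hx.1, Cd.kp_c _ _⟩
      | h α n i ξ b =>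
        by_cases hα : α < β
        · refine Or.inl ?_
          simp only [hr]
          exact ⟨hx.1, Cd.kp_h.2 (Or.inl hα)⟩
        · refine Or.inr ⟨hx.1, α, n, i, ξ, b, rfl, not_lt.1 hα, ?_⟩
          exact (Cd.kp_h.1 hx.2).elim (fun h => absurd h hα) id
    have h4 : u ⊆ hiP β E s := by
      intro x hx
      refine ⟨hs (Or.inr hx), ?_⟩
      exact hu.hi x hx
    have h5 := hu1 (i, r) _ h4 (hp_hiP β E s) h3
    refine ⟨r.toCd, el_subn.2 ⟨i, r, ?_, h5, rfl, rfl⟩, ?_⟩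
    · rw [hr]
      exact Cd.rs_le ((lev_iff.1 hl) _ _ ⟨i, rfl, rfl⟩).2 hsi
    · rw [hr]
      exact Cd.le_rs _ _ _
  · intro z t hz s hs hst
    obtain ⟨i, r, h1, ⟨hd, hu', h2⟩, rfl, rfl⟩ := el_subn.1 hz
    refine h2.mono ?_
    exact Set.union_subset hst (fun x hx => hs (Or.inr hx))

end Pool.Agent.W868.GM
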