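import Pool.Agent.W868.GM.Ops
import Pool.Agent.W868.Dfn

/-!
# Collection, power sets, and the density argument
-/

set_option autoImplicit false
set_option linter.unusedSectionVars false

namespace Pool.Agent.W868.GM

open Pool.Agent.W868

/-! ### The names for collection -/

theorem mv_agree {γ : Ordinal.{0}} {h : ℕ → Bool} {a a' : Ordinal.{0} → ℕ → Equiv.Perm ℕ}
    (ha : ∀ α < γ, a α = a' α) {p : Cd} (hp : Cd.Low γ p) : mv (gV h a) p = mv (gV h a') p := by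
  apply Cd.ext
  ext x
  cases x with
  | c n b => exact Iff.rfl
  | h α n i ξ b =>
    rw [mv_h, mv_h]
    simp only [gV, Bool.xor_false]
    constructor
    · intro h1
      have h2 := hp _ _ _ _ _ h1
      rwa [ha α h2] at h1
    · intro h1
      have h2 := hp _ _ _ _ _ h1
      rwa [← ha α h2] at h1

theorem act_agree {γ : Ordinal.{0}} {h : ℕ → Bool} {a a' : Ordinal.{0} → ℕ → Equiv.Perm ℕ}
    (ha : ∀ α < γ, a α = a' α) {x : Nm Cd} (hx : Lev γ x) :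
    act (mv (gV h a)) x = act (mv (gV h a')) x :=
  act_congr (S := Lev γ) (fun _ hx z c hz =>
    ⟨(lev_iff.1 hx z c hz).1, mv_agree ha (lev_iff.1 hx z c hz).2⟩) hx

theorem gV_mul (h h' : ℕ → Bool) (a a' : Ordinal.{0} → ℕ → Equiv.Perm ℕ) :
    gV h' a' * gV h a = gV (fun n => h n ^^ h' n) (fun α n => a' α n * a α n) := by
  rw [mul_def]
  simp only [gV, Bool.xor_false]

theorem act_gV (h h' : ℕ → Bool) (a a' : Ordinal.{0} → ℕ → Equiv.Perm ℕ) (x : Nm Cd) :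
    act (mv (gV h' a')) (act (mv (gV h a)) x) =
      act (mv (gV (fun n => h n ^^ h' n) (fun α n => a' α n * a α n))) x := by
  rw [act_act, ← gV_mul]
  congr 1
  funext p
  exact mv_mv _ _ p

section coll

variable (w : Bool) {n : ℕ} (φ : Fml (Nm Cd) (n + 2)) (v : Fin n → Nm Cd) (x : Nm Cd)

/-- There is a witness. -/
def Has (k : x.idx × Cd.R (bd φ v x)) : Prop := ∃ t : Nm Cd × Cd, t.1 ∈ KK w ∧
  Cd.rs (bd φ v x) ∅ t.2 = k.2.toCd ∧
  Forces (KK w) id φ (Fin.cons t.1 (Fin.cons (x.chd k.1) v)) t.2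

/-- The chosen witness. -/
noncomputable def cw (k : {k // Has w φ v x k}) : Nm Cd := k.2.choose.1

/-- The chosen condition. -/
noncomputable def cs (k : {k // Has w φ v x k}) : Cd := k.2.choose.2

theorem cw_spec (k : {k // Has w φ v x k}) : cw w φ v x k ∈ KK w ∧
    Cd.rs (bd φ v x) ∅ (cs w φ v x k) = k.1.2.toCd ∧
    Forces (KK w) id φ (Fin.cons (cw w φ v x k) (Fin.cons (x.chd k.1.1) v)) (cs w φ v x k) :=
  k.2.choose_spec

theorem exists_cb : ∃ γ, ∀ k, Lev γ (cw w φ v x k) := by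
  choose f hf using fun k => exists_lev (cw w φ v x k)
  obtain ⟨γ, hγ⟩ : BddAbove (Set.range f) := Ordinal.bddAbove_of_small
  exact ⟨γ, fun k => (hf k).mono (hγ ⟨k, rfl⟩)⟩

/-- A bound for the witnesses. -/
noncomputable def cb : Ordinal.{0} := (exists_cb w φ v x).choose

open Classical in
/-- The permutations given by the small data. -/
noncomputable def aof {γ : Ordinal.{0}} (f : Shrink.{0} (Set.Iio γ) → ℕ → Equiv.Perm ℕ) :
    Ordinal.{0} → ℕ → Equiv.Perm ℕ :=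
  fun α => if h : α < γ then f (equivShrink _ ⟨α, h⟩) else fun _ => 1

theorem exists_aof (γ : Ordinal.{0}) (a : Ordinal.{0} → ℕ → Equiv.Perm ℕ) :
    ∃ f : Shrink.{0} (Set.Iio γ) → ℕ → Equiv.Perm ℕ, ∀ α < γ, a α = aof f α := by
  refine ⟨fun k => a ((equivShrink _).symm k).1, fun α hα => ?_⟩
  simp [aof, hα]

/-- Collection. -/
noncomputable def collN : Nm Cd :=
  .mk ({k // Has w φ v x k} × {h : ℕ → Bool // w = true → h = fun _ => false} ×
      (Shrink.{0} (Set.Iio (cb w φ v x)) → ℕ → Equiv.Perm ℕ))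
    (fun k => act (mv (gV k.2.1.1 (aof k.2.2))) (cw w φ v x k.1)) (fun _ => ⊤)

variable {w φ v x}

theorem el_collN {z : Nm Cd} {c : Cd} : El (collN w φ v x) z c ↔
    c = ⊤ ∧ ∃ (k : {k // Has w φ v x k}) (h : ℕ → Bool) (a : Ordinal.{0} → ℕ → Equiv.Perm ℕ),
      (w = true → h = fun _ => false) ∧ z = act (mv (gV h a)) (cw w φ v x k) := by
  rw [collN, el_mk]
  constructor
  · rintro ⟨⟨k, ⟨h, hh⟩, f⟩, rfl, rfl⟩
    exact ⟨rfl, k, h, aof f, hh, rfl⟩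
  · rintro ⟨rfl, k, h, a, hh, rfl⟩
    obtain ⟨f, hf⟩ := exists_aof (cb w φ v x) a
    exact ⟨⟨k, ⟨h, hh⟩, f⟩, (act_agree hf ((exists_cb w φ v x).choose_spec k)).symm, rfl⟩

theorem collN_KK : collN w φ v x ∈ KK w := by
  rw [mem_KK]
  constructor
  · intro z c hz
    obtain ⟨-, k, h, a, hh, rfl⟩ := el_collN.1 hz
    exact KK.act (cw_spec w φ v x k).1 _ fun _ => rfl
  · refine sym_of Set.finite_empty fun h' a' hw _ z c hz => ?_
    obtain ⟨rfl, k, h, a, hh, rfl⟩ := el_collN.1 hz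
    refine ⟨_, el_collN.2 ⟨mv_top _, k, _, _, ?_, act_gV h h' a a' _⟩, NEq.refl _⟩
    intro h1
    rw [hh h1, hw h1]
    rfl

/-- A permutation of the high levels makes the chosen condition compatible with the given one. -/
theorem exists_move {β : Ordinal.{0}} {s p : Cd} (h : p ≤ Cd.rs β ∅ s) :
    ∃ a : Ordinal.{0} → ℕ → Equiv.Perm ℕ, (∀ α < β, a α = fun _ => 1) ∧
      Cd.Compat (mv (gV (fun _ => false) a) s) p := by
  classical
  obtain ⟨M, hM⟩ := ((s.nh.union p.nh).image fun t => t.2.2).bddAbove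
  have hMs : ∀ α n i ξ b, At.h α n i ξ b ∈ s.s → i < M + 1 := fun α n i ξ b h =>
    Nat.lt_succ_of_le (hM ⟨(α, n, i), Or.inl ⟨ξ, b, h⟩, rfl⟩)
  have hMp : ∀ α n i ξ b, At.h α n i ξ b ∈ p.s → i < M + 1 := fun α n i ξ b h =>
    Nat.lt_succ_of_le (hM ⟨(α, n, i), Or.inr ⟨ξ, b, h⟩, rfl⟩)
  let a : Ordinal.{0} → ℕ → Equiv.Perm ℕ := fun α n => if α < β then 1 else sh (M + 1) ∅
  have ha1 : ∀ α < β, a α = fun _ => 1 := by
    intro α hα
    funext n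
    simp [a, hα]
  refine ⟨a, ha1, ?_, ?_⟩
  · intro n b h3 h4
    rw [mv_c] at h3
    simp only [gV, Bool.xor_false] at h3
    exact p.fc n b (h ⟨h3, Cd.kp_c n b⟩) h4
  · intro α n i ξ b h3 h4
    rw [mv_h] at h3
    simp only [gV, Bool.xor_false] at h3
    by_cases h5 : α < β
    · rw [ha1 α h5] at h3
      exact p.fh _ _ _ _ _ (h ⟨h3, Cd.kp_h.2 (Or.inl h5)⟩) h4
    · have h6 := hMs _ _ _ _ _ h3
      have h7 := hMp _ _ _ _ _ h4
      have h8 : M + 1 ≤ a α n ((a α n).symm i) := by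
        have h9 : a α n = sh (M + 1) ∅ := by
          simp only [a]
          rw [if_neg h5]
        rw [h9] at h6 ⊢
        exact sh_move h6 (fun h => h)
      rw [Equiv.apply_symm_apply] at h8
      omega

end coll

/-! ### The density argument -/

/-- To show that a formula is true it suffices to force it densely. -/
theorem holds {w : Bool} {n : ℕ} {φ : Fml (Nm Cd) n} {v : Fin n → Nm Cd} (π : Pk KK)
    (hφ : φ.Over π.N) (hv : ∀ i, v i ∈ π.N) (n0 : ℕ)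
    (hd : ∀ m, n0 ≤ m → ∃ A : Set (Nm Cd), A.Countable ∧ ∃ q ≤ π.g m, ∀ π' : Pk KK,
      π.N ⊆ π'.N → A ⊆ π'.N → π'.g 0 = q → Sat (π'.M w) π'.val φ (π'.val ∘ v)) :
    Sat (π.M w) π.val φ (π.val ∘ v) := by
  by_contra hR
  have h1 : Sat (π.M w) π.val (.neg φ) (π.val ∘ v) := hR
  obtain ⟨k, hk⟩ := (π.sat_iff w (.neg φ) hφ v hv).1 h1
  obtain ⟨A, hA, q, hq, h2⟩ := hd (max k n0) (le_max_right _ _)
  obtain ⟨π', h3, h4, -⟩ := exists_pk (K := KK) ∅ Set.countable_empty (π.N ∪ A)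
    (π.cnt.union hA) q
  have h5 := h2 π' (fun x hx => h3 (Or.inl hx)) (fun x hx => h3 (Or.inr hx)) h4
  obtain ⟨j, hj⟩ := (π'.sat_iff w φ (Fml.Over.mono (fun x hx => h3 (Or.inl hx)) hφ) v
    (fun i => h3 (Or.inl (hv i)))).1 h5
  refine hk (π'.g j) ?_ hj
  refine (π'.g_anti (Nat.zero_le j)).trans ?_
  rw [h4]
  exact hq.trans (π.g_anti (le_max_left _ _))

theorem coll_pk {w : Bool} {n : ℕ} {φ : Fml (Nm Cd) (n + 2)} {v : Fin n → Nm Cd} {x : Nm Cd}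
    (π : Pk KK) (hφ : φ.Over π.N) (hv : ∀ i, v i ∈ π.N)
    (hc : collN w φ v x ∈ π.N) {i : x.idx} (hi : x.chd i ∈ π.N)
    (h : ∃ y ∈ π.M w, Sat (π.M w) π.val φ (Fin.cons y (Fin.cons (π.val (x.chd i)) (π.val ∘ v)))) :
    ∃ y ∈ π.val (collN w φ v x), y ∈ π.M w ∧
      Sat (π.M w) π.val φ (Fin.cons y (Fin.cons (π.val (x.chd i)) (π.val ∘ v))) := by
  have hψ : (Fml.ex (.and (.mem (Sum.inl 0) (Sum.inr (collN w φ v x))) φ)).Over π.N :=
    ⟨⟨TOver.inl _, tOver_inr.2 hc⟩, hφ⟩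
  have hv' : ∀ j, (Fin.cons (x.chd i) v : Fin (n + 1) → Nm Cd) j ∈ π.N := Pk.cons_mem hi hv
  suffices h1 : Sat (π.M w) π.val (.ex (.and (.mem (Sum.inl 0) (Sum.inr (collN w φ v x))) φ))
      (π.val ∘ (Fin.cons (x.chd i) v : Fin (n + 1) → Nm Cd)) by
    obtain ⟨y, hy, h2, h3⟩ := h1
    rw [comp_cons] at h3
    exact ⟨y, h2, hy, h3⟩
  obtain ⟨_, ⟨y, ⟨hy, hyK⟩, rfl⟩, h2⟩ := h
  rw [← comp_cons, ← comp_cons] at h2
  obtain ⟨k, hk⟩ := (π.sat_iff w φ hφ _ (Pk.cons_mem hy hv')).1 h2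
  obtain ⟨r, hr⟩ := Cd.exists_R (Cd.low_rs (bd φ v x) (π.g k))
  have hH : Has w φ v x (i, r) := ⟨(y, π.g k), hyK, hr.symm, hk⟩
  obtain ⟨h3, h4, h5⟩ := cw_spec w φ v x ⟨(i, r), hH⟩
  refine holds π hψ hv' k fun m hm => ?_
  have h6 : π.g m ≤ Cd.rs (bd φ v x) ∅ (cs w φ v x ⟨(i, r), hH⟩) := by
    rw [h4]
    simp only [hr]
    exact (π.g_anti hm).trans (Cd.le_rs _ _ _)
  obtain ⟨a, ha, hcp⟩ := exists_move h6
  refine ⟨{act (mv (gV (fun _ => false) a)) (cw w φ v x ⟨(i, r), hH⟩)},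
    Set.countable_singleton _, _, Cd.cup_le_right hcp, fun π' h7 h8 h9 => ?_⟩
  have h10 : act (mv (gV (fun _ => false) a)) (cw w φ v x ⟨(i, r), hH⟩) ∈ π'.N := h8 rfl
  refine ⟨_, π'.val_mem_M h10 (KK.act h3 _ fun _ => rfl), ?_, ?_⟩
  · have h11 : El (collN w φ v x) (act (mv (gV (fun _ => false) a))
        (cw w φ v x ⟨(i, r), hH⟩)) ⊤ :=
      el_collN.2 ⟨rfl, _, _, a, fun _ => rfl, rfl⟩
    exact π'.val_mem_val (n := 0) h10 h11 le_top
  · rw [← comp_cons]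
    refine (π'.sat_iff w φ (Fml.Over.mono h7 hφ) _ (Pk.cons_mem h10 fun j => h7 (hv' j))).2
      ⟨0, ?_⟩
    rw [h9]
    refine Forces.mono ?_ (Cd.cup_le_left hcp)
    have h12 := (Forces.act_aux (aut (gV (fun _ => false) a))
      (KK.act_iff (w := w) _ fun _ => rfl).1 (KK.act_iff _ fun _ => rfl).2 φ _ _ (e := id)).2 h5
    obtain ⟨hb1, hb2, hb3, -⟩ := bd_spec φ v x
    refine Forces.congr (S := {y | Lev (bd φ v x) y}) (fun b (hb : Lev _ b) => ?_) φ hb1 ?_ h12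
    · change NEq (act (mv _) b) b
      rw [act_lev rfl ha (fun _ _ => rfl) hb]
      exact NEq.refl _
    · intro j
      refine Fin.cases ?_ (fun j => ?_) j
      · exact NEq.refl _
      · refine Fin.cases ?_ (fun j => ?_) j
        · change NEq (act (mv _) (x.chd i)) (x.chd i)
          rw [act_lev rfl ha (fun _ _ => rfl) ((lev_iff.1 hb3) _ _ ⟨i, rfl, rfl⟩).1]
          exact NEq.refl _
        · change NEq (act (mv _) (v j)) (v j)
          rw [act_lev rfl ha (fun _ _ => rfl) (hb2 j)]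
          exact NEq.refl _

theorem pow_pk {w : Bool} {x y : Nm Cd} (π : Pk KK) (hx : x ∈ π.N) (hy : y ∈ π.N)
    (hxK : x ∈ KK w) (hyK : y ∈ KK w) (hP : powN w x ∈ π.N) :
    ∃ u ∈ π.val (powN w x), (∀ z ∈ π.val x, z ∈ π.val y → z ∈ u) ∧ ∀ z ∈ u, z ∈ π.val y := by
  let ψ : Fml (Nm Cd) 0 := .ex (.and (.mem (Sum.inl 0) (Sum.inr (powN w x)))
    (.and (.neg (.ex (.and (.and (.mem (Sum.inl 0) (Sum.inr x)) (.mem (Sum.inl 0) (Sum.inr y)))
      (.neg (.mem (Sum.inl 0) (Sum.inl 1))))))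
      (.neg (.ex (.and (.mem (Sum.inl 0) (Sum.inl 1)) (.neg (.mem (Sum.inl 0) (Sum.inr y))))))))
  have hψ : ψ.Over π.N := ⟨⟨TOver.inl _, tOver_inr.2 hP⟩, ⟨⟨⟨TOver.inl _, tOver_inr.2 hx⟩,
    ⟨TOver.inl _, tOver_inr.2 hy⟩⟩, ⟨TOver.inl _, TOver.inl _⟩⟩, ⟨TOver.inl _, TOver.inl _⟩,
    ⟨TOver.inl _, tOver_inr.2 hy⟩⟩
  have key : ∀ π' : Pk KK, Sat (π'.M w) π'.val ψ (π'.val ∘ Fin.elim0) ↔
      ∃ u ∈ π'.M w, u ∈ π'.val (powN w x) ∧ (∀ z ∈ π'.M w, z ∈ π'.val x → z ∈ π'.val y → z ∈ u) ∧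
        ∀ z ∈ π'.M w, z ∈ u → z ∈ π'.val y := by
    intro π'
    simp only [ψ, Sat]
    refine exists_congr fun u => and_congr_right fun hu => and_congr_right fun hu' => ?_
    push Not
    refine and_congr ?_ ?_
    · refine forall_congr' fun z => forall_congr' fun hz => ?_
      constructor
      · intro h h1 h2
        exact h ⟨h1, h2⟩
      · rintro h ⟨h1, h2⟩
        exact h h1 h2
    · exact Iff.rfl
  have hM : ∀ (π' : Pk KK) (a z : ZFSet.{0}), a ∈ π'.M w → z ∈ a → z ∈ π'.M w := by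
    rintro π' _ z ⟨b, ⟨hb, hbK⟩, rfl⟩ hz
    obtain ⟨c, hc, d, hcd, -, rfl⟩ := π'.mem_val.1 hz
    exact π'.val_mem_M hc ((mem_KK.1 hbK).1 _ _ hcd)
  have h1 : Sat (π.M w) π.val ψ (π.val ∘ Fin.elim0) := by
    refine holds π hψ (fun i => i.elim0) 0 fun m _ => ?_
    obtain ⟨q, hq, S, hS, h2, h3⟩ := key_sub (w := w) hxK (pl_spec x).1 (pl_spec x).2 hyK (π.g m)
    refine ⟨{subn (pl x) x S}, Set.countable_singleton _, q, hq, fun π' h4 h5 h6 => ?_⟩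
    have hSN : subn (pl x) x S ∈ π'.N := h5 rfl
    rw [key]
    refine ⟨_, π'.val_mem_M hSN hS, ?_, ?_, ?_⟩
    · exact π'.val_mem_val (n := 0) hSN (el_powN.2 ⟨S, hS, rfl, rfl⟩) le_top
    · intro z _ hz1 hz2
      obtain ⟨b, hb, d, ⟨i, rfl, rfl⟩, ⟨m1, hm1⟩, rfl⟩ := π'.mem_val.1 hz1
      obtain ⟨m2, hm2⟩ := (π'.val_mem_iff hb (h4 hy)).1 hz2
      have h7 : π'.g (max m1 m2) ≤ q := by
        rw [← h6]
        exact π'.g_anti (Nat.zero_le _)
      obtain ⟨t, ht, h8⟩ := h2 _ h7 i ((π'.g_le_left _ _).trans hm1)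
        (hm2.mono (π'.g_le_right _ _))
      exact π'.val_mem_val hb ht h8
    · intro z _ hz
      obtain ⟨b, hb, d, hd, ⟨m1, hm1⟩, rfl⟩ := π'.mem_val.1 hz
      refine (π'.val_mem_iff hb (h4 hy)).2 ⟨m1, h3 _ _ hd _ ?_ hm1⟩
      rw [← h6]
      exact π'.g_anti (Nat.zero_le _)
  obtain ⟨u, hu, h2, h3, h4⟩ := (key π).1 h1
  exact ⟨u, h2, fun z hz hz' => h3 z (hM π _ z (π.val_mem_M hx hxK) hz) hz hz',
    fun z hz => h4 z (hM π u z hu hz) hz⟩

end Pool.Agent.W868.GM
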