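import Pool.Agent.W868.Defs

/-!
# Definability of the ground model without choice: the definitions

A set `V` of sets (an element of `Set ZFSet.{0}`) is viewed as the structure `(V, ∈)`.
`Pool.Agent.W868.Defs` contains the formulas of set theory with parameters (`Fml`, `Fml.Over`),
their truth in `(V, ∈)` (`Sat`), and transitive models of ZF (`IsZF`).
-/

set_option autoImplicit false

namespace Pool.Agent.W868.GM

open ZFSet (pair)

/-- In the model `V`, the set `P` with the relation `Le` is a notion of forcing: a preorder with a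
greatest element (`pair q p ∈ Le` means that `q` is stronger than `p`). -/
structure IsForcing (V : Set ZFSet.{0}) (P Le : ZFSet.{0}) : Prop where
  mem : P ∈ V
  le_mem : Le ∈ V
  refl : ∀ p ∈ P, pair p p ∈ Le
  trans : ∀ p ∈ P, ∀ q ∈ P, ∀ r ∈ P, pair r q ∈ Le → pair q p ∈ Le → pair r p ∈ Le
  top : ∃ t ∈ P, ∀ p ∈ P, pair p t ∈ Le

/-- `G` is a `V`-generic filter: a filter that meets all dense sets that are in `V`. -/
structure IsGeneric (V : Set ZFSet.{0}) (P Le G : ZFSet.{0}) : Prop where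
  sub : G ⊆ P
  nonempty : ∃ p, p ∈ G
  up : ∀ q ∈ G, ∀ p ∈ P, pair q p ∈ Le → p ∈ G
  dir : ∀ p ∈ G, ∀ q ∈ G, ∃ r ∈ G, pair r p ∈ Le ∧ pair r q ∈ Le
  meet : ∀ D ∈ V, D ⊆ P → (∀ p ∈ P, ∃ q ∈ D, pair q p ∈ Le) → ∃ q ∈ D, q ∈ G

instance small_pairs (x : ZFSet.{0}) (T : ZFSet.{0} × ZFSet.{0} → Prop) :
    Small.{0} {t : ZFSet.{0} × ZFSet.{0} // pair t.1 t.2 ∈ x ∧ T t} :=
  small_of_injective (β := {y // y ∈ x}) (f := fun t => ⟨pair t.1.1 t.1.2, t.2.1⟩)
    fun t t' h => by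
      have h1 := ZFSet.pair_inj.1 (congrArg Subtype.val h)
      exact Subtype.ext (Prod.ext h1.1 h1.2)

theorem rank_lt_of_pair_mem {y p x : ZFSet.{0}} (h : pair y p ∈ x) : y.rank < x.rank := by
  have h1 : y.rank < ({y} : ZFSet.{0}).rank := ZFSet.rank_lt_of_mem (by simp)
  have h2 : ({y} : ZFSet.{0}).rank < (pair y p).rank := ZFSet.rank_lt_of_mem (by simp [pair])
  exact h1.trans (h2.trans (ZFSet.rank_lt_of_mem h))

/-- The value of a name: `ev G x = {ev G y | there is p ∈ G with (y, p) ∈ x}`. -/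
noncomputable def ev (G x : ZFSet.{0}) : ZFSet.{0} :=
  ZFSet.range fun t : {t : ZFSet.{0} × ZFSet.{0} // pair t.1 t.2 ∈ x ∧ t.2 ∈ G} => ev G t.1.1
termination_by x.rank
decreasing_by exact rank_lt_of_pair_mem t.2.1

theorem mem_ev {G x z : ZFSet.{0}} : z ∈ ev G x ↔ ∃ y p, pair y p ∈ x ∧ p ∈ G ∧ ev G y = z := by
  rw [ev, ZFSet.mem_range]
  constructor
  · rintro ⟨⟨⟨y, p⟩, h1, h2⟩, rfl⟩
    exact ⟨y, p, h1, h2, rfl⟩
  · rintro ⟨y, p, h1, h2, rfl⟩
    exact ⟨⟨(y, p), h1, h2⟩, rfl⟩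

/-- The generic extension `V[G]`: the values of all the names in `V`. -/
noncomputable def ext (V : Set ZFSet.{0}) (G : ZFSet.{0}) : Set ZFSet.{0} := ev G '' V

/-- The set `V` is definable in the structure `(W, ∈)` by a formula with parameters from `S`. -/
def IsDef (S V W : Set ZFSet.{0}) : Prop :=
  ∃ φ : Fml ZFSet.{0} 1, φ.Over S ∧ ∀ x ∈ W, (Sat W id φ ![x] ↔ x ∈ V)

end Pool.Agent.W868.GM
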