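import Pool.Agent.W868.GM.Sp

/-!
# Packages that are closed under all rules
-/

set_option autoImplicit false
set_option linter.unusedSectionVars false

namespace Pool.Agent.W868.GM

open Pool.Agent.W868

section rules

open Classical

noncomputable def rPair : Rule Cd := fun q => match q with
  | ⟨_, _, .mem s t, v, p⟩ => (pairN (Sum.elim v id s) (Sum.elim v id t), p)
  | q => (Nm.emp, q.p)

noncomputable def rUnion : Rule Cd := fun q => match q with
  | ⟨_, _, .mem s _, v, p⟩ => (unionN (Sum.elim v id s), p)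
  | q => (Nm.emp, q.p)

noncomputable def rPow : Rule Cd := fun q => match q with
  | ⟨w, _, .mem s _, v, p⟩ => (powN w (Sum.elim v id s), p)
  | q => (Nm.emp, q.p)

noncomputable def rSep : Rule Cd := fun q => match q with
  | ⟨w, _ + 1, φ, v, p⟩ => (sepN w φ (Fin.tail v) (v 0), p)
  | q => (Nm.emp, q.p)

noncomputable def rColl : Rule Cd := fun q => match q with
  | ⟨w, _ + 1, .ex φ, v, p⟩ => (collN w φ (Fin.tail v) (v 0), p)
  | q => (Nm.emp, q.p)

noncomputable def rSig : Rule Cd := fun q => match q with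
  | ⟨_, _, .mem s _, v, p⟩ => (sg (Sum.elim v id s), p)
  | q => (Nm.emp, q.p)

noncomputable def rInv : Rule Cd := fun q => match q with
  | ⟨_, _, .mem s t, v, p⟩ =>
    if h : ∃ z, ∃ c h, El (Sum.elim v id s) z c ∧
      Sum.elim v id t = opN (sg z) (check (nat (ck (cp c)))) ∧ p ≤ mv (gV h fun _ _ => 1) c
    then (h.choose, p) else (Nm.emp, p)
  | q => (Nm.emp, q.p)

theorem exists_lvq (q : Query Cd) : ∃ β, q.φ.Over {x | Lev β x} ∧ Cd.Low β q.p := by
  obtain ⟨β, h1⟩ := exists_levF q.φ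
  obtain ⟨γ, h2⟩ := q.p.exists_low
  exact ⟨max β γ, Fml.Over.mono (fun x hx => Lev.mono hx (le_max_left _ _)) h1,
    h2.mono (le_max_right _ _)⟩

/-- A level for the query. -/
noncomputable def lvq (q : Query Cd) : Ordinal.{0} := (exists_lvq q).choose

noncomputable def rTw1 : Rule Cd := fun q => (SN (lvq q) fun _ _ => true, q.p)

noncomputable def rTw2 : Rule Cd := fun q => (SN (lvq q) fun _ b => !b, q.p)

end rules

/-- The additional rules. -/
def addRules : Set (Rule Cd) :=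
  {rPair, rUnion, rPow, rSep, rColl, rSig, rInv, rTw1, rTw2}

/-- The package is closed under all rules. -/
structure Full (π : Pk KK) : Prop extends Good π where
  sig : ∀ x ∈ π.N, sg x ∈ π.N
  inv : ∀ x ∈ π.N, ∀ y ∈ π.N, ∀ p ∈ π.C, (∃ z, ∃ c h, El x z c ∧
      y = opN (sg z) (check (W868.nat (ck (cp c)))) ∧ p ≤ mv (gV h fun _ _ => 1) c) →
    ∃ z ∈ π.N, ∃ c h, El x z c ∧
      y = opN (sg z) (check (W868.nat (ck (cp c)))) ∧ p ≤ mv (gV h fun _ _ => 1) c
  tws : ∀ (φ : Fml (Nm Cd) 1), φ.Over π.N → ∀ p ∈ π.C, ∃ β, φ.Over {x | Lev β x} ∧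
    Cd.Low β p ∧ (SN β fun _ _ => true) ∈ π.N ∧ (SN β fun _ b => !b) ∈ π.N

theorem exists_full (A : Set (Nm Cd)) (hA : A.Countable) (p₀ : Cd) :
    ∃ π : Pk KK, Full π ∧ A ⊆ π.N ∧ π.g 0 = p₀ := by
  have hR : addRules.Countable := by
    unfold addRules
    exact Set.Finite.countable (Set.toFinite _)
  obtain ⟨π, h1, h2, h3⟩ := exists_pk (K := KK) addRules hR
    (A ∪ (Set.range (fun n => check (nat n)) ∪ {check ZFSet.omega}))
    (hA.union ((Set.countable_range _).union (Set.countable_singleton _))) p₀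
  have q2 : ∀ {w : Bool} {x y : Nm Cd} {p : Cd}, x ∈ π.N → y ∈ π.N → p ∈ π.C →
      Query.In π.N π.C ⟨w, 0, .mem (Sum.inr x) (Sum.inr y), Fin.elim0, p⟩ :=
    fun hx hy hp => ⟨⟨tOver_inr.2 hx, tOver_inr.2 hy⟩, fun i => i.elim0, hp⟩
  refine ⟨π, ⟨⟨?_, ?_, ?_, ?_, ?_, ?_, ?_⟩, ?_, ?_, ?_⟩, fun x hx => h1 (Or.inl hx), h2⟩
  · intro x hx y hy
    exact (h3 rPair (by simp [addRules]) _ (q2 (w := true) hx hy (π.gC 0))).1
  · intro x hx
    exact (h3 rUnion (by simp [addRules]) _ (q2 (w := true) hx hx (π.gC 0))).1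
  · intro w x hx
    exact (h3 rPow (by simp [addRules]) _ (q2 (w := w) hx hx (π.gC 0))).1
  · intro w n φ v x hφ hv hx
    have h4 := (h3 rSep (by simp [addRules]) ⟨w, n + 1, φ, Fin.cons x v, π.g 0⟩
      ⟨hφ, Pk.cons_mem hx hv, π.gC 0⟩).1
    exact h4
  · intro w n φ v x hφ hv hx
    have h4 := (h3 rColl (by simp [addRules]) ⟨w, n + 1, .ex φ, Fin.cons x v, π.g 0⟩
      ⟨hφ, Pk.cons_mem hx hv, π.gC 0⟩).1
    exact h4
  · intro n
    exact h1 (Or.inr (Or.inl ⟨n, rfl⟩))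
  · exact h1 (Or.inr (Or.inr rfl))
  · intro x hx
    exact (h3 rSig (by simp [addRules]) _ (q2 (w := true) hx hx (π.gC 0))).1
  · intro x hx y hy p hp h
    have h4 := (h3 rInv (by simp [addRules]) _ (q2 (w := true) hx hy hp)).1
    have h' : ∃ z, ∃ c h, El (Sum.elim (Fin.elim0 : Fin 0 → Nm Cd) id (Sum.inr x)) z c ∧
      Sum.elim (Fin.elim0 : Fin 0 → Nm Cd) id (Sum.inr y) = opN (sg z) (check (nat (ck (cp c)))) ∧
        p ≤ mv (gV h fun _ _ => 1) c := h
    unfold rInv at h4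
    simp only [dif_pos h'] at h4
    exact ⟨_, h4, h'.choose_spec⟩
  · intro φ hφ p hp
    have hq : Query.In π.N π.C ⟨true, 0, .ex φ, Fin.elim0, p⟩ := ⟨hφ, fun i => i.elim0, hp⟩
    have h4 := (h3 rTw1 (by simp [addRules]) _ hq).1
    have h5 := (h3 rTw2 (by simp [addRules]) _ hq).1
    have h6 := (exists_lvq ⟨true, 0, .ex φ, Fin.elim0, p⟩).choose_spec
    exact ⟨_, h6.1, h6.2, h4, h5⟩

theorem feq_check {x y : ZFSet.{0}} {p : Cd} : Feq (check x) (check y) p ↔ x = y := by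
  constructor
  · intro h
    induction x using ZFSet.inductionOn generalizing y p with
    | _ x ih =>
      rw [feq_iff'] at h
      ext z
      constructor
      · intro hz
        obtain ⟨r, hr, u, c, hu, hc, he⟩ := h.1 _ _ (el_check.2 ⟨z, hz, rfl, rfl⟩) p le_rfl le_top
        obtain ⟨y', hy', rfl, rfl⟩ := el_check.1 hu
        rw [ih z hz he]
        exact hy'
      · intro hz
        obtain ⟨r, hr, u, c, hu, hc, he⟩ := h.2 _ _ (el_check.2 ⟨z, hz, rfl, rfl⟩) p le_rfl le_top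
        obtain ⟨y', hy', rfl, rfl⟩ := el_check.1 hu
        rw [← ih y' hy' he]
        exact hy'
  · rintro rfl
    exact Feq.refl _ _

/-! ### The value of the name of the generic filter -/

section

variable {π : Pk KK}

theorem nat_injective : Function.Injective nat := by
  have key : ∀ m n, m < n → nat m ∈ nat n := by
    intro m n h
    induction n with
    | zero => omega
    | succ n ih =>
      rw [nat, ZFSet.mem_insert_iff]
      rcases Nat.lt_succ_iff_lt_or_eq.1 h with h | h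
      · exact Or.inr (ih h)
      · exact Or.inl (by rw [h])
  intro m n h
  rcases lt_trichotomy m n with h1 | h1 | h1
  · exact absurd (h ▸ key m n h1) (ZFSet.mem_irrefl _)
  · exact h1
  · exact absurd (h ▸ key n m h1) (ZFSet.mem_irrefl _)

theorem mem_gc (hg : Good π) {z : ZFSet.{0}} : z ∈ π.val gcN ↔
    ∃ m, z = nat m ∧ ∃ k, dk m ⊆ cp (π.g k) := by
  rw [π.mem_val]
  constructor
  · rintro ⟨y, hy, c, ⟨m, rfl, rfl⟩, ⟨k, hk⟩, rfl⟩
    exact ⟨m, val_nat hg m, k, (le_cdc (hF := fn_dk m)).1 hk⟩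
  · rintro ⟨m, rfl, k, hk⟩
    exact ⟨_, hg.nat m, _, ⟨m, rfl, rfl⟩, ⟨k, (le_cdc (hF := fn_dk m)).2 hk⟩, val_nat hg m⟩

theorem nat_mem_gc (hg : Good π) {m : ℕ} : nat m ∈ π.val gcN ↔ ∃ k, dk m ⊆ cp (π.g k) := by
  rw [mem_gc hg]
  constructor
  · rintro ⟨n, hn, h⟩
    rw [nat_injective hn]
    exact h
  · intro h
    exact ⟨m, rfl, h⟩

theorem mem_rel (hg : Good π) {R : ℕ → ℕ → Prop} (hR : relN R ∈ π.N) {z : ZFSet.{0}} :
    z ∈ π.val (relN R) ↔ ∃ m k, R m k ∧ z = ZFSet.pair (nat m) (nat k) := by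
  rw [π.mem_val]
  constructor
  · rintro ⟨y, hy, c, ⟨t, rfl, rfl⟩, -, rfl⟩
    refine ⟨_, _, t.2, ?_⟩
    have h1 := val_opN hg (hg.nat t.1.1) (hg.nat t.1.2)
    rw [val_nat hg, val_nat hg] at h1
    exact h1
  · rintro ⟨m, k, h, rfl⟩
    refine ⟨_, opN_N hg (hg.nat m) (hg.nat k), ⊤, ⟨⟨(m, k), h⟩, rfl, rfl⟩, ⟨0, le_top⟩, ?_⟩
    rw [val_opN hg (hg.nat m) (hg.nat k), val_nat hg, val_nat hg]

end

end Pool.Agent.W868.GM
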