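import Pool.Agent.W868.GM.Nam

/-!
# Countable hulls, generic sequences, and the truth lemma
-/

set_option autoImplicit false
set_option linter.unusedSectionVars false

namespace Pool.Agent.W868.GM

open Pool.Agent.W868 Nm

/-- The possible inputs of a rule. -/
structure Query (P : Type 1) where
  w : Bool
  n : ℕ
  φ : Fml (Nm P) n
  v : Fin n → Nm P
  p : P

/-- A rule. -/
abbrev Rule (P : Type 1) := Query P → Nm P × P

variable {P : Type 1}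

/-- The input is in the hull. -/
def Query.In (N : Set (Nm P)) (C : Set P) (q : Query P) : Prop :=
  q.φ.Over N ∧ (∀ i, q.v i ∈ N) ∧ q.p ∈ C

theorem countable_queries {N : Set (Nm P)} {C : Set P} (hN : N.Countable) (hC : C.Countable) :
    {q : Query P | q.In N C}.Countable := by
  have h : {q : Query P | q.In N C} ⊆ ⋃ w : Bool, ⋃ n : ℕ,
      (fun t : Fml (Nm P) n × (Fin n → Nm P) × P => (⟨w, n, t.1, t.2.1, t.2.2⟩ : Query P)) ''
        ({φ | φ.Over N} ×ˢ ({v | ∀ i, v i ∈ N} ×ˢ C)) := by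
    rintro q ⟨h1, h2, h3⟩
    exact Set.mem_iUnion.2 ⟨q.w, Set.mem_iUnion.2 ⟨q.n, (q.φ, q.v, q.p), ⟨h1, h2, h3⟩, rfl⟩⟩
  refine Set.Countable.mono h ?_
  refine Set.countable_iUnion fun w => Set.countable_iUnion fun n => Set.Countable.image ?_ _
  exact (countable_fml hN n).prod ((Set.countable_pi fun _ => hN).prod hC)

/-- One step of the closure. -/
def hullStep (R : Set (Rule P)) (s : Set (Nm P) × Set P) : Set (Nm P) × Set P :=
  (s.1 ∪ ⋃ ρ ∈ R, (fun q => (ρ q).1) '' {q | q.In s.1 s.2},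
    s.2 ∪ ⋃ ρ ∈ R, (fun q => (ρ q).2) '' {q | q.In s.1 s.2})

theorem exists_hull (R : Set (Rule P)) (hR : R.Countable) (A : Set (Nm P)) (hA : A.Countable)
    (B : Set P) (hB : B.Countable) : ∃ (N : Set (Nm P)) (C : Set P), A ⊆ N ∧ B ⊆ C ∧
      N.Countable ∧ C.Countable ∧
      ∀ ρ ∈ R, ∀ q : Query P, q.In N C → (ρ q).1 ∈ N ∧ (ρ q).2 ∈ C := by
  let st : ℕ → Set (Nm P) × Set P := fun k => (hullStep R)^[k] (A, B)
  have hs : ∀ k, st (k + 1) = hullStep R (st k) := fun k => Function.iterate_succ_apply' _ _ _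
  have hc : ∀ k, (st k).1.Countable ∧ (st k).2.Countable := by
    intro k
    induction k with
    | zero => exact ⟨hA, hB⟩
    | succ k ih =>
      rw [hs]
      have h1 := countable_queries ih.1 ih.2
      exact ⟨ih.1.union (hR.biUnion fun ρ _ => h1.image _),
        ih.2.union (hR.biUnion fun ρ _ => h1.image _)⟩
  have hm1 : Monotone fun k => (st k).1 := monotone_nat_of_le_succ fun k => by
    rw [hs]
    exact Set.subset_union_left
  have hm2 : Monotone fun k => (st k).2 := monotone_nat_of_le_succ fun k => by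
    rw [hs]
    exact Set.subset_union_left
  refine ⟨⋃ k, (st k).1, ⋃ k, (st k).2, Set.subset_iUnion (fun k => (st k).1) 0,
    Set.subset_iUnion (fun k => (st k).2) 0, Set.countable_iUnion fun k => (hc k).1,
    Set.countable_iUnion fun k => (hc k).2, ?_⟩
  rintro ρ hρ q ⟨h1, h2, h3⟩
  obtain ⟨k1, hk1⟩ := over_iUnion hm1 q.φ h1
  choose f hf using fun i => Set.mem_iUnion.1 (h2 i)
  obtain ⟨k3, hk3⟩ := Set.mem_iUnion.1 h3
  obtain ⟨k2, hk2⟩ : ∃ k, ∀ i, f i ≤ k := by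
    refine ⟨Finset.univ.sup f, fun i => Finset.le_sup (Finset.mem_univ i)⟩
  have hq : q.In (st (max k1 (max k2 k3))).1 (st (max k1 (max k2 k3))).2 := by
    refine ⟨hk1.mono (hm1 (le_max_left _ _)), fun i => ?_, ?_⟩
    · exact hm1 ((hk2 i).trans ((le_max_left _ _).trans (le_max_right _ _))) (hf i)
    · exact hm2 ((le_max_right _ _).trans (le_max_right _ _)) hk3
  constructor
  · refine Set.mem_iUnion.2 ⟨max k1 (max k2 k3) + 1, ?_⟩
    rw [hs]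
    exact Or.inr (Set.mem_biUnion hρ ⟨q, hq, rfl⟩)
  · refine Set.mem_iUnion.2 ⟨max k1 (max k2 k3) + 1, ?_⟩
    rw [hs]
    exact Or.inr (Set.mem_biUnion hρ ⟨q, hq, rfl⟩)

/-- A generic descending sequence for countably many dense sets. -/
theorem exists_generic [Preorder P] {ι : Type*} (I : Set ι) (hI : I.Countable)
    (E : ι → P → Prop) (C : Set P) (hE : ∀ i ∈ I, ∀ p ∈ C, ∃ q ∈ C, q ≤ p ∧ E i q) (p₀ : P)
    (h₀ : p₀ ∈ C) : ∃ g : ℕ → P, g 0 = p₀ ∧ (∀ n, g n ∈ C) ∧ (∀ n, g (n + 1) ≤ g n) ∧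
      ∀ i ∈ I, ∃ n, E i (g n) := by
  classical
  rcases I.eq_empty_or_nonempty with hI0 | hI0
  · subst hI0
    exact ⟨fun _ => p₀, rfl, fun _ => h₀, fun _ => le_rfl, fun i hi => hi.elim⟩
  obtain ⟨f, hf⟩ := hI.exists_eq_range hI0
  have hE' : ∀ (n : ℕ) (p : C), ∃ q : C, q.1 ≤ p.1 ∧ E (f n) q.1 := by
    intro n p
    obtain ⟨q, hq, h1, h2⟩ := hE (f n) (hf ▸ ⟨n, rfl⟩) p.1 p.2
    exact ⟨⟨q, hq⟩, h1, h2⟩
  choose F hF using hE'
  let g : ℕ → C := fun n => Nat.rec ⟨p₀, h₀⟩ (fun k p => F k p) n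
  refine ⟨fun n => (g n).1, rfl, fun n => (g n).2, fun n => (hF n (g n)).1, ?_⟩
  intro i hi
  rw [hf] at hi
  obtain ⟨n, rfl⟩ := hi
  exact ⟨n + 1, (hF n (g n)).2⟩

variable [Preorder P] (K : Bool → Set (Nm P))

section rules

open Classical

noncomputable def rMem : Rule P := fun q => match q with
  | ⟨_, _, .mem s t, v, p⟩ =>
    if h : ∃ r : P × Nm P, r.1 ≤ p ∧ ∃ c, El (Sum.elim v id t) r.2 c ∧ r.1 ≤ c ∧
      Feq (Sum.elim v id s) r.2 r.1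
    then (h.choose.2, h.choose.1) else (emp, p)
  | q => (emp, q.p)

noncomputable def rEq : Rule P := fun q => match q with
  | ⟨_, _, .eq s t, v, p⟩ =>
    if h : ∃ r : P × Nm P, r.1 ≤ p ∧ (Wit (Sum.elim v id s) (Sum.elim v id t) r.2 r.1 ∨
      Wit (Sum.elim v id t) (Sum.elim v id s) r.2 r.1)
    then (h.choose.2, h.choose.1) else (emp, p)
  | q => (emp, q.p)

noncomputable def rEx : Rule P := fun q => match q with
  | ⟨w, _, .ex φ, v, p⟩ =>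
    if h : ∃ r : P × Nm P, r.1 ≤ p ∧ r.2 ∈ K w ∧ Forces (K w) id φ (Fin.cons r.2 v) r.1
    then (h.choose.2, h.choose.1) else (emp, p)
  | q => (emp, q.p)

noncomputable def rAll : Rule P := fun q => match q with
  | ⟨w, _, .ex φ, v, p⟩ =>
    if h : ∃ r : P × Nm P, r.1 ≤ p ∧ r.2 ∈ K false ∧
      ∀ s ≤ r.1, ¬ Forces (K w) id φ (Fin.cons r.2 v) s
    then (h.choose.2, h.choose.1) else (emp, p)
  | q => (emp, q.p)

noncomputable def rDec : Rule P := fun q =>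
  if h : ∃ r, r ≤ q.p ∧ Forces (K q.w) id q.φ q.v r then (emp, h.choose) else (emp, q.p)

end rules

/-- The basic rules. -/
def baseRules : Set (Rule P) := {rMem, rEq, rEx K, rDec K, rAll K}

/-- The genericity condition for a formula. -/
def Gen (w : Bool) (N : Set (Nm P)) : {n : ℕ} → Fml (Nm P) n → (Fin n → Nm P) → P → Prop
  | _, .mem s t, v, r => Fmem (Sum.elim v id s) (Sum.elim v id t) r →
      ∃ z ∈ N, ∃ c, El (Sum.elim v id t) z c ∧ r ≤ c ∧ Feq (Sum.elim v id s) z r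
  | _, .eq s t, v, r => Feq (Sum.elim v id s) (Sum.elim v id t) r ∨
      ∃ z ∈ N, Wit (Sum.elim v id s) (Sum.elim v id t) z r ∨
        Wit (Sum.elim v id t) (Sum.elim v id s) z r
  | _, .ex φ, v, r => (Forces (K w) id (.ex φ) v r →
      ∃ x ∈ N, x ∈ K w ∧ Forces (K w) id φ (Fin.cons x v) r) ∧
      ((∀ y ∈ K false, Forces (K w) id φ (Fin.cons y v) r) ∨
        ∃ y ∈ N, y ∈ K false ∧ ∀ s ≤ r, ¬ Forces (K w) id φ (Fin.cons y v) s)
  | _, _, _, _ => True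

/-- A generic package. -/
structure Pk where
  N : Set (Nm P)
  C : Set P
  g : ℕ → P
  cnt : N.Countable
  gC : ∀ n, g n ∈ C
  anti : ∀ n, g (n + 1) ≤ g n
  gen : ∀ q : Query P, (q.φ.Over N ∧ ∀ i, q.v i ∈ N) → ∃ k,
    (Forces (K q.w) id q.φ q.v (g k) ∨ ∀ r ≤ g k, ¬ Forces (K q.w) id q.φ q.v r) ∧
      Gen K q.w N q.φ q.v (g k)

section closure

variable {K} {N : Set (Nm P)} {C : Set P}
variable (hcl : ∀ ρ ∈ (baseRules K : Set (Rule P)), ∀ q : Query P, q.In N C →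
    (ρ q).1 ∈ N ∧ (ρ q).2 ∈ C)

include hcl

theorem cl_mem {w : Bool} {n : ℕ} {s t : Fin n ⊕ Nm P} {v : Fin n → Nm P} {p : P}
    (hq : Query.In N C ⟨w, n, .mem s t, v, p⟩) (h : Fmem (Sum.elim v id s) (Sum.elim v id t) p) :
    ∃ r ∈ C, r ≤ p ∧ ∃ z ∈ N, ∃ c, El (Sum.elim v id t) z c ∧ r ≤ c ∧
      Feq (Sum.elim v id s) z r := by
  have h1 : ∃ r : P × Nm P, r.1 ≤ p ∧ ∃ c, El (Sum.elim v id t) r.2 c ∧ r.1 ≤ c ∧
      Feq (Sum.elim v id s) r.2 r.1 := by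
    obtain ⟨r, hr, z, c, hz, hc, hf⟩ := h p le_rfl
    exact ⟨(r, z), hr, c, hz, hc, hf⟩
  have h2 := hcl rMem (by simp [baseRules]) _ hq
  unfold rMem at h2
  simp only [dif_pos h1] at h2
  obtain ⟨h3, h4⟩ := h2
  have h5 := h1.choose_spec
  exact ⟨_, h4, h5.1, _, h3, h5.2⟩

theorem cl_eq {w : Bool} {n : ℕ} {s t : Fin n ⊕ Nm P} {v : Fin n → Nm P} {p : P}
    (hq : Query.In N C ⟨w, n, .eq s t, v, p⟩)
    (h : ¬ Feq (Sum.elim v id s) (Sum.elim v id t) p) :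
    ∃ r ∈ C, r ≤ p ∧ ∃ z ∈ N, Wit (Sum.elim v id s) (Sum.elim v id t) z r ∨
      Wit (Sum.elim v id t) (Sum.elim v id s) z r := by
  have h1 : ∃ r : P × Nm P, r.1 ≤ p ∧
      (Wit (Sum.elim v id s) (Sum.elim v id t) r.2 r.1 ∨
        Wit (Sum.elim v id t) (Sum.elim v id s) r.2 r.1) := by
    obtain ⟨r, hr, z, hz⟩ := exists_wit h
    exact ⟨(r, z), hr, hz⟩
  have h2 := hcl rEq (by simp [baseRules]) _ hq
  unfold rEq at h2
  simp only [dif_pos h1] at h2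
  obtain ⟨h3, h4⟩ := h2
  have h5 := h1.choose_spec
  exact ⟨_, h4, h5.1, _, h3, h5.2⟩

theorem cl_ex {w : Bool} {n : ℕ} {φ : Fml (Nm P) (n + 1)} {v : Fin n → Nm P} {p : P}
    (hq : Query.In N C ⟨w, n, .ex φ, v, p⟩) (h : Forces (K w) id (.ex φ) v p) :
    ∃ r ∈ C, r ≤ p ∧ ∃ z ∈ N, z ∈ K w ∧ Forces (K w) id φ (Fin.cons z v) r := by
  have h1 : ∃ r : P × Nm P, r.1 ≤ p ∧ r.2 ∈ K w ∧
      Forces (K w) id φ (Fin.cons r.2 v) r.1 := by
    obtain ⟨r, hr, z, hz⟩ := h p le_rfl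
    exact ⟨(r, z), hr, hz⟩
  have h2 := hcl (rEx K) (by simp [baseRules]) _ hq
  unfold rEx at h2
  simp only [dif_pos h1] at h2
  obtain ⟨h3, h4⟩ := h2
  have h5 := h1.choose_spec
  exact ⟨_, h4, h5.1, _, h3, h5.2⟩

theorem cl_all {w : Bool} {n : ℕ} {φ : Fml (Nm P) (n + 1)} {v : Fin n → Nm P} {p : P}
    (hq : Query.In N C ⟨w, n, .ex φ, v, p⟩)
    (h : ¬ ∀ y ∈ K false, Forces (K w) id φ (Fin.cons y v) p) :
    ∃ r ∈ C, r ≤ p ∧ ∃ y ∈ N, y ∈ K false ∧ ∀ s ≤ r, ¬ Forces (K w) id φ (Fin.cons y v) s := by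
  have h1 : ∃ r : P × Nm P, r.1 ≤ p ∧ r.2 ∈ K false ∧
      ∀ s ≤ r.1, ¬ Forces (K w) id φ (Fin.cons r.2 v) s := by
    by_contra hc
    refine h fun y hy => Forces.dense fun q hq => ?_
    by_contra hc2
    exact hc ⟨(q, y), hq, hy, fun s hs h3 => hc2 ⟨s, hs, h3⟩⟩
  have h2 := hcl (rAll K) (by simp [baseRules]) _ hq
  unfold rAll at h2
  simp only [dif_pos h1] at h2
  obtain ⟨h3, h4⟩ := h2
  have h5 := h1.choose_spec
  exact ⟨_, h4, h5.1, _, h3, h5.2⟩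

theorem cl_dec {w : Bool} {n : ℕ} {φ : Fml (Nm P) n} {v : Fin n → Nm P} {p : P}
    (hq : Query.In N C ⟨w, n, φ, v, p⟩) (h : ∃ r ≤ p, Forces (K w) id φ v r) :
    ∃ r ∈ C, r ≤ p ∧ Forces (K w) id φ v r := by
  have h1 : ∃ r, r ≤ p ∧ Forces (K w) id φ v r := h
  have h2 := hcl (rDec K) (by simp [baseRules]) _ hq
  unfold rDec at h2
  simp only [dif_pos h1] at h2
  have h5 := h1.choose_spec
  exact ⟨_, h2.2, h5.1, h5.2⟩

theorem exists_gen_below (q : Query P) (hq : q.In N C) : ∃ r ∈ C, r ≤ q.p ∧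
    (Forces (K q.w) id q.φ q.v r ∨ ∀ s ≤ r, ¬ Forces (K q.w) id q.φ q.v s) ∧
      Gen K q.w N q.φ q.v r := by
  obtain ⟨w, n, φ, v, p⟩ := q
  have hd : ∃ r ∈ C, r ≤ p ∧ (Forces (K w) id φ v r ∨ ∀ s ≤ r, ¬ Forces (K w) id φ v s) := by
    by_cases h : ∃ r ≤ p, Forces (K w) id φ v r
    · obtain ⟨r, hr, hrp, hf⟩ := cl_dec hcl hq h
      exact ⟨r, hr, hrp, Or.inl hf⟩
    · push Not at h
      exact ⟨p, hq.2.2, le_rfl, Or.inr h⟩
  obtain ⟨r, hr, hrp, hf⟩ := hd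
  have hq' : Query.In N C ⟨w, n, φ, v, r⟩ := ⟨hq.1, hq.2.1, hr⟩
  have hmono : ∀ r' ≤ r, (Forces (K w) id φ v r' ∨ ∀ s ≤ r', ¬ Forces (K w) id φ v s) :=
    fun r' hr' => hf.imp (fun h => h.mono hr') fun h s hs => h s (hs.trans hr')
  cases φ with
  | mem s t =>
    rcases hf with hf | hf
    · obtain ⟨r', hr', h1, h2⟩ := cl_mem hcl hq' hf
      exact ⟨r', hr', h1.trans hrp, hmono r' h1, fun _ => h2⟩
    · exact ⟨r, hr, hrp, hmono r le_rfl, fun h1 => absurd h1 (hf r le_rfl)⟩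
  | eq s t =>
    rcases hf with hf | hf
    · exact ⟨r, hr, hrp, Or.inl hf, Or.inl hf⟩
    · obtain ⟨r', hr', h1, h2⟩ := cl_eq hcl hq' (hf r le_rfl)
      exact ⟨r', hr', h1.trans hrp, hmono r' h1, Or.inr h2⟩
  | neg φ => exact ⟨r, hr, hrp, hf, trivial⟩
  | and φ ψ => exact ⟨r, hr, hrp, hf, trivial⟩
  | ex φ =>
    have h3 : ∃ r' ∈ C, r' ≤ r ∧ (Forces (K w) id (.ex φ) v r' →
        ∃ x ∈ N, x ∈ K w ∧ Forces (K w) id φ (Fin.cons x v) r') := by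
      rcases hf with hf | hf
      · obtain ⟨r', hr', h1, h2⟩ := cl_ex hcl hq' hf
        exact ⟨r', hr', h1, fun _ => h2⟩
      · exact ⟨r, hr, le_rfl, fun h1 => absurd h1 (hf r le_rfl)⟩
    obtain ⟨r', hr', h1, h2⟩ := h3
    by_cases h4 : ∀ y ∈ K false, Forces (K w) id φ (Fin.cons y v) r'
    · exact ⟨r', hr', h1.trans hrp, hmono r' h1, h2, Or.inl h4⟩
    · obtain ⟨r'', hr'', h5, h6⟩ := cl_all hcl (w := w) (φ := φ) (v := v) (p := r')
        ⟨hq.1, hq.2.1, hr'⟩ h4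
      refine ⟨r'', hr'', h5.trans (h1.trans hrp), hmono r'' (h5.trans h1), fun h7 => ?_,
        Or.inr h6⟩
      rcases hf with hf | hf
      · obtain ⟨x, hx, hx', h8⟩ := h2 (hf.mono h1)
        exact ⟨x, hx, hx', h8.mono h5⟩
      · exact absurd h7 (hf r'' (h5.trans h1))

end closure

variable {K}

/-- Existence of generic packages. -/
theorem exists_pk (R : Set (Rule P)) (hR : R.Countable) (A : Set (Nm P)) (hA : A.Countable)
    (p₀ : P) : ∃ π : Pk K, A ⊆ π.N ∧ π.g 0 = p₀ ∧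
      ∀ ρ ∈ R, ∀ q : Query P, q.In π.N π.C → (ρ q).1 ∈ π.N ∧ (ρ q).2 ∈ π.C := by
  have hb : (baseRules K : Set (Rule P)).Countable := by
    unfold baseRules
    exact Set.Finite.countable (Set.toFinite _)
  obtain ⟨N, C, hAN, hBC, hN, hC, hcl⟩ := exists_hull (R ∪ baseRules K) (hR.union hb)
    A hA {p₀} (Set.countable_singleton _)
  have hcl' : ∀ ρ ∈ (baseRules K : Set (Rule P)), ∀ q : Query P, q.In N C →
      (ρ q).1 ∈ N ∧ (ρ q).2 ∈ C := fun ρ hρ => hcl ρ (Or.inr hρ)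
  obtain ⟨g, h0, h1, h2, h3⟩ := exists_generic {q : Query P | q.In N C}
    (countable_queries hN hC)
    (fun q r => (Forces (K q.w) id q.φ q.v r ∨ ∀ s ≤ r, ¬ Forces (K q.w) id q.φ q.v s) ∧
      Gen K q.w N q.φ q.v r) C
    (fun q hq p hp => exists_gen_below hcl' ⟨q.w, q.n, q.φ, q.v, p⟩ ⟨hq.1, hq.2.1, hp⟩) p₀
    (hBC rfl)
  refine ⟨⟨N, C, g, hN, h1, h2, ?_⟩, hAN, h0, fun ρ hρ => hcl ρ (Or.inl hρ)⟩
  rintro q ⟨hq1, hq2⟩
  obtain ⟨n, hn⟩ := h3 ⟨q.w, q.n, q.φ, q.v, p₀⟩ ⟨hq1, hq2, hBC rfl⟩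
  exact ⟨n, hn⟩

namespace Pk

/-- The value of a name. -/
noncomputable def val (π : Pk K) : Nm P → ZFSet.{0}
  | .mk ι x c => ZFSet.range fun i : {i : ι // x i ∈ π.N ∧ ∃ n, π.g n ≤ c i} => π.val (x i.1)

/-- The model of the values of the names in `K w`. -/
def M (π : Pk K) (w : Bool) : Set ZFSet.{0} := π.val '' (π.N ∩ K w)

variable (π : Pk K)

theorem mem_val {x : Nm P} {z : ZFSet.{0}} : z ∈ π.val x ↔
    ∃ y ∈ π.N, ∃ c, El x y c ∧ (∃ n, π.g n ≤ c) ∧ π.val y = z := by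
  cases x with
  | mk ι x c =>
    rw [val, ZFSet.mem_range]
    constructor
    · rintro ⟨⟨i, hi, hn⟩, rfl⟩
      exact ⟨x i, hi, c i, ⟨i, rfl, rfl⟩, hn, rfl⟩
    · rintro ⟨_, hy, _, ⟨i, rfl, rfl⟩, hn, rfl⟩
      exact ⟨⟨i, hy, hn⟩, rfl⟩

theorem val_mem_val {x y : Nm P} {c : P} {n : ℕ} (hy : y ∈ π.N) (h : El x y c)
    (hn : π.g n ≤ c) : π.val y ∈ π.val x :=
  (mem_val (π := π)).2 ⟨y, hy, c, h, ⟨n, hn⟩, rfl⟩

theorem g_anti : Antitone π.g := antitone_nat_of_succ_le π.anti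

theorem g_le_left (m n : ℕ) : π.g (max m n) ≤ π.g m := π.g_anti (le_max_left _ _)

theorem g_le_right (m n : ℕ) : π.g (max m n) ≤ π.g n := π.g_anti (le_max_right _ _)

theorem val_mem_M {w : Bool} {x : Nm P} (hx : x ∈ π.N) (hx' : x ∈ K w) : π.val x ∈ π.M w :=
  ⟨x, ⟨hx, hx'⟩, rfl⟩

theorem gen_mem {x y : Nm P} (hx : x ∈ π.N) (hy : y ∈ π.N) {n : ℕ}
    (h : Fmem x y (π.g n)) :
    ∃ z ∈ π.N, ∃ c k, El y z c ∧ π.g k ≤ c ∧ Feq x z (π.g k) := by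
  obtain ⟨k, h1, h2⟩ := π.gen ⟨true, 0, .mem (Sum.inr x) (Sum.inr y), Fin.elim0, π.g 0⟩
    ⟨⟨tOver_inr.2 hx, tOver_inr.2 hy⟩, fun i => i.elim0⟩
  have h3 : Fmem x y (π.g k) := by
    rcases h1 with h1 | h1
    · exact h1
    · exact absurd (h.mono (π.g_le_right k n)) (h1 _ (π.g_le_left k n))
  obtain ⟨z, hz, c, hc⟩ := h2 h3
  exact ⟨z, hz, c, k, hc⟩

theorem gen_eq {x y : Nm P} (hx : x ∈ π.N) (hy : y ∈ π.N) :
    ∃ k, Feq x y (π.g k) ∨ ∃ z ∈ π.N, Wit x y z (π.g k) ∨ Wit y x z (π.g k) := by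
  obtain ⟨k, -, h2⟩ := π.gen ⟨true, 0, .eq (Sum.inr x) (Sum.inr y), Fin.elim0, π.g 0⟩
    ⟨⟨tOver_inr.2 hx, tOver_inr.2 hy⟩, fun i => i.elim0⟩
  exact ⟨k, h2⟩

theorem val_eq_iff {x y : Nm P} (hx : x ∈ π.N) (hy : y ∈ π.N) :
    π.val x = π.val y ↔ ∃ n, Feq x y (π.g n) := by
  induction x using el_ind generalizing y with
  | h x ih =>
    constructor
    · intro h
      obtain ⟨k, h1 | ⟨z, hz, h1 | h1⟩⟩ := π.gen_eq hx hy
      · exact ⟨k, h1⟩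
      · exfalso
        obtain ⟨⟨c, hc, hkc⟩, hn⟩ := h1
        have h2 : π.val z ∈ π.val x := π.val_mem_val hz hc hkc
        rw [h] at h2
        obtain ⟨w, hw, d, hd, ⟨m, hm⟩, he⟩ := π.mem_val.1 h2
        obtain ⟨n, hn'⟩ := (ih z c hc hz hw).1 he.symm
        exact hn (π.g (max k (max m n))) (π.g_le_left _ _) w d hd
          ((π.g_le_right _ _).trans ((π.g_le_left _ _).trans hm))
          (hn'.mono ((π.g_le_right _ _).trans (π.g_le_right _ _)))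
      · exfalso
        obtain ⟨⟨c, hc, hkc⟩, hn⟩ := h1
        have h2 : π.val z ∈ π.val y := π.val_mem_val hz hc hkc
        rw [← h] at h2
        obtain ⟨w, hw, d, hd, ⟨m, hm⟩, he⟩ := π.mem_val.1 h2
        obtain ⟨n, hn'⟩ := (ih w d hd hw hz).1 he
        exact hn (π.g (max k (max m n))) (π.g_le_left _ _) w d hd
          ((π.g_le_right _ _).trans ((π.g_le_left _ _).trans hm))
          (hn'.mono ((π.g_le_right _ _).trans (π.g_le_right _ _))).symm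
    · rintro ⟨n, hn⟩
      rw [feq_iff'] at hn
      ext z
      constructor
      · intro hz
        obtain ⟨a, ha, c, hc, ⟨m, hm⟩, rfl⟩ := π.mem_val.1 hz
        have h1 : Fmem a y (π.g (max n m)) := by
          intro q hq
          exact hn.1 a c hc q (hq.trans (π.g_le_left _ _)) (hq.trans ((π.g_le_right _ _).trans hm))
        obtain ⟨b, hb, d, k, hd, hk, he⟩ := π.gen_mem ha hy h1
        rw [(ih a c hc ha hb).2 ⟨k, he⟩]
        exact π.val_mem_val hb hd hk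
      · intro hz
        obtain ⟨a, ha, c, hc, ⟨m, hm⟩, rfl⟩ := π.mem_val.1 hz
        have h1 : Fmem a x (π.g (max n m)) := by
          intro q hq
          obtain ⟨s, hs, z, c, h2, h3, h4⟩ :=
            hn.2 a c hc q (hq.trans (π.g_le_left _ _)) (hq.trans ((π.g_le_right _ _).trans hm))
          exact ⟨s, hs, z, c, h2, h3, h4.symm⟩
        obtain ⟨b, hb, d, k, hd, hk, he⟩ := π.gen_mem ha hx h1
        rw [← (ih b d hd hb ha).2 ⟨k, he.symm⟩]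
        exact π.val_mem_val hb hd hk

theorem val_mem_iff {x y : Nm P} (hx : x ∈ π.N) (hy : y ∈ π.N) :
    π.val x ∈ π.val y ↔ ∃ n, Fmem x y (π.g n) := by
  constructor
  · intro h
    obtain ⟨z, hz, c, hc, ⟨m, hm⟩, he⟩ := π.mem_val.1 h
    obtain ⟨n, hn⟩ := (π.val_eq_iff hx hz).1 he.symm
    refine ⟨max m n, fun q hq => ⟨q, le_rfl, z, c, hc, ?_, ?_⟩⟩
    · exact hq.trans ((π.g_le_left _ _).trans hm)
    · exact hn.mono (hq.trans (π.g_le_right _ _))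
  · rintro ⟨n, hn⟩
    obtain ⟨z, hz, c, k, hc, hk, he⟩ := π.gen_mem hx hy hn
    rw [(π.val_eq_iff hx hz).2 ⟨k, he⟩]
    exact π.val_mem_val hz hc hk

theorem tv_mem {n : ℕ} {v : Fin n → Nm P} (hv : ∀ i, v i ∈ π.N) {s : Fin n ⊕ Nm P}
    (hs : TOver π.N s) : Sum.elim v id s ∈ π.N := by
  cases s with
  | inl i => exact hv i
  | inr a => exact hs a rfl

theorem elim_val {n : ℕ} (v : Fin n → Nm P) (s : Fin n ⊕ Nm P) :
    Sum.elim (π.val ∘ v) π.val s = π.val (Sum.elim v id s) := by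
  cases s <;> rfl

theorem cons_mem {α : Type*} {S : Set α} {n : ℕ} {v : Fin n → α} {x : α} (hx : x ∈ S)
    (hv : ∀ i, v i ∈ S) : ∀ i, (Fin.cons x v : Fin (n + 1) → α) i ∈ S := by
  intro i
  refine Fin.cases ?_ (fun i => ?_) i
  · exact hx
  · exact hv i

/-- The truth lemma. -/
theorem sat_iff (w : Bool) : {n : ℕ} → (φ : Fml (Nm P) n) → φ.Over π.N → (v : Fin n → Nm P) →
    (∀ i, v i ∈ π.N) → (Sat (π.M w) π.val φ (π.val ∘ v) ↔ ∃ k, Forces (K w) id φ v (π.g k))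
  | _, .mem s t, hφ, v, hv => by
    simp only [Sat, elim_val, Forces]
    exact π.val_mem_iff (π.tv_mem hv hφ.1) (π.tv_mem hv hφ.2)
  | _, .eq s t, hφ, v, hv => by
    simp only [Sat, elim_val, Forces]
    exact π.val_eq_iff (π.tv_mem hv hφ.1) (π.tv_mem hv hφ.2)
  | n, .neg φ, hφ, v, hv => by
    simp only [Sat, Forces]
    rw [sat_iff w φ hφ v hv]
    constructor
    · intro h
      obtain ⟨k, h1 | h1, -⟩ := π.gen ⟨w, n, φ, v, π.g 0⟩ ⟨hφ, hv⟩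
      · exact absurd ⟨k, h1⟩ h
      · exact ⟨k, h1⟩
    · rintro ⟨k, hk⟩ ⟨m, hm⟩
      exact hk _ (π.g_le_left k m) (hm.mono (π.g_le_right k m))
  | _, .and φ ψ, hφ, v, hv => by
    simp only [Sat, Forces]
    rw [sat_iff w φ hφ.1 v hv, sat_iff w ψ hφ.2 v hv]
    constructor
    · rintro ⟨⟨k, hk⟩, ⟨m, hm⟩⟩
      exact ⟨max k m, hk.mono (π.g_le_left k m), hm.mono (π.g_le_right k m)⟩
    · rintro ⟨k, h1, h2⟩
      exact ⟨⟨k, h1⟩, ⟨k, h2⟩⟩
  | n, .ex φ, hφ, v, hv => by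
    have ih := fun x (hx : x ∈ π.N) => sat_iff w φ hφ (Fin.cons x v) (cons_mem hx hv)
    simp only [comp_cons] at ih
    simp only [Sat]
    constructor
    · rintro ⟨_, ⟨x, ⟨hx, hx'⟩, rfl⟩, hs⟩
      obtain ⟨k, hk⟩ := (ih x hx).1 hs
      exact ⟨k, fun q hq => ⟨q, le_rfl, x, hx', hk.mono hq⟩⟩
    · rintro ⟨k, hk⟩
      obtain ⟨m, h1, h2⟩ := π.gen ⟨w, n, .ex φ, v, π.g 0⟩ ⟨hφ, hv⟩
      have h3 : Forces (K w) id (.ex φ) v (π.g m) := by
        rcases h1 with h1 | h1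
        · exact h1
        · exact absurd (Forces.mono hk (π.g_le_right m k)) (h1 _ (π.g_le_left m k))
      obtain ⟨x, hx, hx', h4⟩ := h2.1 h3
      exact ⟨_, π.val_mem_M hx hx', (ih x hx).2 ⟨m, h4⟩⟩

end Pk

end Pool.Agent.W868.GM
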