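import Pool.Agent.W868.GM.Und
import Pool.Agent.W868.GM.Dfs

/-!
# Genericity
-/

set_option autoImplicit false
set_option linter.unusedSectionVars false

namespace Pool.Agent.W868.GM

open Pool.Agent.W868

/-- The order of the Cohen forcing. -/
def Rl (m k : ℕ) : Prop := dk k ⊆ dk m

theorem fn_sub {F F' : Finset (ℕ × Bool)} (h : Fn F') (hF : F ⊆ F') : Fn F :=
  fun n b h1 h2 => h n b (hF h1) (hF h2)

section

variable {π : Pk KK} (hπ : Full π) (hR : relN Rl ∈ π.N) (hG : gcN ∈ π.N)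

include hπ hR

theorem le_iff {m k : ℕ} : ZFSet.pair (nat m) (nat k) ∈ π.val (relN Rl) ↔ dk k ⊆ dk m := by
  rw [mem_rel hπ.toGood hR]
  constructor
  · rintro ⟨m', k', h, h'⟩
    obtain ⟨h1, h2⟩ := ZFSet.pair_inj.1 h'
    rw [nat_injective h1, nat_injective h2]
    exact h
  · intro h
    exact ⟨m, k, h, rfl⟩

theorem forcing_pk : IsForcing (π.M false) ZFSet.omega (π.val (relN Rl)) where
  mem := (isZF_M hπ.toGood false).infinity
  le_mem := π.val_mem_M hR (relN_KK false Rl)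
  refl := by
    intro p hp
    obtain ⟨m, rfl⟩ := mem_omega_iff.1 hp
    rw [le_iff hπ hR]
  trans := by
    intro p hp q hq r hr h1 h2
    obtain ⟨m, rfl⟩ := mem_omega_iff.1 hp
    obtain ⟨k, rfl⟩ := mem_omega_iff.1 hq
    obtain ⟨l, rfl⟩ := mem_omega_iff.1 hr
    rw [le_iff hπ hR] at h1 h2 ⊢
    exact h2.trans h1
  top := by
    refine ⟨nat (ck ∅), mem_omega_iff.2 ⟨_, rfl⟩, fun p hp => ?_⟩
    obtain ⟨m, rfl⟩ := mem_omega_iff.1 hp
    rw [le_iff hπ hR, dk_ck (by intro n b h; simp at h)]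
    exact Finset.empty_subset _

include hG

theorem meet_pk {D : ZFSet.{0}} (hD : D ∈ π.M false)
    (hd : ∀ p ∈ ZFSet.omega, ∃ q ∈ D, ZFSet.pair q p ∈ π.val (relN Rl)) (hDo : D ⊆ ZFSet.omega) :
    ∃ q ∈ D, q ∈ π.val gcN := by
  obtain ⟨d, ⟨hdN, hdK⟩, rfl⟩ := hD
  let φ : Fml (Nm Cd) 0 := .ex (.and (.mem (Sum.inl 0) (Sum.inr d)) (.mem (Sum.inl 0) (Sum.inr gcN)))
  have hφ : φ.Over π.N := ⟨⟨TOver.inl _, tOver_inr.2 hdN⟩, ⟨TOver.inl _, tOver_inr.2 hG⟩⟩
  suffices h : Sat (π.M true) π.val φ (π.val ∘ Fin.elim0) by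
    obtain ⟨q, -, h1, h2⟩ := h
    exact ⟨q, h1, h2⟩
  refine holds π hφ (fun i => i.elim0) 0 fun m _ => ?_
  obtain ⟨q, hq, hql⟩ := hd (nat (ck (cp (π.g m)))) (mem_omega_iff.2 ⟨_, rfl⟩)
  obtain ⟨k, rfl⟩ := mem_omega_iff.1 (hDo hq)
  rw [le_iff hπ hR, dk_ck (fn_cp _)] at hql
  have hq' := hq
  rw [← val_nat hπ.toGood k] at hq'
  obtain ⟨n, hn⟩ := (π.val_mem_iff (hπ.nat k) hdN).1 hq'
  classical
  let j := max m n
  have hj : π.g j ≤ π.g m := π.g_le_left m n
  have hjn : Fmem (check (nat k)) d (π.g j) := hn.mono (π.g_le_right m n)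
  let f : ℕ → Bool := fun l => decide (∃ b, (l, b) ∈ dk k ∧ (l, !b) ∈ cp (π.g j))
  let q0 : Cd := mv (gV f fun _ _ => 1) (π.g j)
  have hq0c : ∀ l b, At.c l b ∈ q0.s ↔ (l, b ^^ f l) ∈ cp (π.g j) := by
    intro l b
    rw [mem_cp]
    exact Iff.rfl
  have hq0h : ∀ α l i (ξ : X α) b, At.h α l i ξ b ∈ q0.s ↔ At.h α l i ξ b ∈ (π.g j).s := by
    intro α l i ξ b
    rw [mv_h]
    simp only [gV, Bool.xor_false]
    exact Iff.rfl
  have h1 : q0 ≤ π.g m := by
    intro x hx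
    cases x with
    | c l b =>
      rw [hq0c]
      have h2 : (l, b) ∈ cp (π.g m) := mem_cp.2 hx
      have h3 : f l = false := by
        refine decide_eq_false ?_
        rintro ⟨b', h4, h5⟩
        have h6 := cp_mono hj h2
        have h7 := hql h2
        have h8 : b' = b := by
          by_contra h9
          have h10 : b' = !b := by
            cases b <;> cases b' <;> simp_all
          subst h10
          exact fn_dk k l b h7 h4
        subst h8
        exact fn_cp _ _ _ h6 h5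
      rw [h3, Bool.xor_false]
      exact cp_mono hj h2
    | h α l i ξ b =>
      rw [hq0h]
      exact hj hx
  have h2 : Cd.Compat q0 (cdc (dk k) (fn_dk k)) := by
    constructor
    · intro l b h3 h4
      rw [hq0c] at h3
      rw [cdc_c] at h4
      by_cases h5 : ∃ b, (l, b) ∈ dk k ∧ (l, !b) ∈ cp (π.g j)
      · have h6 : f l = true := decide_eq_true h5
        rw [h6, Bool.xor_true] at h3
        obtain ⟨b', h7, h8⟩ := h5
        have h9 : b' = !b := by
          by_contra h10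
          have h11 : b' = b := by
            cases b <;> cases b' <;> simp_all
          subst h11
          exact fn_dk k l b' h7 h4
        subst h9
        rw [Bool.not_not] at h8
        exact fn_cp _ _ _ h8 h3
      · have h6 : f l = false := decide_eq_false h5
        rw [h6, Bool.xor_false] at h3
        exact h5 ⟨!b, h4, by rwa [Bool.not_not]⟩
    · intro α l i ξ b _ h4
      exact cdc_h (hF := fn_dk k) h4
  have h3 : Fmem (check (nat k)) d q0 := by
    obtain ⟨E, -, hs⟩ := (mem_KK.1 hdK).2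
    have h4 := Fmem.act (aut (gV f fun _ _ => 1)) hjn
    rw [aut_apply] at h4
    exact h4.congr (act_check _ _) (hs f (fun _ _ => 1) (by simp) (fun _ _ => rfl))
  refine ⟨∅, Set.countable_empty, Cd.cup _ _ h2, (Cd.cup_le_left h2).trans h1,
    fun π' h4 _ h5 => ?_⟩
  have h6 : check (nat k) ∈ π'.N := h4 (hπ.nat k)
  refine ⟨_, π'.val_mem_M h6 (check_KK true _), ?_, ?_⟩
  · refine (π'.val_mem_iff h6 (h4 hdN)).2 ⟨0, ?_⟩
    rw [h5]
    exact h3.mono (Cd.cup_le_left h2)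
  · refine π'.val_mem_val (n := 0) (c := cdc (dk k) (fn_dk k)) h6 ⟨k, rfl, rfl⟩ ?_
    rw [h5]
    exact Cd.cup_le_right h2

theorem generic_pk :
    IsGeneric (π.M false) ZFSet.omega (π.val (relN Rl)) (π.val gcN) where
  sub := by
    intro z hz
    obtain ⟨m, rfl, -⟩ := (mem_gc hπ.toGood).1 hz
    exact mem_omega_iff.2 ⟨_, rfl⟩
  nonempty := by
    refine ⟨nat (ck ∅), (nat_mem_gc hπ.toGood).2 ⟨0, ?_⟩⟩
    rw [dk_ck (by intro n b h; simp at h)]
    exact Finset.empty_subset _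
  up := by
    intro q hq p hp h
    obtain ⟨m, rfl, k, hk⟩ := (mem_gc hπ.toGood).1 hq
    obtain ⟨l, rfl⟩ := mem_omega_iff.1 hp
    rw [le_iff hπ hR] at h
    exact (nat_mem_gc hπ.toGood).2 ⟨k, h.trans hk⟩
  dir := by
    intro p hp q hq
    obtain ⟨m, rfl, k, hk⟩ := (mem_gc hπ.toGood).1 hp
    obtain ⟨n, rfl, l, hl⟩ := (mem_gc hπ.toGood).1 hq
    have h1 : dk m ∪ dk n ⊆ cp (π.g (max k l)) := Finset.union_subset
      (hk.trans (cp_mono (π.g_le_left k l))) (hl.trans (cp_mono (π.g_le_right k l)))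
    have h2 := dk_ck (fn_sub (fn_cp _) h1)
    refine ⟨nat (ck (dk m ∪ dk n)), (nat_mem_gc hπ.toGood).2 ⟨max k l, by rwa [h2]⟩, ?_, ?_⟩
    · rw [le_iff hπ hR, h2]
      exact Finset.subset_union_left
    · rw [le_iff hπ hR, h2]
      exact Finset.subset_union_right
  meet := fun D hD hDo hd => meet_pk hπ hR hG hD hd hDo

end

end Pool.Agent.W868.GM
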