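import Pool.Agent.W868.GM.Gen
import Pool.Agent.W868.GM.Cd

/-!
# Automorphisms of the notion of forcing, symmetric names, and homogeneity
-/

set_option autoImplicit false
set_option linter.unusedSectionVars false

namespace Pool.Agent.W868.GM

open Pool.Agent.W868 Nm

/-- The coordinates. -/
abbrev Co : Type 1 := Ordinal.{0} × ℕ × ℕ

/-- The data of an automorphism. -/
@[ext] structure Gp : Type 1 where
  h : ℕ → Bool
  a : Ordinal.{0} → ℕ → Equiv.Perm ℕ
  t : Ordinal.{0} → ℕ → Bool → Bool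

open Classical in
/-- The bit of `p` at `n`. -/
noncomputable def bt (p : Cd) (n : ℕ) : Bool := decide (At.c n true ∈ p.s)

theorem bt_eq {p : Cd} {n : ℕ} {b : Bool} (h : At.c n b ∈ p.s) : bt p n = b := by
  cases b
  · have h1 := p.fc n false h
    simpa [bt] using h1
  · simpa [bt] using h

/-- The atoms of the image. -/
def mvS (g : Gp) (p : Cd) : Set At := fun x => match x with
  | At.c n b => At.c n (b ^^ g.h n) ∈ p.s
  | At.h α n i ξ b => At.h α n ((g.a α n).symm i) ξ (b ^^ g.t α n (bt p n)) ∈ p.s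

theorem mem_c {g : Gp} {p : Cd} {n : ℕ} {b : Bool} :
    At.c n b ∈ mvS g p ↔ At.c n (b ^^ g.h n) ∈ p.s := Iff.rfl

theorem mem_h {g : Gp} {p : Cd} {α : Ordinal.{0}} {n i : ℕ} {ξ : X α} {b : Bool} :
    At.h α n i ξ b ∈ mvS g p ↔
      At.h α n ((g.a α n).symm i) ξ (b ^^ g.t α n (bt p n)) ∈ p.s := Iff.rfl

/-- The action on conditions. -/
def mv (g : Gp) (p : Cd) : Cd where
  s := mvS g p
  fc n b h h' := by
    rw [mem_c] at h h'
    rw [Bool.not_xor] at h'
    exact p.fc _ _ h h'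
  fh α n i ξ b h h' := by
    rw [mem_h] at h h'
    rw [Bool.not_xor] at h'
    exact p.fh _ _ _ _ _ h h'
  nc := p.nc.subset fun n ⟨b, hb⟩ => ⟨_, mem_c.1 hb⟩
  nh := by
    refine (p.nh.image fun t => (t.1, t.2.1, g.a t.1 t.2.1 t.2.2)).subset ?_
    rintro ⟨α, n, i⟩ ⟨ξ, b, hb⟩
    exact ⟨(α, n, (g.a α n).symm i), ⟨ξ, _, mem_h.1 hb⟩, by simp⟩
  dm α n i ξ b h := by
    obtain ⟨b', hb'⟩ := p.dm _ _ _ _ _ (mem_h.1 h)
    refine ⟨b' ^^ g.h n, ?_⟩
    rw [mem_c]
    simpa using hb'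
  sz α n i := by
    refine (Cardinal.mk_le_mk_of_subset
      (t := {ξ : X α | ∃ b, At.h α n ((g.a α n).symm i) ξ b ∈ p.s}) ?_).trans (p.sz α n _)
    rintro ξ ⟨b, hb⟩
    exact ⟨_, mem_h.1 hb⟩

theorem mv_c {g : Gp} {p : Cd} {n : ℕ} {b : Bool} :
    At.c n b ∈ (mv g p).s ↔ At.c n (b ^^ g.h n) ∈ p.s := Iff.rfl

theorem mv_h {g : Gp} {p : Cd} {α : Ordinal.{0}} {n i : ℕ} {ξ : X α} {b : Bool} :
    At.h α n i ξ b ∈ (mv g p).s ↔
      At.h α n ((g.a α n).symm i) ξ (b ^^ g.t α n (bt p n)) ∈ p.s := Iff.rfl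

instance : Mul Gp := ⟨fun g₂ g₁ => ⟨fun n => g₁.h n ^^ g₂.h n, fun α n => g₂.a α n * g₁.a α n,
  fun α n b => g₁.t α n b ^^ g₂.t α n (b ^^ g₁.h n)⟩⟩

instance : One Gp := ⟨⟨fun _ => false, fun _ _ => 1, fun _ _ _ => false⟩⟩

instance : Inv Gp := ⟨fun g => ⟨g.h, fun α n => (g.a α n)⁻¹, fun α n b => g.t α n (b ^^ g.h n)⟩⟩

theorem mul_def (g₂ g₁ : Gp) : g₂ * g₁ = ⟨fun n => g₁.h n ^^ g₂.h n,
  fun α n => g₂.a α n * g₁.a α n, fun α n b => g₁.t α n b ^^ g₂.t α n (b ^^ g₁.h n)⟩ := rfl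

theorem one_def : (1 : Gp) = ⟨fun _ => false, fun _ _ => 1, fun _ _ _ => false⟩ := rfl

theorem inv_def (g : Gp) : g⁻¹ = ⟨g.h, fun α n => (g.a α n)⁻¹,
  fun α n b => g.t α n (b ^^ g.h n)⟩ := rfl

theorem bt_mv {g : Gp} {p : Cd} {n : ℕ} (hn : ∃ b, At.c n b ∈ p.s) :
    bt (mv g p) n = (bt p n ^^ g.h n) := by
  obtain ⟨b, hb⟩ := hn
  rw [bt_eq hb]
  apply bt_eq
  rw [mv_c]
  simpa using hb

theorem mv_mv (g₂ g₁ : Gp) (p : Cd) : mv g₂ (mv g₁ p) = mv (g₂ * g₁) p := by
  apply Cd.ext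
  ext x
  cases x with
  | c n b =>
    rw [mv_c, mv_c, mv_c, mul_def]
    simp only
    rw [Bool.xor_assoc, Bool.xor_comm (g₂.h n)]
  | h α n i ξ b =>
    rw [mv_h, mv_h, mv_h, mul_def]
    simp only
    by_cases hn : ∃ b, At.c n b ∈ p.s
    · rw [bt_mv hn, Bool.xor_assoc, Bool.xor_comm (g₂.t α n _)]
      rfl
    · constructor
      · intro h
        exact absurd (p.dm _ _ _ _ _ h) hn
      · intro h
        exact absurd (p.dm _ _ _ _ _ h) hn

theorem mv_one (p : Cd) : mv 1 p = p := by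
  apply Cd.ext
  ext x
  cases x with
  | c n b =>
    rw [mv_c, one_def]
    simp
  | h α n i ξ b =>
    rw [mv_h, one_def]
    simp only [Bool.xor_false]
    rfl

theorem inv_mul (g : Gp) : g⁻¹ * g = 1 := by
  rw [mul_def, inv_def, one_def]
  ext <;> simp

theorem mul_inv (g : Gp) : g * g⁻¹ = 1 := by
  rw [mul_def, inv_def, one_def]
  ext <;> simp

theorem mv_mono (g : Gp) {p q : Cd} (h : p ≤ q) : mv g p ≤ mv g q := by
  intro x hx
  cases x with
  | c n b => exact h hx
  | h α n i ξ b =>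
    rw [mv_h] at hx ⊢
    obtain ⟨b', hb'⟩ := q.dm _ _ _ _ _ hx
    rw [bt_eq hb'] at hx
    rw [bt_eq (h hb')]
    exact h hx

theorem mv_inv_mv (g : Gp) (p : Cd) : mv g⁻¹ (mv g p) = p := by
  rw [mv_mv, inv_mul, mv_one]

theorem mv_mv_inv (g : Gp) (p : Cd) : mv g (mv g⁻¹ p) = p := by
  rw [mv_mv, mul_inv, mv_one]

/-- The automorphism. -/
def aut (g : Gp) : Cd ≃o Cd where
  toFun := mv g
  invFun := mv g⁻¹
  left_inv := mv_inv_mv g
  right_inv := mv_mv_inv g
  map_rel_iff' := by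
    intro p q
    constructor
    · intro h
      have h1 := mv_mono g⁻¹ h
      simp only [Equiv.coe_fn_mk] at h1
      rwa [mv_inv_mv, mv_inv_mv] at h1
    · exact mv_mono g

theorem aut_apply (g : Gp) : (aut g : Cd → Cd) = mv g := rfl

theorem aut_symm_apply (g : Gp) : ((aut g).symm : Cd → Cd) = mv g⁻¹ := rfl

/-- The automorphism without twist. -/
def gV (h : ℕ → Bool) (a : Ordinal.{0} → ℕ → Equiv.Perm ℕ) : Gp := ⟨h, a, fun _ _ _ => false⟩

/-- The permutations fix the coordinates in `E`. -/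
def Fix (E : Set Co) (a : Ordinal.{0} → ℕ → Equiv.Perm ℕ) : Prop :=
  ∀ t ∈ E, a t.1 t.2.1 t.2.2 = t.2.2

/-- The name `x` is symmetric. -/
def Sym (w : Bool) (x : Nm Cd) : Prop := ∃ E : Set Co, E.Finite ∧ ∀ h a,
  (w = true → h = fun _ => false) → Fix E a → NEq (act (mv (gV h a)) x) x

/-- The name `x` is hereditarily symmetric. -/
def HS (w : Bool) : Nm Cd → Prop
  | mk ι x c => (∀ i, HS w (x i)) ∧ Sym w (mk ι x c)

theorem hs_iff {w : Bool} {x : Nm Cd} : HS w x ↔ (∀ z c, El x z c → HS w z) ∧ Sym w x := by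
  cases x with
  | mk ι x c =>
    rw [HS]
    refine and_congr_left fun _ => ⟨?_, ?_⟩
    · rintro h z d ⟨i, rfl, rfl⟩
      exact h i
    · intro h i
      exact h _ _ ⟨i, rfl, rfl⟩

/-- The classes of hereditarily symmetric names. -/
def KK (w : Bool) : Set (Nm Cd) := {x | HS w x}

theorem mem_KK {w : Bool} {x : Nm Cd} :
    x ∈ KK w ↔ (∀ z c, El x z c → z ∈ KK w) ∧ Sym w x := hs_iff

theorem Sym.toTrue {x : Nm Cd} (h : Sym false x) : Sym true x := by
  obtain ⟨E, hE, h1⟩ := h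
  exact ⟨E, hE, fun h a _ ha => h1 h a (by simp) ha⟩

theorem KK.toTrue {x : Nm Cd} (h : x ∈ KK false) : x ∈ KK true := by
  induction x using el_ind with
  | h x ih =>
    rw [mem_KK] at h ⊢
    exact ⟨fun z c hz => ih z c hz (h.1 z c hz), h.2.toTrue⟩

theorem KK.act {w : Bool} {x : Nm Cd} (hx : x ∈ KK w) (g : Gp)
    (hg : w = false → g.t = fun _ _ _ => false) : act (mv g) x ∈ KK w := by
  induction x using el_ind with
  | h x ih =>
    rw [mem_KK] at hx ⊢
    refine ⟨fun z c hz => ?_, ?_⟩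
    · obtain ⟨y, d, hy, rfl, rfl⟩ := el_act.1 hz
      exact ih y d hy (hx.1 y d hy)
    · obtain ⟨E, hE, h1⟩ := hx.2
      refine ⟨(fun t : Co => (t.1, t.2.1, g.a t.1 t.2.1 t.2.2)) '' E, hE.image _, ?_⟩
      intro h' a' hh ha'
      have h2 := h1 h' (fun α n => (g.a α n)⁻¹ * a' α n * g.a α n) hh (by
        rintro ⟨α, n, i⟩ ht
        have h3 := ha' _ ⟨_, ht, rfl⟩
        simp only at h3
        simp [Equiv.Perm.mul_apply, h3])
      have h4 := h2.act (mv g)
      rw [act_act] at h4 ⊢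
      have h5 : mv (gV h' a') ∘ mv g = mv g ∘ mv (gV h' fun α n =>
          (g.a α n)⁻¹ * a' α n * g.a α n) := by
        funext p
        simp only [Function.comp, mv_mv]
        congr 1
        rw [mul_def, mul_def, gV, gV]
        ext α n b
        · simp only
          rw [Bool.xor_comm]
        · simp [Equiv.Perm.mul_apply]
        · simp only [Bool.xor_false, Bool.false_xor]
          cases w with
          | false => rw [hg rfl]
          | true => rw [hh rfl, Bool.xor_false]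
      rw [h5]
      exact h4

theorem KK.act_iff {w : Bool} (g : Gp) (hg : w = false → g.t = fun _ _ _ => false) :
    (∀ x ∈ KK w, GM.act (aut g) x ∈ KK w) ∧ ∀ x ∈ KK w, GM.act (aut g).symm x ∈ KK w := by
  constructor
  · intro x hx
    exact KK.act hx g hg
  · intro x hx
    refine KK.act hx g⁻¹ fun hw => ?_
    rw [inv_def]
    simp only
    rw [hg hw]

/-! ### Levels -/

/-- All conditions that occur in the name are of level smaller than `β`. -/
def Lev (β : Ordinal.{0}) : Nm Cd → Prop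
  | mk _ x c => ∀ i, Lev β (x i) ∧ Cd.Low β (c i)

theorem lev_iff {β : Ordinal.{0}} {x : Nm Cd} :
    Lev β x ↔ ∀ z c, El x z c → Lev β z ∧ Cd.Low β c := by
  cases x with
  | mk ι x c =>
    rw [Lev]
    constructor
    · rintro h z d ⟨i, rfl, rfl⟩
      exact h i
    · intro h i
      exact h _ _ ⟨i, rfl, rfl⟩

theorem Lev.mono {β γ : Ordinal.{0}} {x : Nm Cd} (h : Lev β x) (hβ : β ≤ γ) : Lev γ x := by
  induction x using el_ind with
  | h x ih =>
    rw [lev_iff] at h ⊢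
    exact fun z c hz => ⟨ih z c hz (h z c hz).1, (h z c hz).2.mono hβ⟩

theorem exists_lev (x : Nm Cd) : ∃ β, Lev β x := by
  induction x with
  | mk ι x c ih =>
    choose f hf using ih
    choose k hk using fun i => (c i).exists_low
    have h1 : BddAbove (Set.range f) := Ordinal.bddAbove_of_small
    have h2 : BddAbove (Set.range k) := Ordinal.bddAbove_of_small
    obtain ⟨β, hβ⟩ := h1
    obtain ⟨γ, hγ⟩ := h2
    refine ⟨max β γ, ?_⟩
    rw [Lev]
    exact fun i => ⟨(hf i).mono ((hβ ⟨i, rfl⟩).trans (le_max_left _ _)),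
      (hk i).mono ((hγ ⟨i, rfl⟩).trans (le_max_right _ _))⟩

theorem mv_low {β : Ordinal.{0}} {g : Gp} {p : Cd} (h : g.h = fun _ => false)
    (ha : ∀ α < β, g.a α = fun _ => 1) (ht : ∀ α < β, g.t α = fun _ _ => false)
    (hp : Cd.Low β p) : mv g p = p := by
  apply Cd.ext
  ext x
  cases x with
  | c n b =>
    rw [mv_c, h]
    simp
  | h α n i ξ b =>
    rw [mv_h]
    constructor
    · intro h1
      have h2 := hp _ _ _ _ _ h1
      rw [ha α h2, ht α h2] at h1
      simp only [Bool.xor_false] at h1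
      exact h1
    · intro h1
      have h2 := hp _ _ _ _ _ h1
      rw [ha α h2, ht α h2]
      simp only [Bool.xor_false]
      exact h1

theorem act_lev {β : Ordinal.{0}} {g : Gp} {x : Nm Cd} (h : g.h = fun _ => false)
    (ha : ∀ α < β, g.a α = fun _ => 1) (ht : ∀ α < β, g.t α = fun _ _ => false)
    (hx : Lev β x) : act (mv g) x = x := by
  have h1 : act (mv g) x = act id x := by
    refine act_congr (S := Lev β) (fun x hx z c hz => ?_) hx
    exact ⟨(lev_iff.1 hx z c hz).1, mv_low h ha ht (lev_iff.1 hx z c hz).2⟩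
  rw [h1, act_id]

/-! ### Homogeneity -/

open Classical in
/-- A permutation of the natural numbers that moves the numbers smaller than `M` outside of `E`
beyond `M`. -/
noncomputable def shF (M : ℕ) (E : Set ℕ) (i : ℕ) : ℕ :=
  if i < M then (if i ∈ E then i else i + M)
  else if i < 2 * M then (if i - M ∈ E then i else i - M) else i

theorem shF_shF (M : ℕ) (E : Set ℕ) (i : ℕ) : shF M E (shF M E i) = i := by
  unfold shF
  by_cases h1 : i < M
  · by_cases h2 : i ∈ E
    · simp [h1, h2]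
    · have h3 : ¬ (i + M < M) := by omega
      have h4 : i + M < 2 * M := by omega
      simp [h1, h2, h4]
  · by_cases h2 : i < 2 * M
    · by_cases h3 : i - M ∈ E
      · simp [h1, h2, h3]
      · have h4 : i - M < M := by omega
        have h5 : i - M + M = i := by omega
        simp [h1, h2, h3, h4, h5]
    · simp [h1, h2]

/-- The permutation. -/
noncomputable def sh (M : ℕ) (E : Set ℕ) : Equiv.Perm ℕ :=
  ⟨shF M E, shF M E, shF_shF M E, shF_shF M E⟩

theorem sh_fix {M : ℕ} {E : Set ℕ} {i : ℕ} (h : i < M) (hE : i ∈ E) : sh M E i = i := by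
  change shF M E i = i
  simp [shF, h, hE]

theorem sh_move {M : ℕ} {E : Set ℕ} {i : ℕ} (h : i < M) (hE : i ∉ E) : M ≤ sh M E i := by
  change M ≤ shF M E i
  simp [shF, h, hE]

/-- The name is fixed by the permutations that fix the levels below `β` and the coordinates
in `E`. -/
def Inv (β : Ordinal.{0}) (E : Set Co) (x : Nm Cd) : Prop :=
  ∀ a : Ordinal.{0} → ℕ → Equiv.Perm ℕ, (∀ α < β, a α = fun _ => 1) → Fix E a →
    NEq (act (mv (gV (fun _ => false) a)) x) x

theorem Lev.inv {β : Ordinal.{0}} {x : Nm Cd} (h : Lev β x) (E : Set Co) : Inv β E x := by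
  intro a ha _
  rw [act_lev rfl ha (fun _ _ => rfl) h]
  exact NEq.refl x

theorem Inv.mono {β γ : Ordinal.{0}} {E F : Set Co} {x : Nm Cd} (h : Inv β E x) (hβ : β ≤ γ)
    (hE : E ⊆ F) : Inv γ F x :=
  fun a ha ha' => h a (fun α hα => ha α (hα.trans_le hβ)) fun t ht => ha' t (hE ht)

theorem Sym.inv {w : Bool} {x : Nm Cd} (h : Sym w x) : ∃ E : Set Co, E.Finite ∧
    ∀ β, Inv β E x := by
  obtain ⟨E, hE, h1⟩ := h
  exact ⟨E, hE, fun β a _ ha => h1 _ a (fun _ => rfl) ha⟩

open Classical in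
/-- Homogeneity. -/
theorem hom {w : Bool} {A : Type*} {e : A → Nm Cd} {S : Set A} {n : ℕ} {φ : Fml A n}
    (hφ : φ.Over S) {v : Fin n → Nm Cd} {β : Ordinal.{0}} {E : Set Co} (hE : E.Finite)
    (he : ∀ a ∈ S, Inv β E (e a)) (hv : ∀ i, Inv β E (v i)) {p : Cd}
    (hp : Forces (KK w) e φ v p) : Forces (KK w) e φ v (Cd.rs β E p) := by
  refine Forces.dense fun q hq => ?_
  obtain ⟨M, hM⟩ := (((p.nh.union q.nh).union hE).image fun t => t.2.2).bddAbove
  have hMp : ∀ α n i ξ b, At.h α n i ξ b ∈ p.s → i < M + 1 := fun α n i ξ b h =>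
    Nat.lt_succ_of_le (hM ⟨(α, n, i), Or.inl (Or.inl ⟨ξ, b, h⟩), rfl⟩)
  have hMq : ∀ α n i ξ b, At.h α n i ξ b ∈ q.s → i < M + 1 := fun α n i ξ b h =>
    Nat.lt_succ_of_le (hM ⟨(α, n, i), Or.inl (Or.inr ⟨ξ, b, h⟩), rfl⟩)
  have hME : ∀ α n i, (α, n, i) ∈ E → i < M + 1 := fun α n i h =>
    Nat.lt_succ_of_le (hM ⟨(α, n, i), Or.inr h, rfl⟩)
  let a : Ordinal.{0} → ℕ → Equiv.Perm ℕ := fun α n =>
    if α < β then 1 else sh (M + 1) {i | (α, n, i) ∈ E}
  have ha1 : ∀ α < β, a α = fun _ => 1 := by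
    intro α hα
    funext n
    simp [a, hα]
  have ha2 : Fix E a := by
    rintro ⟨α, n, i⟩ ht
    by_cases hα : α < β
    · simp [a, hα]
    · simp only [a, if_neg hα]
      exact sh_fix (hME α n i ht) ht
  have h1 : Forces (KK w) e φ v (mv (gV (fun _ => false) a) p) := by
    have h2 := (Forces.act_aux (aut (gV (fun _ => false) a)) (KK.act_iff (w := w) _ fun _ => rfl).1
      (KK.act_iff _ fun _ => rfl).2 φ v p (e := e)).2 hp
    exact Forces.congr (fun b hb => he b hb a ha1 ha2) φ hφ (fun i => hv i a ha1 ha2) h2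
  have hc : Cd.Compat (mv (gV (fun _ => false) a) p) q := by
    constructor
    · intro n b h3 h4
      rw [mv_c] at h3
      simp only [gV, Bool.xor_false] at h3
      exact q.fc n b (hq ⟨h3, Cd.kp_c n b⟩) h4
    · intro α n i ξ b h3 h4
      rw [mv_h] at h3
      simp only [gV, Bool.xor_false] at h3
      by_cases h5 : α < β ∨ (α, n, (a α n).symm i) ∈ E
      · have h6 : (a α n).symm i = i := by
          have h7 : a α n ((a α n).symm i) = (a α n).symm i := by
            rcases h5 with h5 | h5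
            · rw [ha1 α h5]
              rfl
            · exact ha2 _ h5
          rw [Equiv.apply_symm_apply] at h7
          exact h7.symm
        have h8 : At.h α n ((a α n).symm i) ξ b ∈ q.s := hq ⟨h3, Cd.kp_h.2 h5⟩
        rw [h6] at h8
        exact q.fh _ _ _ _ _ h8 h4
      · push Not at h5
        have h6 := hMp _ _ _ _ _ h3
        have h7 := hMq _ _ _ _ _ h4
        have h8 : M + 1 ≤ a α n ((a α n).symm i) := by
          have h9 : a α n = sh (M + 1) {i | (α, n, i) ∈ E} := by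
            simp only [a]
            rw [if_neg (not_lt.2 h5.1)]
          rw [h9] at h5 h6 ⊢
          exact sh_move h6 h5.2
        rw [Equiv.apply_symm_apply] at h8
        omega
  exact ⟨Cd.cup _ _ hc, Cd.cup_le_right hc, h1.mono (Cd.cup_le_left hc)⟩

end Pool.Agent.W868.GM
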