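import Pool.Agent.W868.Fml

/-!
# Names for a (possibly large) notion of forcing, and forcing with a class of names

The notion of forcing `P` is a type in the universe `Type 1`, that is, it may be a proper class
compared with the sets in `ZFSet.{0}`. The names are small.
-/

set_option autoImplicit false
set_option linter.unusedSectionVars false

namespace Pool.Agent.W868.GM

open Pool.Agent.W868

/-- Names for the notion of forcing `P`: the name `mk ι x c` is the set of the pairs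
`(x i, c i)`. -/
inductive Nm (P : Type 1) : Type 1
  | mk (ι : Type) (x : ι → Nm P) (c : ι → P) : Nm P

namespace Nm

variable {P : Type 1}

/-- The index type. -/
def idx : Nm P → Type
  | mk ι _ _ => ι

/-- The names that are elements. -/
def chd : (x : Nm P) → x.idx → Nm P
  | mk _ x _ => x

/-- The conditions. -/
def cnd : (x : Nm P) → x.idx → P
  | mk _ _ c => c

/-- The empty name. -/
def emp : Nm P := mk Empty Empty.elim Empty.elim

end Nm

open Nm

variable {P : Type 1}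

/-- The pair `(z, c)` is an element of the name `x`. -/
def El (x z : Nm P) (c : P) : Prop := ∃ i, x.chd i = z ∧ x.cnd i = c

theorem el_mk {ι : Type} {x : ι → Nm P} {c : ι → P} {z : Nm P} {d : P} :
    El (mk ι x c) z d ↔ ∃ i, x i = z ∧ c i = d := Iff.rfl

theorem el_ind {p : Nm P → Prop} (h : ∀ x, (∀ z c, El x z c → p z) → p x) (x : Nm P) :
    p x := by
  induction x with
  | mk ι x c ih =>
    refine h _ ?_
    rintro z d ⟨i, rfl, -⟩
    exact ih i

/-- Names that are equal up to the choice of the indices. -/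
def NEq : Nm P → Nm P → Prop
  | mk _ x c, mk _ y d => (∀ i, ∃ j, NEq (x i) (y j) ∧ c i = d j) ∧
      (∀ j, ∃ i, NEq (x i) (y j) ∧ c i = d j)

theorem neq_iff {x y : Nm P} : NEq x y ↔
    (∀ z c, El x z c → ∃ w, El y w c ∧ NEq z w) ∧ (∀ w c, El y w c → ∃ z, El x z c ∧ NEq z w) := by
  cases x with
  | mk ι x c =>
  cases y with
  | mk κ y d =>
  rw [NEq]
  constructor
  · rintro ⟨h1, h2⟩
    constructor
    · rintro z e ⟨i, rfl, rfl⟩
      obtain ⟨j, h3, h4⟩ := h1 i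
      exact ⟨y j, ⟨j, rfl, h4.symm⟩, h3⟩
    · rintro z e ⟨j, rfl, rfl⟩
      obtain ⟨i, h3, h4⟩ := h2 j
      exact ⟨x i, ⟨i, rfl, h4⟩, h3⟩
  · rintro ⟨h1, h2⟩
    constructor
    · intro i
      obtain ⟨w, ⟨j, rfl, h3⟩, h4⟩ := h1 _ _ ⟨i, rfl, rfl⟩
      exact ⟨j, h4, h3.symm⟩
    · intro j
      obtain ⟨w, ⟨i, rfl, h3⟩, h4⟩ := h2 _ _ ⟨j, rfl, rfl⟩
      exact ⟨i, h4, h3⟩

theorem NEq.refl (x : Nm P) : NEq x x := by
  induction x using el_ind with
  | h x ih => exact neq_iff.2 ⟨fun z c h => ⟨z, h, ih z c h⟩, fun z c h => ⟨z, h, ih z c h⟩⟩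

theorem NEq.symm {x y : Nm P} (h : NEq x y) : NEq y x := by
  induction x using el_ind generalizing y with
  | h x ih =>
    obtain ⟨h1, h2⟩ := neq_iff.1 h
    refine neq_iff.2 ⟨fun w c hw => ?_, fun z c hz => ?_⟩
    · obtain ⟨z, hz, h3⟩ := h2 w c hw
      exact ⟨z, hz, ih z c hz h3⟩
    · obtain ⟨w, hw, h3⟩ := h1 z c hz
      exact ⟨w, hw, ih z c hz h3⟩

theorem NEq.trans {x y z : Nm P} (h : NEq x y) (h' : NEq y z) : NEq x z := by
  induction x using el_ind generalizing y z with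
  | h x ih =>
    obtain ⟨h1, h2⟩ := neq_iff.1 h
    obtain ⟨h3, h4⟩ := neq_iff.1 h'
    refine neq_iff.2 ⟨fun u c hu => ?_, fun u c hu => ?_⟩
    · obtain ⟨v, hv, h5⟩ := h1 u c hu
      obtain ⟨w, hw, h6⟩ := h3 v c hv
      exact ⟨w, hw, ih u c hu h5 h6⟩
    · obtain ⟨v, hv, h5⟩ := h4 u c hu
      obtain ⟨w, hw, h6⟩ := h2 v c hv
      exact ⟨w, hw, ih w c hw h6 h5⟩

/-! ### Maps on names -/

/-- The action of a map. -/
def act (a : P → P) : Nm P → Nm P
  | mk ι x c => mk ι (fun i => act a (x i)) (fun i => a (c i))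

theorem el_act {a : P → P} {x z : Nm P} {c : P} :
    El (act a x) z c ↔ ∃ y d, El x y d ∧ z = act a y ∧ c = a d := by
  cases x with
  | mk ι x e =>
    constructor
    · rintro ⟨i, rfl, rfl⟩
      exact ⟨x i, e i, ⟨i, rfl, rfl⟩, rfl, rfl⟩
    · rintro ⟨y, d, ⟨i, rfl, rfl⟩, rfl, rfl⟩
      exact ⟨i, rfl, rfl⟩

theorem act_act (a b : P → P) (x : Nm P) : act a (act b x) = act (a ∘ b) x := by
  induction x with
  | mk ι x c ih =>
    simp only [act, ih, Function.comp]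

theorem act_id (x : Nm P) : act id x = x := by
  induction x with
  | mk ι x c ih => simp only [act, ih, id]

theorem NEq.act {x y : Nm P} (h : NEq x y) (a : P → P) : NEq (act a x) (act a y) := by
  induction x using el_ind generalizing y with
  | h x ih =>
    obtain ⟨h1, h2⟩ := neq_iff.1 h
    refine neq_iff.2 ⟨fun u c hu => ?_, fun u c hu => ?_⟩
    · obtain ⟨z, d, hz, rfl, rfl⟩ := el_act.1 hu
      obtain ⟨w, hw, h5⟩ := h1 z d hz
      exact ⟨_, el_act.2 ⟨w, d, hw, rfl, rfl⟩, ih z d hz h5⟩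
    · obtain ⟨w, d, hw, rfl, rfl⟩ := el_act.1 hu
      obtain ⟨z, hz, h5⟩ := h2 w d hw
      exact ⟨_, el_act.2 ⟨z, d, hz, rfl, rfl⟩, ih z d hz h5⟩

theorem act_congr {a b : P → P} {x : Nm P} {S : Nm P → Prop}
    (hS : ∀ x, S x → (∀ z c, El x z c → S z ∧ a c = b c)) (hx : S x) : act a x = act b x := by
  induction x with
  | mk ι x c ih =>
    simp only [act]
    have h1 := hS _ hx
    congr 1
    · funext i
      exact ih i (h1 _ _ ⟨i, rfl, rfl⟩).1
    · funext i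
      exact (h1 _ _ ⟨i, rfl, rfl⟩).2

/-! ### The forcing relation -/

variable [Preorder P]

/-- Forced equality. -/
def Feq : Nm P → Nm P → P → Prop
  | mk _ x c, mk _ y d => fun p =>
    (∀ i, ∀ q ≤ p, q ≤ c i → ∃ s ≤ q, ∃ j, s ≤ d j ∧ Feq (x i) (y j) s) ∧
    (∀ j, ∀ q ≤ p, q ≤ d j → ∃ s ≤ q, ∃ i, s ≤ c i ∧ Feq (x i) (y j) s)

/-- Forced membership. -/
def Fmem (x y : Nm P) (p : P) : Prop :=
  ∀ q ≤ p, ∃ s ≤ q, ∃ z c, El y z c ∧ s ≤ c ∧ Feq x z s

theorem feq_iff' {x y : Nm P} {p : P} : Feq x y p ↔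
    (∀ z c, El x z c → ∀ q ≤ p, q ≤ c → ∃ s ≤ q, ∃ w d, El y w d ∧ s ≤ d ∧ Feq z w s) ∧
    (∀ w d, El y w d → ∀ q ≤ p, q ≤ d → ∃ s ≤ q, ∃ z c, El x z c ∧ s ≤ c ∧ Feq z w s) := by
  cases x with
  | mk ι x e =>
  cases y with
  | mk κ y f =>
  rw [Feq]
  constructor
  · rintro ⟨h1, h2⟩
    constructor
    · rintro z c ⟨i, rfl, rfl⟩ q hq hc
      obtain ⟨s, hs, j, hj, hf⟩ := h1 i q hq hc
      exact ⟨s, hs, _, _, ⟨j, rfl, rfl⟩, hj, hf⟩
    · rintro w d ⟨j, rfl, rfl⟩ q hq hc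
      obtain ⟨s, hs, i, hi, hf⟩ := h2 j q hq hc
      exact ⟨s, hs, _, _, ⟨i, rfl, rfl⟩, hi, hf⟩
  · rintro ⟨h1, h2⟩
    constructor
    · intro i q hq hc
      obtain ⟨s, hs, w, d, ⟨j, rfl, rfl⟩, hj, hf⟩ := h1 _ _ ⟨i, rfl, rfl⟩ q hq hc
      exact ⟨s, hs, j, hj, hf⟩
    · intro j q hq hc
      obtain ⟨s, hs, w, d, ⟨i, rfl, rfl⟩, hi, hf⟩ := h2 _ _ ⟨j, rfl, rfl⟩ q hq hc
      exact ⟨s, hs, i, hi, hf⟩

theorem Feq.mono {x y : Nm P} {p q : P} (h : Feq x y p) (hq : q ≤ p) : Feq x y q := by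
  rw [feq_iff'] at h ⊢
  exact ⟨fun i c hi r hr => h.1 i c hi r (hr.trans hq),
    fun j c hj r hr => h.2 j c hj r (hr.trans hq)⟩

theorem Fmem.mono {x y : Nm P} {p q : P} (h : Fmem x y p) (hq : q ≤ p) : Fmem x y q :=
  fun r hr => h r (hr.trans hq)

theorem Feq.refl (x : Nm P) (p : P) : Feq x x p := by
  induction x using el_ind generalizing p with
  | h x ih =>
    rw [feq_iff']
    exact ⟨fun z c h q _ hq => ⟨q, le_rfl, z, c, h, hq, ih z c h q⟩,
      fun z c h q _ hq => ⟨q, le_rfl, z, c, h, hq, ih z c h q⟩⟩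

theorem Feq.symm {x y : Nm P} {p : P} (h : Feq x y p) : Feq y x p := by
  induction x using el_ind generalizing y p with
  | h x ih =>
    rw [feq_iff'] at h ⊢
    constructor
    · intro j d hj q hq hc
      obtain ⟨s, hs, i, c, hi, hc', hf⟩ := h.2 j d hj q hq hc
      exact ⟨s, hs, i, c, hi, hc', ih i c hi hf⟩
    · intro i c hi q hq hc
      obtain ⟨s, hs, j, d, hj, hd, hf⟩ := h.1 i c hi q hq hc
      exact ⟨s, hs, j, d, hj, hd, ih i c hi hf⟩

/-- `q` forces that `z` is not an element of `y`. -/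
def NotMem (z y : Nm P) (q : P) : Prop := ∀ s ≤ q, ∀ w c, El y w c → s ≤ c → ¬ Feq z w s

/-- `q` forces that `z` is an element of `x` and not an element of `y`. -/
def Wit (x y z : Nm P) (q : P) : Prop := (∃ c, El x z c ∧ q ≤ c) ∧ NotMem z y q

theorem exists_wit {x y : Nm P} {p : P} (h : ¬ Feq x y p) :
    ∃ q ≤ p, ∃ z, Wit x y z q ∨ Wit y x z q := by
  by_contra hc
  refine h (feq_iff'.2 ⟨?_, ?_⟩)
  · intro z c hz q hq hqc
    by_contra h1
    refine hc ⟨q, hq, z, Or.inl ⟨⟨c, hz, hqc⟩, ?_⟩⟩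
    intro s hs w d hw hd hf
    exact h1 ⟨s, hs, w, d, hw, hd, hf⟩
  · intro w d hw q hq hqd
    by_contra h1
    refine hc ⟨q, hq, w, Or.inr ⟨⟨d, hw, hqd⟩, ?_⟩⟩
    intro s hs z c hz hc hf
    exact h1 ⟨s, hs, z, c, hz, hc, hf.symm⟩

universe u

variable {A : Type u}

/-- The forcing relation, where the quantifiers range over the names in `K` and the parameters
are interpreted by `e`. -/
def Forces (K : Set (Nm P)) (e : A → Nm P) : {n : ℕ} → Fml A n → (Fin n → Nm P) → P → Prop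
  | _, .mem s t, v, p => Fmem (Sum.elim v e s) (Sum.elim v e t) p
  | _, .eq s t, v, p => Feq (Sum.elim v e s) (Sum.elim v e t) p
  | _, .neg φ, v, p => ∀ q ≤ p, ¬ Forces K e φ v q
  | _, .and φ ψ, v, p => Forces K e φ v p ∧ Forces K e ψ v p
  | _, .ex φ, v, p => ∀ q ≤ p, ∃ s ≤ q, ∃ x ∈ K, Forces K e φ (Fin.cons x v) s

variable {K : Set (Nm P)} {e : A → Nm P}

theorem Forces.mono : {n : ℕ} → {φ : Fml A n} → {v : Fin n → Nm P} → {p q : P} →
    Forces K e φ v p → q ≤ p → Forces K e φ v q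
  | _, .mem _ _, _, _, _, h, hq => Fmem.mono h hq
  | _, .eq _ _, _, _, _, h, hq => Feq.mono h hq
  | _, .neg _, _, _, _, h, hq => fun r hr => h r (hr.trans hq)
  | _, .and φ ψ, _, _, _, h, hq => ⟨Forces.mono (φ := φ) h.1 hq, Forces.mono (φ := ψ) h.2 hq⟩
  | _, .ex _, _, _, _, h, hq => fun r hr => h r (hr.trans hq)

theorem Forces.dense : {n : ℕ} → {φ : Fml A n} → {v : Fin n → Nm P} → {p : P} →
    (∀ q ≤ p, ∃ s ≤ q, Forces K e φ v s) → Forces K e φ v p
  | _, .mem _ _, _, _, h => fun q hq => by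
    obtain ⟨s, hs, h1⟩ := h q hq
    obtain ⟨t, ht, h2⟩ := h1 s le_rfl
    exact ⟨t, ht.trans hs, h2⟩
  | _, .eq _ _, _, _, h => by
    refine feq_iff'.2 ⟨fun z c hz q hq hc => ?_, fun w d hw q hq hd => ?_⟩
    · obtain ⟨s, hs, h1⟩ := h q hq
      obtain ⟨t, ht, h2⟩ := (feq_iff'.1 h1).1 z c hz s le_rfl (hs.trans hc)
      exact ⟨t, ht.trans hs, h2⟩
    · obtain ⟨s, hs, h1⟩ := h q hq
      obtain ⟨t, ht, h2⟩ := (feq_iff'.1 h1).2 w d hw s le_rfl (hs.trans hd)
      exact ⟨t, ht.trans hs, h2⟩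
  | _, .neg _, _, _, h => fun q hq h1 => by
    obtain ⟨s, hs, h2⟩ := h q hq
    exact h2 s le_rfl (h1.mono hs)
  | _, .and φ ψ, _, _, h => ⟨Forces.dense (φ := φ) fun q hq => by
      obtain ⟨s, hs, h1⟩ := h q hq
      exact ⟨s, hs, h1.1⟩, Forces.dense (φ := ψ) fun q hq => by
      obtain ⟨s, hs, h1⟩ := h q hq
      exact ⟨s, hs, h1.2⟩⟩
  | _, .ex _, _, _, h => fun q hq => by
    obtain ⟨s, hs, h1⟩ := h q hq
    obtain ⟨t, ht, h2⟩ := h1 s le_rfl
    exact ⟨t, ht.trans hs, h2⟩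

/-! ### Names equal up to the choice of the indices -/

theorem Feq.congr_left {x x' y : Nm P} (h : NEq x x') {p : P} (hf : Feq x y p) : Feq x' y p := by
  induction x using el_ind generalizing x' y p with
  | h x ih =>
    obtain ⟨h1, h2⟩ := neq_iff.1 h
    rw [feq_iff'] at hf ⊢
    constructor
    · intro z' c hz' q hq hc
      obtain ⟨z, hz, h3⟩ := h2 z' c hz'
      obtain ⟨s, hs, w, d, hw, hd, h4⟩ := hf.1 z c hz q hq hc
      exact ⟨s, hs, w, d, hw, hd, ih z c hz h3 h4⟩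
    · intro w d hw q hq hd
      obtain ⟨s, hs, z, c, hz, hc, h4⟩ := hf.2 w d hw q hq hd
      obtain ⟨z', hz', h3⟩ := h1 z c hz
      exact ⟨s, hs, z', c, hz', hc, ih z c hz h3 h4⟩

theorem Feq.congr {x x' y y' : Nm P} (h : NEq x x') (h' : NEq y y') {p : P} (hf : Feq x y p) :
    Feq x' y' p := ((hf.congr_left h).symm.congr_left h').symm

theorem Fmem.congr {x x' y y' : Nm P} (h : NEq x x') (h' : NEq y y') {p : P} (hf : Fmem x y p) :
    Fmem x' y' p := by
  intro q hq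
  obtain ⟨s, hs, z, c, hz, hc, h1⟩ := hf q hq
  obtain ⟨z', hz', h2⟩ := (neq_iff.1 h').1 z c hz
  exact ⟨s, hs, z', c, hz', hc, h1.congr h h2⟩

theorem elim_neq {S : Set A} {e f : A → Nm P} (hef : ∀ a ∈ S, NEq (e a) (f a)) {n : ℕ}
    {v v' : Fin n → Nm P} (hv : ∀ i, NEq (v i) (v' i)) {s : Fin n ⊕ A} (hs : TOver S s) :
    NEq (Sum.elim v e s) (Sum.elim v' f s) := by
  cases s with
  | inl i => exact hv i
  | inr a => exact hef a (hs a rfl)

theorem cons_neq {n : ℕ} {v v' : Fin n → Nm P} (hv : ∀ i, NEq (v i) (v' i)) (x : Nm P) :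
    ∀ i, NEq ((Fin.cons x v : Fin (n + 1) → Nm P) i) ((Fin.cons x v' : Fin (n + 1) → Nm P) i) := by
  intro i
  refine Fin.cases ?_ (fun i => ?_) i
  · exact NEq.refl x
  · exact hv i

theorem Forces.congr {S : Set A} : {e f : A → Nm P} → (∀ a ∈ S, NEq (e a) (f a)) →
    {n : ℕ} → (φ : Fml A n) → φ.Over S → {v v' : Fin n → Nm P} → (∀ i, NEq (v i) (v' i)) →
    {p : P} → Forces K e φ v p → Forces K f φ v' p
  | _, _, hef, _, .mem _ _, hφ, _, _, hv, _, h =>
    Fmem.congr (elim_neq hef hv hφ.1) (elim_neq hef hv hφ.2) h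
  | _, _, hef, _, .eq _ _, hφ, _, _, hv, _, h =>
    Feq.congr (elim_neq hef hv hφ.1) (elim_neq hef hv hφ.2) h
  | _, _, hef, _, .neg φ, hφ, _, _, hv, _, h => fun q hq h1 =>
    h q hq (Forces.congr (fun a ha => (hef a ha).symm) φ hφ (fun i => (hv i).symm) h1)
  | _, _, hef, _, .and φ ψ, hφ, _, _, hv, _, h =>
    ⟨Forces.congr hef φ hφ.1 hv h.1, Forces.congr hef ψ hφ.2 hv h.2⟩
  | _, _, hef, _, .ex φ, hφ, _, _, hv, _, h => fun q hq => by
    obtain ⟨s, hs, x, hx, h1⟩ := h q hq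
    exact ⟨s, hs, x, hx, Forces.congr hef φ hφ (cons_neq hv x) h1⟩

/-! ### Automorphisms -/

theorem Feq.act {x y : Nm P} {p : P} (a : P ≃o P) (h : Feq x y p) :
    Feq (GM.act a x) (GM.act a y) (a p) := by
  induction x using el_ind generalizing y p with
  | h x ih =>
    rw [feq_iff'] at h ⊢
    constructor
    · intro z' c' hz' q hq hc
      obtain ⟨z, c, hz, rfl, rfl⟩ := el_act.1 hz'
      obtain ⟨s, hs, w, d, hw, hd, h4⟩ := h.1 z c hz (a.symm q) (a.symm_apply_le.2 hq)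
        (a.symm_apply_le.2 hc)
      exact ⟨a s, (a.le_symm_apply).1 hs, _, _, el_act.2 ⟨w, d, hw, rfl, rfl⟩,
        a.le_iff_le.2 hd, ih z c hz h4⟩
    · intro w' d' hw' q hq hc
      obtain ⟨w, d, hw, rfl, rfl⟩ := el_act.1 hw'
      obtain ⟨s, hs, z, c, hz, hd, h4⟩ := h.2 w d hw (a.symm q) (a.symm_apply_le.2 hq)
        (a.symm_apply_le.2 hc)
      exact ⟨a s, (a.le_symm_apply).1 hs, _, _, el_act.2 ⟨z, c, hz, rfl, rfl⟩,
        a.le_iff_le.2 hd, ih z c hz h4⟩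

theorem Fmem.act {x y : Nm P} {p : P} (a : P ≃o P) (h : Fmem x y p) :
    Fmem (GM.act a x) (GM.act a y) (a p) := by
  intro q hq
  obtain ⟨s, hs, z, c, hz, hc, h1⟩ := h (a.symm q) (a.symm_apply_le.2 hq)
  exact ⟨a s, (a.le_symm_apply).1 hs, _, _, el_act.2 ⟨z, c, hz, rfl, rfl⟩,
    a.le_iff_le.2 hc, h1.act a⟩

theorem elim_act (a : P → P) {n : ℕ} (v : Fin n → Nm P) (s : Fin n ⊕ A) :
    Sum.elim (act a ∘ v) (act a ∘ e) s = act a (Sum.elim v e s) := by
  cases s <;> rfl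

theorem comp_cons {B C : Type*} {n : ℕ} (f : B → C) (v : Fin n → B) (x : B) :
    f ∘ (Fin.cons x v : Fin (n + 1) → B) = Fin.cons (f x) (f ∘ v) := by
  funext i
  refine Fin.cases ?_ (fun i => ?_) i
  · rfl
  · rfl

theorem act_symm_act (a : P ≃o P) (x : Nm P) : act a.symm (act a x) = x := by
  rw [act_act]
  have h : (a.symm : P → P) ∘ (a : P → P) = id := by
    funext p
    simp
  rw [h, act_id]

theorem act_act_symm (a : P ≃o P) (x : Nm P) : act a (act a.symm x) = x := by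
  have h := act_symm_act a.symm x
  simpa using h

theorem Forces.act_aux (a : P ≃o P) (hK : ∀ x ∈ K, act a x ∈ K) (hK' : ∀ x ∈ K, act a.symm x ∈ K) :
    {n : ℕ} → (φ : Fml A n) → (v : Fin n → Nm P) → (p : P) →
    (Forces K (act a ∘ e) φ (act a ∘ v) (a p) ↔ Forces K e φ v p)
  | _, .mem s t, v, p => by
    simp only [Forces, elim_act]
    refine ⟨fun h => ?_, fun h => h.act a⟩
    have h1 := h.act a.symm
    rwa [act_symm_act, act_symm_act, a.symm_apply_apply] at h1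
  | _, .eq s t, v, p => by
    simp only [Forces, elim_act]
    refine ⟨fun h => ?_, fun h => h.act a⟩
    have h1 := h.act a.symm
    rwa [act_symm_act, act_symm_act, a.symm_apply_apply] at h1
  | _, .neg φ, v, p => by
    simp only [Forces]
    constructor
    · intro h q hq h1
      exact h (a q) (a.le_iff_le.2 hq) ((Forces.act_aux a hK hK' φ v q).2 h1)
    · intro h q hq h1
      refine h (a.symm q) (a.symm_apply_le.2 hq) ((Forces.act_aux a hK hK' φ v (a.symm q)).1 ?_)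
      rwa [a.apply_symm_apply]
  | _, .and φ ψ, v, p => by
    simp only [Forces]
    rw [Forces.act_aux a hK hK' φ v p, Forces.act_aux a hK hK' ψ v p]
  | _, .ex φ, v, p => by
    simp only [Forces]
    constructor
    · intro h q hq
      obtain ⟨s, hs, x, hx, h1⟩ := h (a q) (a.le_iff_le.2 hq)
      refine ⟨a.symm s, a.symm_apply_le.2 hs, act a.symm x, hK' x hx, ?_⟩
      rw [← Forces.act_aux a hK hK' φ, comp_cons, act_act_symm, a.apply_symm_apply]
      exact h1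
    · intro h q hq
      obtain ⟨s, hs, x, hx, h1⟩ := h (a.symm q) (a.symm_apply_le.2 hq)
      refine ⟨a s, (a.le_symm_apply).1 hs, act a x, hK x hx, ?_⟩
      rw [← comp_cons]
      exact (Forces.act_aux a hK hK' φ _ _).2 h1

end Pool.Agent.W868.GM
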