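import Pool.Agent.W868.GM.Clo
import Pool.Agent.W868.Nat

/-!
# Operations on symmetric names
-/

set_option autoImplicit false
set_option linter.unusedSectionVars false

namespace Pool.Agent.W868.GM

open Pool.Agent.W868

theorem mv_top (g : Gp) : mv g ⊤ = ⊤ := by
  apply Cd.ext
  ext x
  cases x with
  | c n b => exact Iff.rfl
  | h α n i ξ b => exact Iff.rfl

theorem low_top (β : Ordinal.{0}) : Cd.Low β (⊤ : Cd) := fun _ _ _ _ _ h => h.elim

/-! ### Pairs -/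

/-- The unordered pair. -/
def pairN (x y : Nm Cd) : Nm Cd := .mk Bool (fun b => cond b x y) (fun _ => ⊤)

theorem el_pairN {x y z : Nm Cd} {c : Cd} : El (pairN x y) z c ↔ (z = x ∨ z = y) ∧ c = ⊤ := by
  rw [pairN, el_mk]
  constructor
  · rintro ⟨b, rfl, rfl⟩
    cases b
    · exact ⟨Or.inr rfl, rfl⟩
    · exact ⟨Or.inl rfl, rfl⟩
  · rintro ⟨rfl | rfl, rfl⟩
    · exact ⟨true, rfl, rfl⟩
    · exact ⟨false, rfl, rfl⟩

theorem pairN_KK {w : Bool} {x y : Nm Cd} (hx : x ∈ KK w) (hy : y ∈ KK w) :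
    pairN x y ∈ KK w := by
  obtain ⟨E, hE, h1⟩ := (mem_KK.1 hx).2
  obtain ⟨F, hF, h2⟩ := (mem_KK.1 hy).2
  rw [mem_KK]
  constructor
  · intro z c hz
    obtain ⟨rfl | rfl, -⟩ := el_pairN.1 hz
    · exact hx
    · exact hy
  · refine sym_of (hE.union hF) fun h a hw ha z c hz => ?_
    obtain ⟨h3, rfl⟩ := el_pairN.1 hz
    rw [mv_top]
    rcases h3 with rfl | rfl
    · exact ⟨z, el_pairN.2 ⟨Or.inl rfl, rfl⟩, h1 h a hw fun t ht => ha t (Or.inl ht)⟩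
    · exact ⟨z, el_pairN.2 ⟨Or.inr rfl, rfl⟩, h2 h a hw fun t ht => ha t (Or.inr ht)⟩

/-- The ordered pair. -/
def opN (x y : Nm Cd) : Nm Cd := pairN (pairN x x) (pairN x y)

theorem opN_KK {w : Bool} {x y : Nm Cd} (hx : x ∈ KK w) (hy : y ∈ KK w) : opN x y ∈ KK w :=
  pairN_KK (pairN_KK hx hx) (pairN_KK hx hy)

theorem act_pairN (g : Gp) (x y : Nm Cd) :
    NEq (act (mv g) (pairN x y)) (pairN (act (mv g) x) (act (mv g) y)) := by
  refine neq_iff.2 ⟨fun z c hz => ?_, fun z c hz => ?_⟩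
  · obtain ⟨u, d, hu, rfl, rfl⟩ := el_act.1 hz
    obtain ⟨h3, rfl⟩ := el_pairN.1 hu
    rw [mv_top]
    rcases h3 with rfl | rfl
    · exact ⟨_, el_pairN.2 ⟨Or.inl rfl, rfl⟩, NEq.refl _⟩
    · exact ⟨_, el_pairN.2 ⟨Or.inr rfl, rfl⟩, NEq.refl _⟩
  · obtain ⟨h3, rfl⟩ := el_pairN.1 hz
    rcases h3 with rfl | rfl
    · exact ⟨_, el_act.2 ⟨x, ⊤, el_pairN.2 ⟨Or.inl rfl, rfl⟩, rfl, (mv_top g).symm⟩, NEq.refl _⟩
    · exact ⟨_, el_act.2 ⟨y, ⊤, el_pairN.2 ⟨Or.inr rfl, rfl⟩, rfl, (mv_top g).symm⟩, NEq.refl _⟩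

theorem pairN_congr {x x' y y' : Nm Cd} (hx : NEq x x') (hy : NEq y y') :
    NEq (pairN x y) (pairN x' y') := by
  refine neq_iff.2 ⟨fun z c hz => ?_, fun z c hz => ?_⟩
  · obtain ⟨rfl | rfl, rfl⟩ := el_pairN.1 hz
    · exact ⟨_, el_pairN.2 ⟨Or.inl rfl, rfl⟩, hx⟩
    · exact ⟨_, el_pairN.2 ⟨Or.inr rfl, rfl⟩, hy⟩
  · obtain ⟨rfl | rfl, rfl⟩ := el_pairN.1 hz
    · exact ⟨_, el_pairN.2 ⟨Or.inl rfl, rfl⟩, hx⟩
    · exact ⟨_, el_pairN.2 ⟨Or.inr rfl, rfl⟩, hy⟩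

theorem opN_congr {x x' y y' : Nm Cd} (hx : NEq x x') (hy : NEq y y') :
    NEq (opN x y) (opN x' y') := pairN_congr (pairN_congr hx hx) (pairN_congr hx hy)

theorem act_opN (g : Gp) (x y : Nm Cd) :
    NEq (act (mv g) (opN x y)) (opN (act (mv g) x) (act (mv g) y)) :=
  (act_pairN g _ _).trans (pairN_congr (act_pairN g _ _) (act_pairN g _ _))

theorem lev_pairN {β : Ordinal.{0}} {x y : Nm Cd} (hx : Lev β x) (hy : Lev β y) :
    Lev β (pairN x y) := by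
  rw [lev_iff]
  intro z c hz
  obtain ⟨rfl | rfl, rfl⟩ := el_pairN.1 hz
  · exact ⟨hx, low_top β⟩
  · exact ⟨hy, low_top β⟩

/-! ### Check names -/

/-- The name for a set of the ground model. -/
noncomputable def check : ZFSet.{0} → Nm Cd :=
  ZFSet.mem_wf.fix fun x ih => .mk (Shrink.{0} {y // y ∈ x})
    (fun i => ih ((equivShrink {y // y ∈ x}).symm i).1 ((equivShrink {y // y ∈ x}).symm i).2)
    (fun _ => ⊤)

theorem el_check {x : ZFSet.{0}} {z : Nm Cd} {c : Cd} :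
    El (check x) z c ↔ ∃ y ∈ x, z = check y ∧ c = ⊤ := by
  rw [check, ZFSet.mem_wf.fix_eq, el_mk]
  constructor
  · rintro ⟨i, rfl, rfl⟩
    exact ⟨_, ((equivShrink {y // y ∈ x}).symm i).2, rfl, rfl⟩
  · rintro ⟨y, hy, rfl, rfl⟩
    refine ⟨equivShrink {y // y ∈ x} ⟨y, hy⟩, ?_, rfl⟩
    exact congrArg (fun t : {y // y ∈ x} => (check t.1 : Nm Cd))
      ((equivShrink {y // y ∈ x}).symm_apply_apply ⟨y, hy⟩)

theorem act_check (g : Gp) (x : ZFSet.{0}) : NEq (act (mv g) (check x)) (check x) := by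
  induction x using ZFSet.inductionOn with
  | _ x ih =>
    refine neq_iff.2 ⟨fun z c hz => ?_, fun z c hz => ?_⟩
    · obtain ⟨u, d, hu, rfl, rfl⟩ := el_act.1 hz
      obtain ⟨y, hy, rfl, rfl⟩ := el_check.1 hu
      exact ⟨check y, el_check.2 ⟨y, hy, rfl, mv_top g⟩, ih y hy⟩
    · obtain ⟨y, hy, rfl, rfl⟩ := el_check.1 hz
      exact ⟨_, el_act.2 ⟨check y, ⊤, el_check.2 ⟨y, hy, rfl, rfl⟩, rfl, (mv_top g).symm⟩,
        ih y hy⟩

theorem check_KK (w : Bool) (x : ZFSet.{0}) : check x ∈ KK w := by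
  induction x using ZFSet.inductionOn with
  | _ x ih =>
    rw [mem_KK]
    constructor
    · intro z c hz
      obtain ⟨y, hy, rfl, rfl⟩ := el_check.1 hz
      exact ih y hy
    · exact ⟨∅, Set.finite_empty, fun h a _ _ => act_check _ x⟩

theorem lev_check (β : Ordinal.{0}) (x : ZFSet.{0}) : Lev β (check x) := by
  induction x using ZFSet.inductionOn with
  | _ x ih =>
    rw [lev_iff]
    intro z c hz
    obtain ⟨y, hy, rfl, rfl⟩ := el_check.1 hz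
    exact ⟨ih y hy, low_top β⟩

/-! ### The union -/

theorem mv_cup {h : ℕ → Bool} {a : Ordinal.{0} → ℕ → Equiv.Perm ℕ} {p q : Cd}
    (hc : Cd.Compat p q) : ∃ hc' : Cd.Compat (mv (gV h a) p) (mv (gV h a) q),
      mv (gV h a) (Cd.cup p q hc) = Cd.cup (mv (gV h a) p) (mv (gV h a) q) hc' := by
  refine ⟨Cd.compat_of_le (mv_mono _ (Cd.cup_le_left hc)) (mv_mono _ (Cd.cup_le_right hc)), ?_⟩
  apply Cd.ext
  ext x
  cases x with
  | c n b => exact Iff.rfl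
  | h α n i ξ b =>
    rw [mv_h]
    simp only [gV, Bool.xor_false]
    constructor
    · rintro (h1 | h1)
      · refine Or.inl ?_
        rw [mv_h]
        simpa using h1
      · refine Or.inr ?_
        rw [mv_h]
        simpa using h1
    · rintro (h1 | h1)
      · rw [mv_h] at h1
        exact Or.inl (by simpa using h1)
      · rw [mv_h] at h1
        exact Or.inr (by simpa using h1)

/-- The union. -/
def unionN (x : Nm Cd) : Nm Cd :=
  .mk (Σ (i : x.idx), {j : (x.chd i).idx // Cd.Compat (x.cnd i) ((x.chd i).cnd j)})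
    (fun t => (x.chd t.1).chd t.2.1) (fun t => Cd.cup _ _ t.2.2)

theorem el_unionN {x z : Nm Cd} {r : Cd} : El (unionN x) z r ↔
    ∃ y c d, El x y c ∧ El y z d ∧ ∃ h : Cd.Compat c d, r = Cd.cup c d h := by
  rw [unionN, el_mk]
  constructor
  · rintro ⟨⟨i, j, h⟩, rfl, rfl⟩
    exact ⟨_, _, _, ⟨i, rfl, rfl⟩, ⟨j, rfl, rfl⟩, h, rfl⟩
  · rintro ⟨_, _, _, ⟨i, rfl, rfl⟩, ⟨j, rfl, rfl⟩, h, rfl⟩
    exact ⟨⟨i, j, h⟩, rfl, rfl⟩

theorem unionN_KK {w : Bool} {x : Nm Cd} (hx : x ∈ KK w) : unionN x ∈ KK w := by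
  obtain ⟨E, hE, h1⟩ := (mem_KK.1 hx).2
  rw [mem_KK]
  constructor
  · intro z c hz
    obtain ⟨y, c, d, h2, h3, -⟩ := el_unionN.1 hz
    exact (mem_KK.1 ((mem_KK.1 hx).1 _ _ h2)).1 _ _ h3
  · refine sym_of hE fun h a hw ha z c hz => ?_
    obtain ⟨y, c, d, h2, h3, hc, rfl⟩ := el_unionN.1 hz
    obtain ⟨y', hy', h4⟩ := (neq_iff.1 (h1 h a hw ha)).1 _ _ (el_act.2 ⟨y, c, h2, rfl, rfl⟩)
    obtain ⟨z', hz', h5⟩ := (neq_iff.1 h4).1 _ _ (el_act.2 ⟨z, d, h3, rfl, rfl⟩)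
    obtain ⟨hc', h6⟩ := mv_cup (h := h) (a := a) hc
    exact ⟨z', el_unionN.2 ⟨y', _, _, hy', hz', hc', h6⟩, h5⟩

/-! ### Parameters -/

/-- The names that are fixed by the automorphisms that fix the coordinates in `E`. -/
def FixN (w : Bool) (E : Set Co) : Set (Nm Cd) :=
  {x | ∀ h a, (w = true → h = fun _ => false) → Fix E a → NEq (act (mv (gV h a)) x) x}

theorem FixN.mono {w : Bool} {E F : Set Co} (h : E ⊆ F) : FixN w E ⊆ FixN w F :=
  fun _ hx k a hw ha => hx k a hw fun t ht => ha t (h ht)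

theorem exists_fixN {w : Bool} : {n : ℕ} → (φ : Fml (Nm Cd) n) → φ.Over (KK w) →
    ∃ E : Set Co, E.Finite ∧ φ.Over (FixN w E)
  | _, .mem s t, h => by
    have key : ∀ {n : ℕ} (s : Fin n ⊕ Nm Cd), TOver (KK w) s →
        ∃ E : Set Co, E.Finite ∧ TOver (FixN w E) s := by
      intro n s hs
      cases s with
      | inl i => exact ⟨∅, Set.finite_empty, TOver.inl i⟩
      | inr x =>
        obtain ⟨E, hE, h1⟩ := (mem_KK.1 (hs x rfl)).2
        exact ⟨E, hE, tOver_inr.2 h1⟩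
    obtain ⟨E, hE, h1⟩ := key s h.1
    obtain ⟨F, hF, h2⟩ := key t h.2
    exact ⟨E ∪ F, hE.union hF, h1.mono (FixN.mono Set.subset_union_left),
      h2.mono (FixN.mono Set.subset_union_right)⟩
  | _, .eq s t, h => by
    have key : ∀ {n : ℕ} (s : Fin n ⊕ Nm Cd), TOver (KK w) s →
        ∃ E : Set Co, E.Finite ∧ TOver (FixN w E) s := by
      intro n s hs
      cases s with
      | inl i => exact ⟨∅, Set.finite_empty, TOver.inl i⟩
      | inr x =>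
        obtain ⟨E, hE, h1⟩ := (mem_KK.1 (hs x rfl)).2
        exact ⟨E, hE, tOver_inr.2 h1⟩
    obtain ⟨E, hE, h1⟩ := key s h.1
    obtain ⟨F, hF, h2⟩ := key t h.2
    exact ⟨E ∪ F, hE.union hF, h1.mono (FixN.mono Set.subset_union_left),
      h2.mono (FixN.mono Set.subset_union_right)⟩
  | _, .neg φ, h => exists_fixN φ h
  | _, .and φ ψ, h => by
    obtain ⟨E, hE, h1⟩ := exists_fixN φ h.1
    obtain ⟨F, hF, h2⟩ := exists_fixN ψ h.2
    exact ⟨E ∪ F, hE.union hF, Fml.Over.mono (φ := φ) (FixN.mono Set.subset_union_left) h1,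
      Fml.Over.mono (φ := ψ) (FixN.mono Set.subset_union_right) h2⟩
  | _, .ex φ, h => exists_fixN φ h

theorem exists_fixN' {w : Bool} {n : ℕ} (v : Fin n → Nm Cd) (hv : ∀ i, v i ∈ KK w) :
    ∃ E : Set Co, E.Finite ∧ ∀ i, v i ∈ FixN w E := by
  choose E hE h1 using fun i => (mem_KK.1 (hv i)).2
  exact ⟨⋃ i, E i, Set.finite_iUnion hE, fun i =>
    FixN.mono (Set.subset_iUnion E i) (h1 i)⟩

theorem exists_levF : {n : ℕ} → (φ : Fml (Nm Cd) n) → ∃ β, φ.Over {x | Lev β x}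
  | _, .mem s t => by
    have key : ∀ {n : ℕ} (s : Fin n ⊕ Nm Cd), ∃ β, TOver {x | Lev β x} s := by
      intro n s
      cases s with
      | inl i => exact ⟨0, TOver.inl i⟩
      | inr x =>
        obtain ⟨β, h1⟩ := exists_lev x
        exact ⟨β, tOver_inr.2 h1⟩
    obtain ⟨β, h1⟩ := key s
    obtain ⟨γ, h2⟩ := key t
    exact ⟨max β γ, h1.mono fun x hx => Lev.mono hx (le_max_left _ _),
      h2.mono fun x hx => Lev.mono hx (le_max_right _ _)⟩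
  | _, .eq s t => by
    have key : ∀ {n : ℕ} (s : Fin n ⊕ Nm Cd), ∃ β, TOver {x | Lev β x} s := by
      intro n s
      cases s with
      | inl i => exact ⟨0, TOver.inl i⟩
      | inr x =>
        obtain ⟨β, h1⟩ := exists_lev x
        exact ⟨β, tOver_inr.2 h1⟩
    obtain ⟨β, h1⟩ := key s
    obtain ⟨γ, h2⟩ := key t
    exact ⟨max β γ, h1.mono fun x hx => Lev.mono hx (le_max_left _ _),
      h2.mono fun x hx => Lev.mono hx (le_max_right _ _)⟩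
  | _, .neg φ => exists_levF φ
  | _, .and φ ψ => by
    obtain ⟨β, h1⟩ := exists_levF φ
    obtain ⟨γ, h2⟩ := exists_levF ψ
    exact ⟨max β γ, Fml.Over.mono (φ := φ) (fun x hx => Lev.mono hx (le_max_left _ _)) h1,
      Fml.Over.mono (φ := ψ) (fun x hx => Lev.mono hx (le_max_right _ _)) h2⟩
  | _, .ex φ => exists_levF φ

theorem exists_levV {n : ℕ} (v : Fin n → Nm Cd) : ∃ β, ∀ i, Lev β (v i) := by
  choose f hf using fun i => exists_lev (v i)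
  obtain ⟨β, hβ⟩ := (Set.finite_range f).bddAbove
  exact ⟨β, fun i => (hf i).mono (hβ ⟨i, rfl⟩)⟩

theorem exists_bd {n : ℕ} (φ : Fml (Nm Cd) n) {m : ℕ} (v : Fin m → Nm Cd) (x : Nm Cd) :
    ∃ β, φ.Over {x | Lev β x} ∧ (∀ i, Lev β (v i)) ∧ Lev β x ∧
      Cardinal.mk x.idx ≤ Cardinal.mk (Y β) := by
  obtain ⟨β1, h1⟩ := exists_levF φ
  obtain ⟨β2, h2⟩ := exists_levV v
  obtain ⟨β3, h3⟩ := exists_lev x
  obtain ⟨β4, h4⟩ := card_cof x.idx
  refine ⟨max (max β1 β2) (max β3 β4), ?_, fun i => ?_, ?_, ?_⟩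
  · exact Fml.Over.mono (φ := φ) (fun x hx => Lev.mono hx
      ((le_max_left _ _).trans (le_max_left _ _))) h1
  · exact (h2 i).mono ((le_max_right _ _).trans (le_max_left _ _))
  · exact h3.mono ((le_max_left _ _).trans (le_max_right _ _))
  · exact h4 _ ((le_max_right _ _).trans (le_max_right _ _))

/-- A bound for the levels. -/
noncomputable def bd {n : ℕ} (φ : Fml (Nm Cd) n) {m : ℕ} (v : Fin m → Nm Cd) (x : Nm Cd) :
    Ordinal.{0} := (exists_bd φ v x).choose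

theorem bd_spec {n : ℕ} (φ : Fml (Nm Cd) n) {m : ℕ} (v : Fin m → Nm Cd) (x : Nm Cd) :
    φ.Over {y | Lev (bd φ v x) y} ∧ (∀ i, Lev (bd φ v x) (v i)) ∧ Lev (bd φ v x) x ∧
      Cardinal.mk x.idx ≤ Cardinal.mk (Y (bd φ v x)) := (exists_bd φ v x).choose_spec

/-! ### Separation -/

/-- Separation. -/
noncomputable def sepN (w : Bool) {n : ℕ} (φ : Fml (Nm Cd) (n + 1)) (v : Fin n → Nm Cd)
    (x : Nm Cd) : Nm Cd :=
  subn (bd φ v x) x fun i r => Forces (KK w) id φ (Fin.cons (x.chd i) v) r.toCd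

theorem forces_act {w : Bool} {n : ℕ} {φ : Fml (Nm Cd) n} {v v' : Fin n → Nm Cd} {E : Set Co}
    {h : ℕ → Bool} {a : Ordinal.{0} → ℕ → Equiv.Perm ℕ} (hw : w = true → h = fun _ => false)
    (ha : Fix E a) (hφ : φ.Over (FixN w E)) (hv : ∀ i, NEq (act (mv (gV h a)) (v i)) (v' i))
    {p : Cd} (hf : Forces (KK w) id φ v p) : Forces (KK w) id φ v' (mv (gV h a) p) := by
  have h2 := (Forces.act_aux (aut (gV h a)) (KK.act_iff (w := w) _ fun _ => rfl).1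
    (KK.act_iff _ fun _ => rfl).2 φ v p (e := id)).2 hf
  exact Forces.congr (S := FixN w E) (fun b (hb : b ∈ FixN w E) => hb h a hw ha) φ hφ hv h2

theorem sepN_KK {w : Bool} {n : ℕ} {φ : Fml (Nm Cd) (n + 1)} {v : Fin n → Nm Cd} {x : Nm Cd}
    (hφ : φ.Over (KK w)) (hv : ∀ i, v i ∈ KK w) (hx : x ∈ KK w) : sepN w φ v x ∈ KK w := by
  obtain ⟨E1, hE1, h1⟩ := exists_fixN φ hφ
  obtain ⟨E2, hE2, h2⟩ := exists_fixN' v hv
  obtain ⟨E3, hE3, h3⟩ := (mem_KK.1 hx).2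
  rw [mem_KK]
  constructor
  · intro z c hz
    obtain ⟨i, r, -, -, rfl, rfl⟩ := el_subn.1 hz
    exact (mem_KK.1 hx).1 _ _ ⟨i, rfl, rfl⟩
  · refine sym_of ((hE1.union hE2).union hE3) fun h a hw ha z c hz => ?_
    obtain ⟨i, r, h4, h5, rfl, rfl⟩ := el_subn.1 hz
    have ha1 : Fix E1 a := fun t ht => ha t (Or.inl (Or.inl ht))
    have ha2 : Fix E2 a := fun t ht => ha t (Or.inl (Or.inr ht))
    have ha3 : Fix E3 a := fun t ht => ha t (Or.inr ht)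
    obtain ⟨j, hj1, hj2⟩ := neq_idx (h3 h a hw ha3) i
    obtain ⟨r', hr'⟩ := Cd.exists_R (low_mv (gV h a) r.low)
    refine ⟨x.chd j, ?_, hj1⟩
    rw [← hr']
    refine el_subn.2 ⟨j, r', ?_, ?_, rfl, rfl⟩
    · rw [hr', ← hj2]
      exact mv_mono _ h4
    · rw [hr']
      refine forces_act hw ha1 h1 (fun i => ?_) h5
      refine Fin.cases ?_ (fun i => ?_) i
      · exact hj1
      · exact h2 i h a hw ha2

/-! ### The power set -/

/-- The power set. -/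
noncomputable def powN (w : Bool) (x : Nm Cd) : Nm Cd :=
  .mk {S : x.idx → Cd.R (bd (.eq (Sum.inr x) (Sum.inr x) : Fml (Nm Cd) 0) Fin.elim0 x) → Prop //
      subn _ x S ∈ KK w} (fun S => subn _ x S.1) (fun _ => ⊤)

/-- The level of the names for the subsets. -/
noncomputable def pl (x : Nm Cd) : Ordinal.{0} :=
  bd (.eq (Sum.inr x) (Sum.inr x) : Fml (Nm Cd) 0) Fin.elim0 x

theorem pl_spec (x : Nm Cd) : Lev (pl x) x ∧ Cardinal.mk x.idx ≤ Cardinal.mk (Y (pl x)) :=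
  (bd_spec (.eq (Sum.inr x) (Sum.inr x) : Fml (Nm Cd) 0) Fin.elim0 x).2.2

theorem el_powN {w : Bool} {x z : Nm Cd} {c : Cd} : El (powN w x) z c ↔
    ∃ S, subn (pl x) x S ∈ KK w ∧ z = subn (pl x) x S ∧ c = ⊤ := by
  rw [powN, el_mk]
  constructor
  · rintro ⟨⟨S, hS⟩, rfl, rfl⟩
    exact ⟨S, hS, rfl, rfl⟩
  · rintro ⟨S, hS, rfl, rfl⟩
    exact ⟨⟨S, hS⟩, rfl, rfl⟩

theorem KK.congr {w : Bool} {x y : Nm Cd} (hx : x ∈ KK w) (h : NEq x y) : y ∈ KK w := by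
  induction x using el_ind generalizing y with
  | h x ih =>
    rw [mem_KK] at hx ⊢
    constructor
    · intro z c hz
      obtain ⟨u, hu, h1⟩ := (neq_iff.1 h).2 z c hz
      exact ih u c hu (hx.1 u c hu) h1
    · obtain ⟨E, hE, h1⟩ := hx.2
      exact ⟨E, hE, fun k a hk ha => (h.symm.act _).trans ((h1 k a hk ha).trans h)⟩

theorem act_subn {w : Bool} {β : Ordinal.{0}} {x : Nm Cd} {S : x.idx → Cd.R β → Prop}
    (h : ℕ → Bool) (a : Ordinal.{0} → ℕ → Equiv.Perm ℕ)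
    (hx : NEq (act (mv (gV h a)) x) x) (hS : subn β x S ∈ KK w)  :
    ∃ S', subn β x S' ∈ KK w ∧ NEq (act (mv (gV h a)) (subn β x S)) (subn β x S') := by
  have h1 : NEq (act (mv (gV h a)) (subn β x S)) (subn β x fun j r => ∃ i r0, S i r0 ∧
      r0.toCd ≤ x.cnd i ∧ NEq (act (mv (gV h a)) (x.chd i)) (x.chd j) ∧
      mv (gV h a) (x.cnd i) = x.cnd j ∧ r.toCd = mv (gV h a) r0.toCd) := by
    refine neq_iff.2 ⟨fun z c hz => ?_, fun z c hz => ?_⟩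
    · obtain ⟨u, d, hu, rfl, rfl⟩ := el_act.1 hz
      obtain ⟨i, r, h4, h5, rfl, rfl⟩ := el_subn.1 hu
      obtain ⟨j, hj1, hj2⟩ := neq_idx hx i
      obtain ⟨r', hr'⟩ := Cd.exists_R (low_mv (gV h a) r.low)
      refine ⟨x.chd j, el_subn.2 ⟨j, r', ?_, ⟨i, r, h5, h4, hj1, hj2, hr'⟩, rfl, hr'.symm⟩, hj1⟩
      rw [hr', ← hj2]
      exact mv_mono _ h4
    · obtain ⟨j, r, h4, ⟨i, r0, h5, h6, h7, h8, h9⟩, rfl, rfl⟩ := el_subn.1 hz
      exact ⟨_, el_act.2 ⟨x.chd i, r0.toCd, el_subn.2 ⟨i, r0, h6, h5, rfl, rfl⟩, rfl, h9⟩, h7⟩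
  exact ⟨_, KK.congr (KK.act hS _ fun _ => rfl) h1, h1⟩

theorem powN_KK {w : Bool} {x : Nm Cd} (hx : x ∈ KK w) : powN w x ∈ KK w := by
  obtain ⟨E, hE, h1⟩ := (mem_KK.1 hx).2
  rw [mem_KK]
  constructor
  · intro z c hz
    obtain ⟨S, hS, rfl, rfl⟩ := el_powN.1 hz
    exact hS
  · refine sym_of hE fun h a hw ha z c hz => ?_
    obtain ⟨S, hS, rfl, rfl⟩ := el_powN.1 hz
    obtain ⟨S', hS', h2⟩ := act_subn h a (h1 h a hw ha) hS
    exact ⟨_, el_powN.2 ⟨S', hS', rfl, mv_top _⟩, h2⟩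

end Pool.Agent.W868.GM
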