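import Pool.Agent.W868.GM.Zfm

/-!
# Special names
-/

set_option autoImplicit false
set_option linter.unusedSectionVars false

namespace Pool.Agent.W868.GM

open Pool.Agent.W868

/-! ### The first coordinate of a condition -/

/-- The first coordinate of a condition, a finite partial function. -/
noncomputable def cp (p : Cd) : Finset (ℕ × Bool) :=
  Set.Finite.toFinset (s := {t : ℕ × Bool | At.c t.1 t.2 ∈ p.s})
    ((p.nc.prod (Set.finite_univ (α := Bool))).subset fun t ht => ⟨⟨t.2, ht⟩, trivial⟩)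

theorem mem_cp {p : Cd} {n : ℕ} {b : Bool} : (n, b) ∈ cp p ↔ At.c n b ∈ p.s := by
  simp [cp]

/-- The set is a partial function. -/
def Fn (F : Finset (ℕ × Bool)) : Prop := ∀ n b, (n, b) ∈ F → (n, !b) ∉ F

theorem fn_cp (p : Cd) : Fn (cp p) := by
  intro n b h h'
  rw [mem_cp] at h h'
  exact p.fc n b h h'

open Classical in
/-- The partial function with the given code. -/
noncomputable def dk (m : ℕ) : Finset (ℕ × Bool) :=
  if Fn ((Encodable.decode m).getD ∅) then (Encodable.decode m).getD ∅ else ∅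

theorem fn_dk (m : ℕ) : Fn (dk m) := by
  unfold dk
  split_ifs with h
  · exact h
  · intro n b h
    simp at h

/-- The code. -/
def ck (F : Finset (ℕ × Bool)) : ℕ := Encodable.encode F

theorem dk_ck {F : Finset (ℕ × Bool)} (hF : Fn F) : dk (ck F) = F := by
  simp [dk, ck, hF]

/-- The condition given by a finite partial function. -/
def cdc (F : Finset (ℕ × Bool)) (hF : Fn F) : Cd where
  s := {x | ∃ n b, x = At.c n b ∧ (n, b) ∈ F}
  fc := by
    rintro n b ⟨n', b', h1, h2⟩ ⟨n'', b'', h3, h4⟩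
    rw [At.c.injEq] at h1 h3
    rw [← h1.1, ← h1.2] at h2
    rw [← h3.1, ← h3.2] at h4
    exact hF _ _ h2 h4
  fh := by
    rintro α n i ξ b ⟨n', b', h1, h2⟩
    cases h1
  nc := by
    refine (F.finite_toSet.image Prod.fst).subset ?_
    rintro n ⟨b, n', b', h1, h2⟩
    rw [At.c.injEq] at h1
    rw [← h1.1] at h2
    exact ⟨(n, b'), h2, rfl⟩
  nh := by
    refine Set.Finite.subset Set.finite_empty ?_
    rintro t ⟨ξ, b, n', b', h1, h2⟩
    cases h1
  dm := by
    rintro α n i ξ b ⟨n', b', h1, h2⟩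
    cases h1
  sz := by
    intro α n i
    have h1 : {ξ : X α | ∃ b, At.h α n i ξ b ∈ {x | ∃ n b, x = At.c n b ∧ (n, b) ∈ F}} = ∅ := by
      ext ξ
      simp
    rw [h1]
    simp

theorem cdc_c {F : Finset (ℕ × Bool)} {hF : Fn F} {n : ℕ} {b : Bool} :
    At.c n b ∈ (cdc F hF).s ↔ (n, b) ∈ F := by
  constructor
  · rintro ⟨n', b', h1, h2⟩
    rw [At.c.injEq] at h1
    rwa [h1.1, h1.2]
  · intro h
    exact ⟨n, b, rfl, h⟩

theorem cdc_h {F : Finset (ℕ × Bool)} {hF : Fn F} {α : Ordinal.{0}} {n i : ℕ} {ξ : X α}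
    {b : Bool} : At.h α n i ξ b ∉ (cdc F hF).s := by
  rintro ⟨n', b', h1, h2⟩
  cases h1

theorem le_cdc {F : Finset (ℕ × Bool)} {hF : Fn F} {p : Cd} : p ≤ cdc F hF ↔ F ⊆ cp p := by
  constructor
  · rintro h ⟨n, b⟩ ht
    exact mem_cp.2 (h (cdc_c.2 ht))
  · rintro h x ⟨n, b, rfl, h1⟩
    exact mem_cp.1 (h h1)

theorem cp_mono {p q : Cd} (h : p ≤ q) : cp q ⊆ cp p := by
  rintro ⟨n, b⟩ ht
  exact mem_cp.2 (h (mem_cp.1 ht))

theorem cp_gV {a : Ordinal.{0} → ℕ → Equiv.Perm ℕ} (p : Cd) :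
    cp (mv (gV (fun _ => false) a) p) = cp p := by
  ext ⟨n, b⟩
  rw [mem_cp, mem_cp, mv_c]
  simp [gV]

/-- The name of the generic filter. -/
noncomputable def gcN : Nm Cd := .mk ℕ (fun m => check (nat m)) (fun m => cdc (dk m) (fn_dk m))

theorem gcN_KK : gcN ∈ KK true := by
  rw [mem_KK]
  constructor
  · rintro z c ⟨m, rfl, rfl⟩
    exact check_KK _ _
  · refine sym_of Set.finite_empty fun h a hh _ z c hz => ?_
    obtain ⟨m, rfl, rfl⟩ := hz
    refine ⟨_, ⟨m, rfl, ?_⟩, act_check _ _⟩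
    rw [hh rfl]
    apply Cd.ext
    ext x
    cases x with
    | c n b =>
      rw [mv_c]
      simp only [gV, Bool.xor_false]
    | h α n i ξ b =>
      rw [mv_h]
      exact iff_of_false (cdc_h (hF := fn_dk m)) (cdc_h (hF := fn_dk m))

/-- The name of a relation on the natural numbers. -/
noncomputable def relN (R : ℕ → ℕ → Prop) : Nm Cd :=
  .mk {t : ℕ × ℕ // R t.1 t.2} (fun t => opN (check (nat t.1.1)) (check (nat t.1.2))) (fun _ => ⊤)

theorem relN_KK (w : Bool) (R : ℕ → ℕ → Prop) : relN R ∈ KK w := by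
  rw [mem_KK]
  constructor
  · rintro z c ⟨t, rfl, rfl⟩
    exact opN_KK (check_KK _ _) (check_KK _ _)
  · refine sym_of Set.finite_empty fun h a _ _ z c hz => ?_
    obtain ⟨t, rfl, rfl⟩ := hz
    exact ⟨_, ⟨t, rfl, (mv_top _).symm⟩, (act_opN _ _ _).trans
      (opN_congr (act_check _ _) (act_check _ _))⟩

/-! ### The generic subsets -/

/-- The code of a position. -/
noncomputable def xi {β : Ordinal.{0}} (ξ : X β) : ZFSet.{0} :=
  (Ordinal.typein (α := X β) WellOrderingRel ξ).toZFSet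

theorem xi_injective {β : Ordinal.{0}} : Function.Injective (xi (β := β)) := by
  intro ξ ξ' h
  exact Ordinal.typein_injective WellOrderingRel (Ordinal.toZFSet_injective h)

/-- The condition that decides one bit. -/
def cnd2 (β : Ordinal.{0}) (n i : ℕ) (b : Bool) (ξ : X β) (b' : Bool) : Cd where
  s := {At.c n b, At.h β n i ξ b'}
  fc := by
    rintro m c h h'
    simp only [Set.mem_insert_iff, At.c.injEq, Set.mem_singleton_iff, reduceCtorEq,
      or_false] at h h'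
    rw [h.2] at h'
    simp at h'
  fh := by
    rintro α m j ζ c h h'
    simp only [Set.mem_insert_iff, reduceCtorEq, Set.mem_singleton_iff, At.h.injEq,
      false_or] at h h'
    rw [h.2.2.2.2] at h'
    simp at h'
  nc := by
    refine (Set.finite_singleton n).subset ?_
    rintro m ⟨c, h⟩
    simp only [Set.mem_insert_iff, At.c.injEq, Set.mem_singleton_iff, reduceCtorEq,
      or_false] at h
    exact h.1
  nh := by
    refine (Set.finite_singleton (β, n, i)).subset ?_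
    rintro ⟨α, m, j⟩ ⟨ζ, c, h⟩
    simp only [Set.mem_insert_iff, reduceCtorEq, Set.mem_singleton_iff, At.h.injEq,
      false_or] at h
    rw [h.1, h.2.1, h.2.2.1]
    rfl
  dm := by
    rintro α m j ζ c h
    simp only [Set.mem_insert_iff, reduceCtorEq, Set.mem_singleton_iff, At.h.injEq,
      false_or] at h
    exact ⟨b, Or.inl (by rw [h.2.1])⟩
  sz := by
    intro α m j
    by_cases hα : α = β
    · subst hα
      refine (Cardinal.mk_le_mk_of_subset (t := {ξ}) ?_).trans ?_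
      · rintro ζ ⟨c, h⟩
        simp only [Set.mem_insert_iff, reduceCtorEq, Set.mem_singleton_iff, At.h.injEq,
          false_or, true_and, heq_eq_eq] at h
        exact h.2.2.1
      · rw [Cardinal.mk_singleton]
        exact Cardinal.one_le_aleph0.trans (aleph0_le α)
    · have h1 : {ζ : X α | ∃ c, At.h α m j ζ c ∈ ({At.c n b, At.h β n i ξ b'} : Set At)} = ∅ := by
        ext ζ
        simp only [Set.mem_insert_iff, reduceCtorEq, Set.mem_singleton_iff, At.h.injEq,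
          false_or, Set.mem_ofPred_eq, Set.mem_empty_iff_false, iff_false]
        rintro ⟨c, h2, -⟩
        exact hα h2
      rw [h1]
      simp

theorem cnd2_c {β : Ordinal.{0}} {n i m : ℕ} {b b' c : Bool} {ξ : X β} :
    At.c m c ∈ (cnd2 β n i b ξ b').s ↔ m = n ∧ c = b := by
  simp [cnd2]

theorem cnd2_h {β : Ordinal.{0}} {n i m j : ℕ} {b b' c : Bool} {ξ ζ : X β} :
    At.h β m j ζ c ∈ (cnd2 β n i b ξ b').s ↔ m = n ∧ j = i ∧ ζ = ξ ∧ c = b' := by
  simp [cnd2]

theorem cnd2_h' {α β : Ordinal.{0}} {n i m j : ℕ} {b b' c : Bool} {ξ : X β} {ζ : X α}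
    (h : At.h α m j ζ c ∈ (cnd2 β n i b ξ b').s) : α = β := by
  simp only [cnd2, Set.mem_insert_iff, reduceCtorEq, Set.mem_singleton_iff, At.h.injEq,
    false_or] at h
  exact h.1

theorem mv_cnd2 (g : Gp) (β : Ordinal.{0}) (n i : ℕ) (b : Bool) (ξ : X β) (b' : Bool) :
    mv g (cnd2 β n i b ξ b') = cnd2 β n (g.a β n i) (b ^^ g.h n) ξ (b' ^^ g.t β n b) := by
  apply Cd.ext
  ext x
  cases x with
  | c m c =>
    rw [mv_c, cnd2_c, cnd2_c]
    refine and_congr_right fun h => ?_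
    subst h
    cases c <;> cases b <;> cases g.h m <;> simp
  | h α m j ζ c =>
    rw [mv_h]
    have hb : bt (cnd2 β n i b ξ b') n = b := bt_eq (cnd2_c.2 ⟨rfl, rfl⟩)
    constructor
    · intro h
      obtain rfl := cnd2_h' h
      rw [cnd2_h] at h ⊢
      obtain ⟨rfl, h1, h2, h3⟩ := h
      refine ⟨rfl, ?_, h2, ?_⟩
      · rw [← h1, Equiv.apply_symm_apply]
      · rw [hb] at h3
        rw [← h3]
        simp
    · intro h
      obtain rfl := cnd2_h' h
      rw [cnd2_h] at h ⊢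
      obtain ⟨rfl, h1, h2, h3⟩ := h
      refine ⟨rfl, ?_, h2, ?_⟩
      · rw [h1, Equiv.symm_apply_apply]
      · rw [hb, h3]
        simp

/-- The name of a generic subset. -/
noncomputable def aN (β : Ordinal.{0}) (n i : ℕ) (u : Bool → Bool) : Nm Cd :=
  .mk (Bool × X β) (fun t => check (xi t.2)) (fun t => cnd2 β n i t.1 t.2 (u t.1))

theorem act_aN (g : Gp) (β : Ordinal.{0}) (n i : ℕ) (u : Bool → Bool) :
    NEq (act (mv g) (aN β n i u)) (aN β n (g.a β n i)
      fun b => u (b ^^ g.h n) ^^ g.t β n (b ^^ g.h n)) := by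
  refine neq_iff.2 ⟨fun z c hz => ?_, fun z c hz => ?_⟩
  · obtain ⟨y, d, ⟨⟨b, ξ⟩, rfl, rfl⟩, rfl, rfl⟩ := el_act.1 hz
    refine ⟨check (xi ξ), ⟨(b ^^ g.h n, ξ), rfl, ?_⟩, act_check _ _⟩
    change cnd2 _ _ _ _ _ _ = mv g (cnd2 _ _ _ _ _ _)
    rw [mv_cnd2]
    simp
  · obtain ⟨⟨b, ξ⟩, rfl, rfl⟩ := hz
    refine ⟨_, el_act.2 ⟨check (xi ξ), _, ⟨(b ^^ g.h n, ξ), rfl, rfl⟩, rfl, ?_⟩,
      act_check _ _⟩
    change cnd2 _ _ _ _ _ _ = mv g (cnd2 _ _ _ _ _ _)
    rw [mv_cnd2]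
    simp

theorem aN_KK (w : Bool) (β : Ordinal.{0}) (n i : ℕ) : aN β n i (fun _ => true) ∈ KK w := by
  rw [mem_KK]
  constructor
  · rintro z c ⟨t, rfl, rfl⟩
    exact check_KK _ _
  · refine ⟨{(β, n, i)}, Set.finite_singleton _, fun h a _ ha => ?_⟩
    have h1 := act_aN (gV h a) β n i (fun _ => true)
    have h2 : a β n i = i := ha (β, n, i) rfl
    simp only [gV, Bool.xor_false] at h1
    rwa [h2] at h1

/-- The name of the set of the pairs of `n` and a generic subset on the coordinate `(β, n, i)`. -/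
noncomputable def SN (β : Ordinal.{0}) (U : ℕ → Bool → Bool) : Nm Cd :=
  .mk (ℕ × ℕ) (fun t => opN (check (nat t.1)) (aN β t.1 t.2 (U t.1))) (fun _ => ⊤)

theorem act_SN (g : Gp) (β : Ordinal.{0}) (U : ℕ → Bool → Bool) :
    NEq (act (mv g) (SN β U)) (SN β fun n b => U n (b ^^ g.h n) ^^ g.t β n (b ^^ g.h n)) := by
  refine neq_iff.2 ⟨fun z c hz => ?_, fun z c hz => ?_⟩
  · obtain ⟨y, d, ⟨⟨n, i⟩, rfl, rfl⟩, rfl, rfl⟩ := el_act.1 hz
    exact ⟨_, ⟨(n, g.a β n i), rfl, (mv_top _).symm⟩, (act_opN _ _ _).trans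
      (opN_congr (act_check _ _) (act_aN _ _ _ _ _))⟩
  · obtain ⟨⟨n, i⟩, rfl, rfl⟩ := hz
    refine ⟨_, el_act.2 ⟨_, _, ⟨(n, (g.a β n).symm i), rfl, rfl⟩, rfl, (mv_top _).symm⟩, ?_⟩
    have h1 := act_aN g β n ((g.a β n).symm i) (U n)
    rw [Equiv.apply_symm_apply] at h1
    exact (act_opN _ _ _).trans (opN_congr (act_check _ _) h1)

theorem SN_KK (w : Bool) (β : Ordinal.{0}) : SN β (fun _ _ => true) ∈ KK w := by
  rw [mem_KK]
  constructor
  · rintro z c ⟨t, rfl, rfl⟩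
    exact opN_KK (check_KK _ _) (aN_KK _ _ _ _)
  · refine ⟨∅, Set.finite_empty, fun h a _ _ => ?_⟩
    have h1 := act_SN (gV h a) β (fun _ _ => true)
    simpa only [gV, Bool.xor_false] using h1

/-- The twist. -/
noncomputable def tw (β : Ordinal.{0}) : Gp :=
  ⟨fun _ => false, fun _ _ => 1, fun α _ b => if β ≤ α then b else false⟩

theorem act_tw (β : Ordinal.{0}) :
    NEq (act (mv (tw β)) (SN β fun _ _ => true)) (SN β fun _ b => !b) := by
  have h1 := act_SN (tw β) β (fun _ _ => true)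
  simpa only [tw, Bool.xor_false, le_refl, if_true, Bool.true_xor] using h1

theorem TN_KK (β : Ordinal.{0}) : SN β (fun _ b => !b) ∈ KK true :=
  KK.congr (KK.act (SN_KK true β) (tw β) (by simp)) (act_tw β)

theorem tw_low {β : Ordinal.{0}} {p : Cd} (hp : Cd.Low β p) : mv (tw β) p = p :=
  mv_low rfl (fun _ _ => rfl) (fun α hα => by
    funext n b
    simp [tw, not_le.2 hα]) hp

theorem tw_lev {β : Ordinal.{0}} {x : Nm Cd} (hx : Lev β x) : act (mv (tw β)) x = x :=
  act_lev rfl (fun _ _ => rfl) (fun α hα => by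
    funext n b
    simp [tw, not_le.2 hα]) hx

/-! ### Names of names -/

/-- The name of the name `x` in the smaller model. -/
noncomputable def sg : Nm Cd → Nm Cd
  | .mk ι x c => .mk (ι × (ℕ → Bool)) (fun t => opN (sg (x t.1)) (check (nat (ck (cp (c t.1))))))
      (fun t => mv (gV t.2 fun _ _ => 1) (c t.1))

theorem el_sg {x z : Nm Cd} {c : Cd} : El (sg x) z c ↔ ∃ y d h, El x y d ∧
    z = opN (sg y) (check (nat (ck (cp d)))) ∧ c = mv (gV h fun _ _ => 1) d := by
  cases x with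
  | mk ι x e =>
    rw [sg, el_mk]
    constructor
    · rintro ⟨⟨i, h⟩, rfl, rfl⟩
      exact ⟨_, _, h, ⟨i, rfl, rfl⟩, rfl, rfl⟩
    · rintro ⟨_, _, h, ⟨i, rfl, rfl⟩, rfl, rfl⟩
      exact ⟨(i, h), rfl, rfl⟩

theorem sg_congr {x y : Nm Cd} (h : NEq x y) : NEq (sg x) (sg y) := by
  induction x using el_ind generalizing y with
  | h x ih =>
    refine neq_iff.2 ⟨fun z c hz => ?_, fun z c hz => ?_⟩
    · obtain ⟨u, d, k, h1, rfl, rfl⟩ := el_sg.1 hz
      obtain ⟨v, h2, h3⟩ := (neq_iff.1 h).1 _ _ h1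
      exact ⟨_, el_sg.2 ⟨v, d, k, h2, rfl, rfl⟩, opN_congr (ih u d h1 h3) (NEq.refl _)⟩
    · obtain ⟨u, d, k, h1, rfl, rfl⟩ := el_sg.1 hz
      obtain ⟨v, h2, h3⟩ := (neq_iff.1 h).2 _ _ h1
      exact ⟨_, el_sg.2 ⟨v, d, k, h2, rfl, rfl⟩, opN_congr (ih v d h2 h3) (NEq.refl _)⟩

theorem act_sg (h : ℕ → Bool) (a : Ordinal.{0} → ℕ → Equiv.Perm ℕ) (x : Nm Cd) :
    NEq (act (mv (gV h a)) (sg x)) (sg (act (mv (gV (fun _ => false) a)) x)) := by
  induction x using el_ind with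
  | h x ih =>
    have key : ∀ k d, mv (gV h a) (mv (gV k fun _ _ => 1) d) =
        mv (gV (fun n => k n ^^ h n) fun _ _ => 1) (mv (gV (fun _ => false) a) d) := by
      intro k d
      rw [mv_mv, mv_mv, gV_mul, gV_mul]
      simp
    refine neq_iff.2 ⟨fun z c hz => ?_, fun z c hz => ?_⟩
    · obtain ⟨y, d, hy, rfl, rfl⟩ := el_act.1 hz
      obtain ⟨u, d, k, h1, rfl, rfl⟩ := el_sg.1 hy
      refine ⟨opN (sg (act (mv (gV (fun _ => false) a)) u)) (check (nat (ck (cp d)))),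
        el_sg.2 ⟨_, _, fun n => k n ^^ h n, el_act.2 ⟨u, d, h1, rfl, rfl⟩, ?_, key k d⟩, ?_⟩
      · rw [cp_gV]
      · exact (act_opN _ _ _).trans (opN_congr (ih u d h1) (act_check _ _))
    · obtain ⟨y, d, k, h1, rfl, rfl⟩ := el_sg.1 hz
      obtain ⟨u, d, hy, rfl, rfl⟩ := el_act.1 h1
      refine ⟨_, el_act.2 ⟨_, _, el_sg.2 ⟨u, d, fun n => k n ^^ h n, hy, rfl, rfl⟩, rfl, ?_⟩, ?_⟩
      · rw [key]
        congr 2
        funext n
        simp
      · rw [cp_gV]
        exact (act_opN _ _ _).trans (opN_congr (ih u d hy) (act_check _ _))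

theorem sg_KK {x : Nm Cd} (hx : x ∈ KK true) : sg x ∈ KK false := by
  induction x using el_ind with
  | h x ih =>
    rw [mem_KK]
    constructor
    · intro z c hz
      obtain ⟨y, d, k, h1, rfl, rfl⟩ := el_sg.1 hz
      exact opN_KK (ih y d h1 ((mem_KK.1 hx).1 _ _ h1)) (check_KK _ _)
    · obtain ⟨E, hE, h1⟩ := (mem_KK.1 hx).2
      exact ⟨E, hE, fun h a _ ha => (act_sg h a x).trans (sg_congr (h1 _ a (fun _ => rfl) ha))⟩

end Pool.Agent.W868.GM
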