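import Pool.Agent.W868.GM.Ful

/-!
# The smaller model is not definable in the larger one
-/

set_option autoImplicit false
set_option linter.unusedSectionVars false

namespace Pool.Agent.W868.GM

open Pool.Agent.W868

theorem aN_ne {β : Ordinal.{0}} {n i j : ℕ} {p : Cd} {u v : Bool → Bool} (hu : u true = false)
    (hv : v true = true) (hn : At.c n true ∈ p.s) : ¬ Feq (aN β n i u) (aN β n j v) p := by
  intro hf
  obtain ⟨ξ, h1, h2⟩ : ∃ ξ : X β, (∀ b, At.h β n i ξ b ∉ p.s) ∧ ∀ b, At.h β n j ξ b ∉ p.s := by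
    by_contra hc
    have h3 : (Set.univ : Set (X β)) ⊆ {ξ | ∃ b, At.h β n i ξ b ∈ p.s} ∪
        {ξ | ∃ b, At.h β n j ξ b ∈ p.s} := by
      intro ξ _
      by_contra h4
      refine hc ⟨ξ, fun b hb => h4 (Or.inl ⟨b, hb⟩), fun b hb => h4 (Or.inr ⟨b, hb⟩)⟩
    have h4 := Cardinal.mk_le_mk_of_subset h3
    rw [Cardinal.mk_univ] at h4
    have h5 := h4.trans ((Cardinal.mk_union_le _ _).trans
      (Cardinal.add_le_of_le (aleph0_le β) (p.sz β n i) (p.sz β n j)))
    rw [Cardinal.mk_set] at h5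
    exact absurd h5 (not_le.2 (Cardinal.cantor _))
  have hc1 : Cd.Compat p (cnd2 β n i true ξ false) := by
    constructor
    · intro m b h3 h4
      rw [cnd2_c] at h4
      obtain ⟨rfl, h4⟩ := h4
      have h5 : b = false := by simpa using h4
      subst h5
      exact p.fc _ _ hn h3
    · intro α m k ζ b h3 h4
      obtain rfl := cnd2_h' h4
      rw [cnd2_h] at h4
      obtain ⟨rfl, rfl, rfl, -⟩ := h4
      exact h1 _ h3
  have hc2 : Cd.Compat (Cd.cup _ _ hc1) (cnd2 β n j true ξ false) := by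
    constructor
    · intro m b h3 h4
      rw [cnd2_c] at h4
      obtain ⟨rfl, h4⟩ := h4
      have h5 : b = false := by simpa using h4
      subst h5
      rcases h3 with h3 | h3
      · exact p.fc _ _ hn h3
      · rw [cnd2_c] at h3
        simp at h3
    · intro α m k ζ b h3 h4
      obtain rfl := cnd2_h' h4
      rw [cnd2_h] at h4
      obtain ⟨rfl, rfl, rfl, h4⟩ := h4
      rcases h3 with h3 | h3
      · exact h2 _ h3
      · rw [cnd2_h] at h3
        rw [h3.2.2.2] at h4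
        simp at h4
  have hq1 := Cd.cup_le_left hc2
  have hq2 := Cd.cup_le_right hc2
  have h3 := feq_iff'.1 (hf.mono (hq1.trans (Cd.cup_le_left hc1)))
  obtain ⟨r, hr, z, d, ⟨⟨b, ξ'⟩, rfl, rfl⟩, hd, he⟩ := h3.1 (check (xi ξ)) (cnd2 β n i true ξ false)
    ⟨(true, ξ), rfl, by rw [← hu]; rfl⟩ _ le_rfl (hq1.trans (Cd.cup_le_right hc1))
  change r ≤ cnd2 β n j b ξ' (v b) at hd
  change Feq (check (xi ξ)) (check (xi ξ')) r at he
  have h4 := xi_injective (feq_check.1 he)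
  subst h4
  have h5 : At.c n b ∈ r.s := hd (cnd2_c.2 ⟨rfl, rfl⟩)
  have h6 : At.c n true ∈ r.s := hr (Or.inl (Or.inl hn))
  have h7 : b = true := by
    cases b
    · exact absurd h5 (r.fc _ _ h6)
    · rfl
  subst h7
  have h8 : At.h β n j ξ true ∈ r.s := hd (cnd2_h.2 ⟨rfl, rfl, rfl, hv.symm⟩)
  have h9 : At.h β n j ξ false ∈ r.s := hr (hq2 (cnd2_h.2 ⟨rfl, rfl, rfl, rfl⟩))
  exact r.fh _ _ _ _ _ h8 h9

theorem T_notin {π : Pk KK} {β : Ordinal.{0}} (hT : (SN β fun _ b => !b) ∈ π.N) :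
    π.val (SN β fun _ b => !b) ∉ π.M false := by
  rintro ⟨y, ⟨hy, hyK⟩, he⟩
  obtain ⟨k, hk⟩ := (π.val_eq_iff hT hy).1 he.symm
  obtain ⟨n, hn⟩ := (π.g k).nc.infinite_compl.nonempty
  have hn' : ∀ b, At.c n b ∉ (π.g k).s := fun b hb => hn ⟨b, hb⟩
  let f : ℕ → Bool := fun m => decide (m = n)
  have hfix : mv (gV f fun _ _ => 1) (π.g k) = π.g k := by
    apply Cd.ext
    ext x
    cases x with
    | c m b =>
      rw [mv_c]
      by_cases hm : m = n
      · subst hm
        exact iff_of_false (hn' _) (hn' _)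
      · have h1 : (gV f fun _ _ => 1).h m = false := by
          simp [gV, f, hm]
        rw [h1, Bool.xor_false]
    | h α m i ξ b =>
      rw [mv_h]
      simp only [gV, Bool.xor_false]
      exact Iff.rfl
  obtain ⟨E, hE, hs⟩ := (mem_KK.1 hyK).2
  have h1 := hs f (fun _ _ => 1) (by simp) (fun _ _ => rfl)
  have h2 := act_SN (gV f fun _ _ => 1) β fun _ b => !b
  have h3 := Feq.act (aut (gV f fun _ _ => 1)) hk
  rw [aut_apply, hfix] at h3
  have h4 := h3.congr h2 h1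
  simp only [gV, Bool.xor_false] at h4
  have hF : Fn {(n, true)} := by
    intro m b h5 h6
    simp only [Finset.mem_singleton, Prod.mk.injEq] at h5 h6
    rw [h5.2] at h6
    simp at h6
  have hc : Cd.Compat (π.g k) (cdc {(n, true)} hF) := by
    constructor
    · intro m b h5 h6
      rw [cdc_c] at h6
      simp only [Finset.mem_singleton, Prod.mk.injEq] at h6
      rw [h6.1] at h5
      exact hn' _ h5
    · intro α m i ξ b _ h6
      exact cdc_h h6
  obtain ⟨π', hF', hA, h0⟩ := exists_full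
    (({SN β fun _ b => !b, SN β fun m b => !(b ^^ f m), y, aN β n 0 fun b => !b} : Set (Nm Cd)) ∪
      Set.range fun t : ℕ × ℕ => aN β t.1 t.2 fun b => !(b ^^ f t.1))
    ((Set.toFinite _).countable.union (Set.countable_range _)) (Cd.cup _ _ hc)
  have e1 : π'.val (SN β fun _ b => !b) = π'.val y :=
    (π'.val_eq_iff (hA (by simp)) (hA (by simp))).2 ⟨0, hk.mono (by
      rw [h0]
      exact Cd.cup_le_left hc)⟩
  have e2 : π'.val (SN β fun m b => !(b ^^ f m)) = π'.val y :=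
    (π'.val_eq_iff (hA (by simp)) (hA (by simp))).2 ⟨0, h4.mono (by
      rw [h0]
      exact Cd.cup_le_left hc)⟩
  have e3 : (aN β n 0 fun b => !b) ∈ π'.N := hA (by simp)
  have e4 : ∀ m j, (aN β m j fun b => !(b ^^ f m)) ∈ π'.N := fun m j => hA (Or.inr ⟨(m, j), rfl⟩)
  have e5 : π'.val (opN (check (nat n)) (aN β n 0 fun b => !b)) ∈
      π'.val (SN β fun _ b => !b) :=
    π'.val_mem_val (n := 0) (opN_N hF'.toGood (hF'.nat n) e3) ⟨(n, 0), rfl, rfl⟩ le_top
  rw [e1, ← e2] at e5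
  obtain ⟨z, hz, c, ⟨⟨m, j⟩, rfl, rfl⟩, -, e6⟩ := π'.mem_val.1 e5
  change π'.val (opN (check (nat m)) (aN β m j fun b => !(b ^^ f m))) = _ at e6
  rw [val_opN hF'.toGood (hF'.nat m) (e4 m j), val_opN hF'.toGood (hF'.nat n) e3,
    val_nat hF'.toGood, val_nat hF'.toGood, ZFSet.pair_inj] at e6
  obtain ⟨e7, e8⟩ := e6
  have e9 := nat_injective e7
  subst e9
  obtain ⟨l, hl⟩ := (π'.val_eq_iff e3 (e4 m j)).1 e8.symm
  refine aN_ne (by rfl) ?_ ?_ hl
  · simp [f]
  · have e10 : π'.g l ≤ cdc {(m, true)} hF := by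
      refine (π'.g_anti (Nat.zero_le l)).trans ?_
      rw [h0]
      exact Cd.cup_le_right hc
    exact e10 (cdc_c.2 (by simp))

/-- The smaller model is not definable in the larger one, even with parameters from the larger
one. -/
theorem not_def {π : Pk KK} (hπ : Full π) : ¬ ∃ φ : Fml ZFSet.{0} 1, φ.Over (π.M true) ∧
    ∀ x ∈ π.M true, (Sat (π.M true) id φ ![x] ↔ x ∈ π.M false) := by
  rintro ⟨φ, hφ, h1⟩
  obtain ⟨ψ, hψ, h2⟩ := exists_nm φ hφ
  have hψN : ψ.Over π.N := Fml.Over.mono (fun a ha => ha.1) hψ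
  have hvec : ∀ u : Nm Cd, π.val ∘ (Fin.cons u Fin.elim0 : Fin 1 → Nm Cd) = ![π.val u] := by
    intro u
    funext i
    fin_cases i
    rfl
  have hv : ∀ u ∈ π.N, ∀ i, (Fin.cons u Fin.elim0 : Fin 1 → Nm Cd) i ∈ π.N := fun u hu =>
    Pk.cons_mem hu fun i => i.elim0
  have key : ∀ y ∈ π.N, y ∈ KK true → ((∃ k, Forces (KK true) id ψ (Fin.cons y Fin.elim0) (π.g k)) ↔
      π.val y ∈ π.M false) := by
    intro y hy hyK
    rw [← h1 _ (π.val_mem_M hy hyK), ← h2, ← hvec, π.sat_iff true ψ hψN _ (hv y hy)]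
  obtain ⟨k, -, -, h3⟩ := π.gen ⟨true, 0, .ex ψ, Fin.elim0, π.g 0⟩ ⟨hψN, fun i => i.elim0⟩
  rcases h3 with h3 | ⟨y, hy, hyK, h3⟩
  · obtain ⟨β, h4, h5, h6, h7⟩ := hπ.tws ψ hψN (π.g k) (π.gC k)
    have h8 := h3 _ (SN_KK false β)
    have h9 := (Forces.act_aux (aut (tw β)) (KK.act_iff (w := true) _ (by simp)).1
      (KK.act_iff _ (by simp)).2 ψ _ _ (e := id)).2 h8
    rw [aut_apply, tw_low h5] at h9
    have h10 : Forces (KK true) id ψ (Fin.cons (SN β fun _ b => !b) Fin.elim0) (π.g k) := by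
      refine Forces.congr (S := {y | Lev β y}) (fun b (hb : Lev _ b) => ?_) ψ h4 ?_ h9
      · change NEq (act (mv _) b) b
        rw [tw_lev hb]
        exact NEq.refl _
      · intro j
        refine Fin.cases ?_ (fun j => j.elim0) j
        exact act_tw β
    exact T_notin h7 ((key _ h7 (TN_KK β)).1 ⟨k, h10⟩)
  · obtain ⟨l, hl⟩ := (key y hy (KK.toTrue hyK)).2 (π.val_mem_M hy hyK)
    exact h3 _ (π.g_le_left k l) (hl.mono (π.g_le_right k l))

end Pool.Agent.W868.GM
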