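import Pool.Agent.W868.GM.Gnc
import Pool.Agent.W868.Rec

/-!
# The larger model is the generic extension of the smaller one
-/

set_option autoImplicit false
set_option linter.unusedSectionVars false

namespace Pool.Agent.W868.GM

open Pool.Agent.W868

theorem mv_gV_le {p c : Cd} {h : ℕ → Bool} (h1 : p ≤ mv (gV h fun _ _ => 1) c)
    (h2 : cp c ⊆ cp p) : p ≤ c := by
  intro x hx
  cases x with
  | c n b => exact mem_cp.1 (h2 (mem_cp.2 hx))
  | h α n i ξ b =>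
    refine h1 ?_
    rw [mv_h]
    simp only [gV, Bool.xor_false]
    exact hx

theorem mv_gV_one (c : Cd) : mv (gV (fun _ => false) fun _ _ => 1) c = c := by
  apply Cd.ext
  ext x
  cases x with
  | c n b =>
    rw [mv_c]
    simp [gV]
  | h α n i ξ b =>
    rw [mv_h]
    simp only [gV, Bool.xor_false]
    exact Iff.rfl

theorem ev_sg {π : Pk KK} (hπ : Full π) (x : Nm Cd) (hx : x ∈ π.N) :
    ev (π.val gcN) (π.val (sg x)) = π.val x := by
  have hg := hπ.toGood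
  induction x using el_ind with
  | h x ih =>
    ext u
    rw [mem_ev]
    constructor
    · rintro ⟨y, m, h1, h2, rfl⟩
      obtain ⟨Y, hY, d, hd, ⟨k, hk⟩, h3⟩ := π.mem_val.1 h1
      obtain ⟨z0, d0, h0, hz0, e1, e2⟩ := el_sg.1 hd
      obtain ⟨z, hz, c, h, hc, e3, hk'⟩ := hπ.inv x hx Y hY (π.g k) (π.gC k)
        ⟨z0, d0, h0, hz0, e1, by rw [← e2]; exact hk⟩
      rw [e3, val_opN hg (hπ.sig z hz) (hg.nat _), val_nat hg] at h3
      obtain ⟨h4, h5⟩ := ZFSet.pair_inj.1 h3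
      rw [← h5] at h2
      obtain ⟨l, hl⟩ := (nat_mem_gc hg).1 h2
      rw [dk_ck (fn_cp _)] at hl
      rw [← h4, ih z c hc hz]
      refine π.val_mem_val (n := max k l) hz hc (mv_gV_le (h := h) ?_ ?_)
      · exact (π.g_le_left k l).trans hk'
      · exact hl.trans (cp_mono (π.g_le_right k l))
    · intro hu
      obtain ⟨z, hz, c, hc, ⟨k, hk⟩, rfl⟩ := π.mem_val.1 hu
      refine ⟨π.val (sg z), nat (ck (cp c)), ?_, ?_, ih z c hc hz⟩
      · have h1 := π.val_mem_val (n := k) (opN_N hg (hπ.sig z hz) (hg.nat (ck (cp c))))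
          (el_sg.2 ⟨z, c, fun _ => false, hc, rfl, rfl⟩) (by rw [mv_gV_one]; exact hk)
        rwa [val_opN hg (hπ.sig z hz) (hg.nat _), val_nat hg] at h1
      · rw [nat_mem_gc hg, dk_ck (fn_cp _)]
        exact ⟨k, cp_mono hk⟩

/-- The predecessors for the evaluation of names. -/
noncomputable def prE (G z : ZFSet.{0}) : ZFSet.{0} :=
  ZFSet.sep (fun y => ∃ p ∈ G, ZFSet.pair y p ∈ z) (ZFSet.sUnion (ZFSet.sUnion z))

theorem mem_prE {G z y : ZFSet.{0}} : y ∈ prE G z ↔ ∃ p ∈ G, ZFSet.pair y p ∈ z := by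
  rw [prE, ZFSet.mem_sep]
  constructor
  · exact fun h => h.2
  · rintro ⟨p, hp, h⟩
    refine ⟨?_, p, hp, h⟩
    rw [ZFSet.mem_sUnion]
    refine ⟨{y}, ?_, by simp⟩
    rw [ZFSet.mem_sUnion]
    exact ⟨_, h, by simp [ZFSet.pair]⟩

theorem wf_prE (G : ZFSet.{0}) : WellFounded fun u z => u ∈ prE G z :=
  Subrelation.wf (r := InvImage (· < ·) ZFSet.rank) (fun {u z} h => by
    obtain ⟨p, -, h1⟩ := mem_prE.1 h
    exact rank_lt_of_pair_mem h1) (InvImage.wf ZFSet.rank wellFounded_lt)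

theorem ev_mem {M : Set ZFSet.{0}} (hM : IsZF M) {G x : ZFSet.{0}} (hG : G ∈ M) (hx : x ∈ M) :
    ev G x ∈ M := by
  have hB := hM.base
  have h : DfnF M M fun w : Fin 1 → ZFSet.{0} => ev G (w 0) := by
    refine hM.wfrec (pr := prE G) (wf_prE G) (G := fun _ g => im sn g) ?_ ?_ ?_
    · refine hM.sep' (Q := fun y v => ∃ p ∈ G, ZFSet.pair y p ∈ v 0)
        (hB.sUnion' (hB.sUnion' (DfnF.proj 0))) ?_
      refine hB.bex (Q := fun p w => ZFSet.pair (w 0) p ∈ Fin.tail w 0) (DfnF.const hG) ?_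
      exact Dfn.mem (hB.pair' (DfnF.proj 1) (DfnF.proj 0)) (DfnF.proj 2)
    · exact hM.im' (h := fun p _ => sn p) (DfnF.proj 1) (hM.sn' (DfnF.proj 0))
    · intro z
      ext u
      rw [mem_ev, mem_im]
      constructor
      · rintro ⟨y, p, h1, h2, rfl⟩
        exact ⟨ZFSet.pair y (ev G y), mem_gr.2 ⟨y, mem_prE.2 ⟨p, h2, h1⟩, rfl⟩, (sn_pair _ _).symm⟩
      · rintro ⟨q, hq, rfl⟩
        obtain ⟨y, hy, rfl⟩ := mem_gr.1 hq
        obtain ⟨p, hp, h1⟩ := mem_prE.1 hy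
        exact ⟨y, p, h1, hp, (sn_pair _ _).symm⟩
  exact h.1 (fun _ => x) fun _ => hx

theorem M_false_sub {π : Pk KK} : π.M false ⊆ π.M true := by
  rintro _ ⟨x, ⟨hx, hxK⟩, rfl⟩
  exact π.val_mem_M hx (KK.toTrue hxK)

theorem ext_eq {π : Pk KK} (hπ : Full π) (hG : gcN ∈ π.N) :
    ext (π.M false) (π.val gcN) = π.M true := by
  apply Set.Subset.antisymm
  · rintro _ ⟨x, hx, rfl⟩
    exact ev_mem (isZF_M hπ.toGood true) (π.val_mem_M hG gcN_KK) (M_false_sub hx)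
  · rintro _ ⟨x, ⟨hx, hxK⟩, rfl⟩
    exact ⟨_, π.val_mem_M (hπ.sig x hx) (sg_KK hxK), ev_sg hπ x hx⟩

theorem M_countable {π : Pk KK} {w : Bool} : (π.M w).Countable :=
  (π.cnt.mono Set.inter_subset_left).image _

/-- The counterexample. -/
theorem main : ∃ (V : Set ZFSet.{0}) (Le G : ZFSet.{0}), V.Countable ∧ IsZF V ∧
    IsForcing V ZFSet.omega Le ∧ IsGeneric V ZFSet.omega Le G ∧ IsZF (ext V G) ∧
      V ⊆ ext V G ∧ G ∈ ext V G ∧ ¬ IsDef (ext V G) V (ext V G) := by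
  obtain ⟨π, hπ, hA, -⟩ := exists_full {gcN, relN Rl} (Set.toFinite _).countable ⊤
  have hG : gcN ∈ π.N := hA (by simp)
  have hR : relN Rl ∈ π.N := hA (by simp)
  refine ⟨π.M false, π.val (relN Rl), π.val gcN, M_countable, isZF_M hπ.toGood false,
    forcing_pk hπ hR, generic_pk hπ hR hG, ?_, ?_, ?_, ?_⟩
  · rw [ext_eq hπ hG]
    exact isZF_M hπ.toGood true
  · rw [ext_eq hπ hG]
    exact M_false_sub
  · rw [ext_eq hπ hG]
    exact π.val_mem_M hG gcN_KK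
  · rw [ext_eq hπ hG]
    exact not_def hπ

end Pool.Agent.W868.GM
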