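import Pool.Agent.W868.GM.Coll

/-!
# The models given by the symmetric names satisfy ZF
-/

set_option autoImplicit false
set_option linter.unusedSectionVars false

namespace Pool.Agent.W868.GM

open Pool.Agent.W868

/-- The package is closed under the operations of ZF. -/
structure Good (π : Pk KK) : Prop where
  pair : ∀ x ∈ π.N, ∀ y ∈ π.N, pairN x y ∈ π.N
  union : ∀ x ∈ π.N, unionN x ∈ π.N
  pow : ∀ (w : Bool), ∀ x ∈ π.N, powN w x ∈ π.N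
  sep : ∀ (w : Bool) {n : ℕ} (φ : Fml (Nm Cd) (n + 1)) (v : Fin n → Nm Cd) (x : Nm Cd),
    φ.Over π.N → (∀ i, v i ∈ π.N) → x ∈ π.N → sepN w φ v x ∈ π.N
  coll : ∀ (w : Bool) {n : ℕ} (φ : Fml (Nm Cd) (n + 2)) (v : Fin n → Nm Cd) (x : Nm Cd),
    φ.Over π.N → (∀ i, v i ∈ π.N) → x ∈ π.N → collN w φ v x ∈ π.N
  nat : ∀ n, check (nat n) ∈ π.N
  om : check ZFSet.omega ∈ π.N

variable {π : Pk KK} {w : Bool}

theorem M_trans {a z : ZFSet.{0}} (ha : a ∈ π.M w) (hz : z ∈ a) : z ∈ π.M w := by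
  obtain ⟨b, ⟨hb, hbK⟩, rfl⟩ := ha
  obtain ⟨c, hc, d, hcd, -, rfl⟩ := π.mem_val.1 hz
  exact π.val_mem_M hc ((mem_KK.1 hbK).1 _ _ hcd)

theorem val_pairN {x y : Nm Cd} (hx : x ∈ π.N) (hy : y ∈ π.N) :
    π.val (pairN x y) = {π.val x, π.val y} := by
  ext z
  rw [ZFSet.mem_pair, π.mem_val]
  constructor
  · rintro ⟨u, hu, c, hc, -, rfl⟩
    obtain ⟨rfl | rfl, -⟩ := el_pairN.1 hc
    · exact Or.inl rfl
    · exact Or.inr rfl
  · rintro (rfl | rfl)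
    · exact ⟨x, hx, ⊤, el_pairN.2 ⟨Or.inl rfl, rfl⟩, ⟨0, le_top⟩, rfl⟩
    · exact ⟨y, hy, ⊤, el_pairN.2 ⟨Or.inr rfl, rfl⟩, ⟨0, le_top⟩, rfl⟩

theorem val_opN (hg : Good π) {x y : Nm Cd} (hx : x ∈ π.N) (hy : y ∈ π.N) :
    π.val (opN x y) = ZFSet.pair (π.val x) (π.val y) := by
  rw [opN, val_pairN (hg.pair x hx x hx) (hg.pair x hx y hy), val_pairN hx hx, val_pairN hx hy,
    ZFSet.pair_eq_singleton]
  rfl

theorem opN_N (hg : Good π) {x y : Nm Cd} (hx : x ∈ π.N) (hy : y ∈ π.N) : opN x y ∈ π.N :=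
  hg.pair _ (hg.pair x hx x hx) _ (hg.pair x hx y hy)

theorem val_unionN {x : Nm Cd} (hx : x ∈ π.N) (hxK : x ∈ KK w) (hu : unionN x ∈ π.N) :
    π.val (unionN x) = ZFSet.sUnion (π.val x) := by
  have hxT : x ∈ KK true := by
    cases w
    · exact KK.toTrue hxK
    · exact hxK
  ext z
  rw [ZFSet.mem_sUnion]
  constructor
  · intro hz
    obtain ⟨u, hu, c, hc, ⟨k, hk⟩, rfl⟩ := π.mem_val.1 hz
    obtain ⟨y, c, d, h1, h2, h3, rfl⟩ := el_unionN.1 hc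
    have h4 := (π.sat_iff true (n := 0) (.ex (.and (.mem (Sum.inl 0) (Sum.inr x))
      (.mem (Sum.inr u) (Sum.inl 0)))) ⟨⟨TOver.inl _, tOver_inr.2 hx⟩, ⟨tOver_inr.2 hu,
      TOver.inl _⟩⟩ Fin.elim0 (fun i => i.elim0)).2 ⟨k, ?_⟩
    · obtain ⟨y', -, h5, h6⟩ := h4
      exact ⟨y', h5, h6⟩
    · intro q hq
      refine ⟨q, le_rfl, y, (mem_KK.1 hxT).1 _ _ h1, fun r hr => ?_, fun r hr => ?_⟩
      · exact ⟨r, le_rfl, y, c, h1, hr.trans (hq.trans (hk.trans (Cd.cup_le_left h3))),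
          Feq.refl _ _⟩
      · exact ⟨r, le_rfl, u, d, h2, hr.trans (hq.trans (hk.trans (Cd.cup_le_right h3))),
          Feq.refl _ _⟩
  · rintro ⟨y, hy, hz⟩
    obtain ⟨b, hb, c, hc, ⟨k, hk⟩, rfl⟩ := π.mem_val.1 hy
    obtain ⟨u, hu, d, hd, ⟨m, hm⟩, rfl⟩ := π.mem_val.1 hz
    have h1 := (π.g_le_left k m).trans hk
    have h2 := (π.g_le_right k m).trans hm
    have h3 := Cd.compat_of_le h1 h2
    exact π.val_mem_val hu (el_unionN.2 ⟨b, c, d, hc, hd, h3, rfl⟩) (Cd.le_cup h3 h1 h2)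

theorem exists_nm {n : ℕ} (φ : Fml ZFSet.{0} n) (hφ : φ.Over (π.M w)) :
    ∃ ψ : Fml (Nm Cd) n, ψ.Over (π.N ∩ KK w) ∧
      ∀ v, Sat (π.M w) π.val ψ v ↔ Sat (π.M w) id φ v := by
  have h : ∀ a : ZFSet.{0}, ∃ x : Nm Cd, a ∈ π.M w → x ∈ π.N ∩ KK w ∧ π.val x = a := by
    intro a
    by_cases ha : a ∈ π.M w
    · obtain ⟨x, hx, hxa⟩ := ha
      exact ⟨x, fun _ => ⟨hx, hxa⟩⟩
    · exact ⟨Nm.emp, fun h => absurd h ha⟩
  choose f hf using h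
  refine ⟨φ.map f, (over_map f φ).2 (Fml.Over.mono (fun a ha => (hf a ha).1) hφ), fun v => ?_⟩
  rw [sat_map]
  exact sat_congr _ (fun a ha => (hf a ha).2) φ hφ v

theorem mem_sepN {ψ : Fml (Nm Cd) 1} (hψ : ψ.Over π.N) {x : Nm Cd} {z : ZFSet.{0}} :
    z ∈ π.val (sepN w ψ Fin.elim0 x) ↔ z ∈ π.val x ∧ Sat (π.M w) π.val ψ ![z] := by
  have hvec : ∀ u : Nm Cd, π.val ∘ (Fin.cons u Fin.elim0 : Fin 1 → Nm Cd) = ![π.val u] := by
    intro u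
    funext i
    fin_cases i
    rfl
  have hv : ∀ u ∈ π.N, ∀ i, (Fin.cons u Fin.elim0 : Fin 1 → Nm Cd) i ∈ π.N := fun u hu =>
    Pk.cons_mem hu fun i => i.elim0
  constructor
  · intro hz
    obtain ⟨u, hu, c, hc, ⟨k, hk⟩, rfl⟩ := π.mem_val.1 hz
    obtain ⟨i, r, h1, h2, rfl, rfl⟩ := el_subn.1 hc
    refine ⟨π.val_mem_val hu ⟨i, rfl, rfl⟩ (hk.trans h1), ?_⟩
    rw [← hvec]
    exact (π.sat_iff w ψ hψ _ (hv _ hu)).2 ⟨k, h2.mono hk⟩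
  · rintro ⟨hz, hs⟩
    obtain ⟨u, hu, c, ⟨i, rfl, rfl⟩, ⟨k, hk⟩, rfl⟩ := π.mem_val.1 hz
    rw [← hvec] at hs
    obtain ⟨m, hm⟩ := (π.sat_iff w ψ hψ _ (hv _ hu)).1 hs
    obtain ⟨hb1, hb2, hb3, -⟩ := bd_spec ψ Fin.elim0 x
    have h1 := hom (w := w) hb1 (E := ∅) Set.finite_empty (e := id)
      (v := Fin.cons (x.chd i) Fin.elim0) (β := bd ψ Fin.elim0 x)
      (fun a (ha : Lev _ a) => ha.inv ∅) (fun j => by
        refine Fin.cases ?_ (fun j => j.elim0) j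
        exact ((lev_iff.1 hb3) _ _ ⟨i, rfl, rfl⟩).1.inv ∅) (hm.mono (π.g_le_right k m))
    obtain ⟨r, hr⟩ := Cd.exists_R (Cd.low_rs (bd ψ Fin.elim0 x) (π.g (max k m)))
    refine π.val_mem_val (n := max k m) hu (el_subn.2 ⟨i, r, ?_, ?_, rfl, rfl⟩) ?_
    · rw [hr]
      exact Cd.rs_le ((lev_iff.1 hb3) _ _ ⟨i, rfl, rfl⟩).2 ((π.g_le_left k m).trans hk)
    · rw [hr]
      exact h1
    · rw [hr]
      exact Cd.le_rs _ _ _

theorem mem_val_check {x : ZFSet.{0}} {z : ZFSet.{0}} : z ∈ π.val (check x) ↔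
    ∃ y ∈ x, check y ∈ π.N ∧ π.val (check y) = z := by
  rw [π.mem_val]
  constructor
  · rintro ⟨u, hu, c, hc, -, rfl⟩
    obtain ⟨y, hy, rfl, rfl⟩ := el_check.1 hc
    exact ⟨y, hy, hu, rfl⟩
  · rintro ⟨y, hy, hyN, rfl⟩
    exact ⟨check y, hyN, ⊤, el_check.2 ⟨y, hy, rfl, rfl⟩, ⟨0, le_top⟩, rfl⟩

theorem val_nat (hg : Good π) (n : ℕ) : π.val (check (nat n)) = nat n := by
  induction n with
  | zero =>
    ext z
    rw [mem_val_check]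
    simp [nat]
  | succ n ih =>
    ext z
    rw [mem_val_check, nat, ZFSet.mem_insert_iff]
    constructor
    · rintro ⟨y, hy, hyN, rfl⟩
      rcases ZFSet.mem_insert_iff.1 hy with rfl | hy
      · exact Or.inl ih
      · refine Or.inr ?_
        have h1 : π.val (check y) ∈ π.val (check (nat n)) := mem_val_check.2 ⟨y, hy, hyN, rfl⟩
        rwa [ih] at h1
    · rintro (rfl | hz)
      · exact ⟨nat n, ZFSet.mem_insert _ _, hg.nat n, ih⟩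
      · rw [← ih] at hz
        obtain ⟨y, hy, hyN, rfl⟩ := mem_val_check.1 hz
        exact ⟨y, ZFSet.mem_insert_of_mem _ hy, hyN, rfl⟩

theorem val_omega (hg : Good π) : π.val (check ZFSet.omega) = ZFSet.omega := by
  ext z
  rw [mem_val_check, mem_omega_iff]
  constructor
  · rintro ⟨y, hy, -, rfl⟩
    obtain ⟨n, rfl⟩ := mem_omega_iff.1 hy
    exact ⟨n, val_nat hg n⟩
  · rintro ⟨n, rfl⟩
    exact ⟨nat n, mem_omega_iff.2 ⟨n, rfl⟩, hg.nat n, val_nat hg n⟩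

/-- The models satisfy ZF. -/
theorem isZF_M (hg : Good π) (w : Bool) : IsZF (π.M w) := by
  have hsep : ∀ φ : Fml ZFSet.{0} 1, φ.Over (π.M w) → ∀ x ∈ π.M w, ∃ y ∈ π.M w, ∀ z,
      z ∈ y ↔ z ∈ x ∧ Sat (π.M w) id φ ![z] := by
    rintro φ hφ _ ⟨x, ⟨hx, hxK⟩, rfl⟩
    obtain ⟨ψ, hψ, h1⟩ := exists_nm φ hφ
    have hψN : ψ.Over π.N := Fml.Over.mono (fun a ha => ha.1) hψ
    have hψK : ψ.Over (KK w) := Fml.Over.mono (fun a ha => ha.2) hψ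
    refine ⟨_, π.val_mem_M (hg.sep w ψ Fin.elim0 x hψN (fun i => i.elim0) hx)
      (sepN_KK hψK (fun i => i.elim0) hxK), fun z => ?_⟩
    rw [mem_sepN hψN, h1]
  constructor
  · exact fun x hx y hy => M_trans hx hy
  · rintro _ ⟨x, ⟨hx, hxK⟩, rfl⟩ _ ⟨y, ⟨hy, hyK⟩, rfl⟩
    rw [← val_pairN hx hy]
    exact π.val_mem_M (hg.pair x hx y hy) (pairN_KK hxK hyK)
  · rintro _ ⟨x, ⟨hx, hxK⟩, rfl⟩
    rw [← val_unionN hx hxK (hg.union x hx)]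
    exact π.val_mem_M (hg.union x hx) (unionN_KK hxK)
  · rw [← val_omega hg]
    exact π.val_mem_M hg.om (check_KK w _)
  · rintro _ ⟨x, ⟨hx, hxK⟩, rfl⟩
    refine ⟨_, π.val_mem_M (hg.pow w x hx) (powN_KK hxK), fun z => ?_⟩
    constructor
    · intro hz
      obtain ⟨u, hu, c, hc, -, rfl⟩ := π.mem_val.1 hz
      obtain ⟨S, hS, rfl, rfl⟩ := el_powN.1 hc
      refine ⟨π.val_mem_M hu hS, fun t ht => ?_⟩
      obtain ⟨b, hb, d, hd, ⟨k, hk⟩, rfl⟩ := π.mem_val.1 ht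
      obtain ⟨i, r, h1, h2, rfl, rfl⟩ := el_subn.1 hd
      exact π.val_mem_val hb ⟨i, rfl, rfl⟩ (hk.trans h1)
    · rintro ⟨⟨y, ⟨hy, hyK⟩, rfl⟩, hz⟩
      obtain ⟨u, hu, h1, h2⟩ := pow_pk π hx hy hxK hyK (hg.pow w x hx)
      have h3 : π.val y = u := by
        ext t
        exact ⟨fun ht => h1 t (hz ht) ht, fun ht => h2 t ht⟩
      rw [h3]
      exact hu
  · exact hsep
  · rintro φ hφ _ ⟨x, ⟨hx, hxK⟩, rfl⟩ hfun
    obtain ⟨ψ, hψ, h1⟩ := exists_nm φ hφ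
    have hψN : ψ.Over π.N := Fml.Over.mono (fun a ha => ha.1) hψ
    let ψ' : Fml (Nm Cd) 2 := ψ.subst ![Sum.inl 1, Sum.inl 0]
    have hψ' : ψ'.Over π.N := over_subst ψ _ (fun k => by
      fin_cases k
      · exact TOver.inl _
      · exact TOver.inl _) hψN
    have hs : ∀ a b : ZFSet.{0}, Sat (π.M w) π.val ψ' ![a, b] ↔ Sat (π.M w) id φ ![b, a] := by
      intro a b
      rw [← h1, sat_subst]
      have h2 : (fun k : Fin 2 => Sum.elim ![a, b] π.val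
          ((![Sum.inl 1, Sum.inl 0] : Fin 2 → Fin 2 ⊕ Nm Cd) k)) = ![b, a] := by
        funext k
        fin_cases k
        · rfl
        · rfl
      rw [h2]
    have hC := π.val_mem_M (hg.coll w ψ' Fin.elim0 x hψ' (fun i => i.elim0) hx)
      (collN_KK (w := w) (φ := ψ') (v := Fin.elim0) (x := x))
    obtain ⟨y, hy, h2⟩ := hsep (.ex (.and (.mem (Sum.inl 0) (Sum.inr (π.val x))) φ))
      ⟨⟨TOver.inl _, tOver_inr.2 (π.val_mem_M hx hxK)⟩, hφ⟩ _ hC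
    refine ⟨y, hy, fun u => ?_⟩
    rw [h2]
    constructor
    · rintro ⟨h3, z, -, h4, h5⟩
      refine ⟨M_trans hC h3, z, h4, ?_⟩
      have h6 : (Fin.cons z ![u] : Fin 2 → ZFSet.{0}) = ![z, u] := by
        funext k
        fin_cases k <;> rfl
      rwa [h6] at h5
    · rintro ⟨h3, z, h4, h5⟩
      have h6 : (Fin.cons z ![u] : Fin 2 → ZFSet.{0}) = ![z, u] := by
        funext k
        fin_cases k <;> rfl
      refine ⟨?_, z, M_trans (π.val_mem_M hx hxK) h4, h4, by rwa [h6]⟩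
      obtain ⟨b, hb, d, ⟨i, rfl, rfl⟩, ⟨k, hk⟩, rfl⟩ := π.mem_val.1 h4
      have h7 : ∀ a : ZFSet.{0}, (Fin.cons a (Fin.cons (π.val (x.chd i))
          (π.val ∘ (Fin.elim0 : Fin 0 → Nm Cd))) : Fin 2 → ZFSet.{0}) = ![a, π.val (x.chd i)] := by
        intro a
        funext k
        fin_cases k <;> rfl
      obtain ⟨a, ha, haM, h8⟩ := coll_pk π hψ' (fun i => i.elim0)
        (hg.coll w ψ' Fin.elim0 x hψ' (fun i => i.elim0) hx) hb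
        ⟨u, h3, by rw [h7, hs]; exact h5⟩
      rw [h7, hs] at h8
      have h9 := (hfun _ h4).unique ⟨h3, h5⟩ ⟨haM, h8⟩
      rw [h9]
      exact ha

end Pool.Agent.W868.GM
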